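import Pool.Agent.H91.CF.Defs

/-!
# All orthogonal characters of degree two: the interface between the parts
-/

set_option autoImplicit false

open MeasureTheory Set Filter NumberField
open scoped Real nonZeroDivisors

namespace Pool.Agent.H91.CF

open Pool.Agent.H31.CN Pool.Agent.H28.RC

/-! ### Part U (helper31): unfolding, average over the discriminant -/

/-- (UNFf) the unfolded second moment with the kernel. -/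
def T_UNFf : Prop :=
  ∀ (f D : ℕ), 0 < f → 0 < D → (D % 4 = 0 ∨ D % 4 = 3) → ∀ (S : Finset ℕ) (c : ℕ → ℝ),
    (∀ m ∈ S, Squarefree m ∧ Nat.Coprime m f) →
    ∀ (ι : Type) [Fintype ι] (Q : ι → QF), (∀ i, Q i ∈ FD D) →
      (∀ i j g, act (Q i) g = Q j → i = j ∧ (g = 1 ∨ g = -1)) →
      ∑ i, SQ f S c (Q i) ≤ 2 * ∑ m₁ ∈ S, ∑ m₂ ∈ S, c m₁ * c m₂ * Uff m₁ m₂ f D

/-- the mean of the weight over the last two coefficients, the last one prime to `d` -/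
noncomputable def wbd (q d : ℕ) (w : ℕ → ℕ → ℤ → ℤ → ℝ) (e A : ℕ) : ℝ :=
  (1 / (q : ℝ) ^ 2) * ∑ B ∈ Finset.range q, ∑ C ∈ Finset.range q,
    if Nat.Coprime C d then w e A B C else 0

/-- the main term for fixed discriminant -/
noncomputable def Mng (q n g d m₁ m₂ : ℕ) (w : ℕ → ℕ → ℤ → ℤ → ℝ) (Δ : ℝ) : ℝ :=
  ∑' x : ℕ × ℕ, Vk ((x.1 : ℝ) ^ 2 * x.2 / ((n : ℝ) * m₁ * m₂ * Real.sqrt Δ)) /
    Real.sqrt ((x.1 : ℝ) ^ 2 * x.2) * wbd q d w x.1 x.2 * Nb m₁ m₂ x.2 x.1 *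
      ((Real.log (Real.sqrt Δ / x.2) + Real.log ((g : ℝ) / (d : ℝ) ^ 2) + c0) / Real.sqrt x.2)

/-- (AVGf) the average of the unfolded sum over the discriminant, level `g`. -/
def T_AVGf : Prop :=
  ∀ (G : ℝ → ℝ) (η : ℝ), 0 < η → ContDiff ℝ (⊤ : ℕ∞) G → (∀ u, u ∉ Icc η 1 → G u = 0) →
  ∀ (q n g : ℕ) (K δ : ℝ), 1 ≤ q → 1 ≤ n → Squarefree g → g ∣ q → g ∣ n → 0 < δ →
    δ ≤ 1 / 100 →
    ∃ X₀ : ℝ, ∀ X, X₀ ≤ X → ∀ (d m₁ m₂ : ℕ) (w : ℕ → ℕ → ℤ → ℤ → ℝ), d ∣ g → WD q K w →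
      (∀ e A B C, ¬ Nat.Coprime (e * A) g → w e A B C = 0) →
      Squarefree m₁ → Squarefree m₂ → Nat.Coprime q m₁ → Nat.Coprime q m₂ →
      (m₁ : ℝ) ≤ X ^ (1 / 4 - δ) → (m₂ : ℝ) ≤ X ^ (1 / 4 - δ) →
      |(∑' Δ : ℕ, G (Δ / X) * USg g d n m₁ m₂ w Δ) -
        (1 / 2) * ∫ Δ in Ioi (0 : ℝ), G (Δ / X) * Mng q n g d m₁ m₂ w Δ| ≤ X ^ (-1 : ℝ)

/-- (MNf) the main term for fixed discriminant as a value of the functional `Ph`. -/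
def T_MNf : Prop :=
  ∀ (q n g d m₁ m₂ : ℕ) (w : ℕ → ℕ → ℤ → ℤ → ℝ) (T : Finset (ℕ × ℕ)) (f : ℕ × ℕ → ℝ) (Δ : ℝ),
    1 ≤ n → 1 ≤ g → 1 ≤ d → Squarefree m₁ → Squarefree m₂ → (∀ x ∈ T, 1 ≤ x.1 ∧ 1 ≤ x.2) →
    (∀ x ∈ T, Nat.Coprime x.1 (m₁ * m₂) ∧ Nat.Coprime x.2 (m₁ * m₂)) → 0 < Δ →
    (∀ e A, 1 ≤ e → 1 ≤ A → wbd q d w e A = ∑ x ∈ T, if x.1 ∣ A ∧ x.2 ∣ e then f x else 0) →
    Mng q n g d m₁ m₂ w Δ = Ph (Real.log (Real.sqrt Δ))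
      ((∑ x ∈ T, (f x / ((x.1 : ℝ) * x.2)) •
        E (Real.log x.1 - Real.log ((g : ℝ) / (d : ℝ) ^ 2))
          (Real.log (x.1 * (x.2 : ℝ) ^ 2 / n))) * ka m₁ m₂)

/-! ### Part P (helper95, helper37): characters and forms -/

/-- (PROf) the proportion for one field and one conductor. -/
def T_PROf : Prop :=
  ∀ (D f : ℕ) (K : Type) [Field K] [NumberField K], 4 < D → Fu D → 0 < f →
    Module.finrank ℚ K = 2 → discr K = -(D : ℤ) →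
    (RQ K f).Finite ∧ (nn K f : ℝ) = classNumber K * xiD f D * piD f D ∧
    ∀ (S : Finset ℕ) (c : ℕ → ℝ), (∀ m ∈ S, Squarefree m ∧ Nat.Coprime m f) →
      classNumber K * xiD f D * (Zk f S c (Q1 D)) ^ 2 ≤ ww K f *
        (2 * ∑ m₁ ∈ S, ∑ m₂ ∈ S, c m₁ * c m₂ * Uff m₁ m₂ f D)

/-- (CND) the conductor of a character which is trivial on the rational numbers. -/
def T_CND : Prop :=
  ∀ (K : Type) [Field K] [NumberField K], Module.finrank ℚ K = 2 → ∀ χ : RCC K, TrQ χ →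
    ∃ f : ℕ, 0 < f ∧ χ.f = Ideal.span {(f : 𝓞 K)}

/-! ### Part M (helper65): the first moment, class numbers -/

/-- (FMf) the first moment in mean square. -/
def T_FMf : Prop :=
  ∀ (P : Polynomial ℝ) (θ η ε : ℝ) (f : ℕ), Polynomial.X ^ 5 ∣ P → 0 < θ → θ < 1 / 4 → 0 < η →
    0 < ε → 0 < f → ∃ R₀ : ℕ, ∀ R : ℕ, R₀ ≤ R → ∃ Y₀ : ℝ, ∀ Y : ℝ, Y₀ ≤ Y →
      ∑ D ∈ (fmD Y).filter (fun D : ℕ => η * Y ≤ (D : ℝ)),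
        (ZDn P (Y ^ θ) (primorial R) f D - piD f D * zP P θ) ^ 2 ≤ ε * Y

/-- (HLR) the class number and the Euler product over the small primes. -/
def T_HLR : Prop :=
  ∀ η ε : ℝ, 0 < η → 0 < ε → ∃ R₀ : ℕ, ∀ R : ℕ, R₀ ≤ R → ∃ Y₀ : ℝ, ∀ Y : ℝ, Y₀ ≤ Y →
    ∀ (K : ℕ → Type) [∀ D, Field (K D)] [∀ D, NumberField (K D)],
      (∀ D ∈ fmD Y, Module.finrank ℚ (K D) = 2 ∧ discr (K D) = -(D : ℤ)) →
      ∑ D ∈ (fmD Y).filter (fun D : ℕ => η * Y ≤ (D : ℝ)),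
        ((classNumber (K D) : ℝ) / Real.sqrt D - LR R D / π) ^ 2 ≤ ε * Y

/-- (HSU) sums of class numbers. -/
def T_HSU : Prop :=
  ∃ C c Y₀ : ℝ, 0 < C ∧ 0 < c ∧ ∀ Y : ℝ, 1 ≤ Y →
    ∀ (K : ℕ → Type) [∀ D, Field (K D)] [∀ D, NumberField (K D)],
      (∀ D ∈ fmD Y, Module.finrank ℚ (K D) = 2 ∧ discr (K D) = -(D : ℤ)) →
      ∑ D ∈ fmD Y, (classNumber (K D) : ℝ) ≤ C * Y ^ (3 / 2 : ℝ) ∧
      ∑ D ∈ fmD Y, (classNumber (K D) : ℝ) ^ 2 ≤ C * Y ^ 2 ∧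
      (Y₀ ≤ Y → c * Y ^ (3 / 2 : ℝ) ≤ ∑ D ∈ fmD Y, (classNumber (K D) : ℝ))

/-! ### Part R (helper56): real fields, counting -/

/-- (NRF) the number of the characters of conductor `f`. -/
def T_NRF : Prop :=
  ∀ (f : ℕ) (K : Type) [Field K] [NumberField K], 0 < f → Module.finrank ℚ K = 2 →
    (RQ K f).Finite ∧ (nn K f : ℝ) ≤ 8 * classNumber K * ((f : ℝ) ^ 2 / Nat.totient f) ∧
    (rr K f : ℝ) ≤ 8 * rc K * ((f : ℝ) ^ 2 / Nat.totient f)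

/-- (RRL) few characters are real. -/
def T_RRL : Prop :=
  ∀ ε : ℝ, 0 < ε → ∃ Y₀ : ℝ, ∀ Y : ℝ, Y₀ ≤ Y →
    ∀ (K : ℕ → Type) [∀ D, Field (K D)] [∀ D, NumberField (K D)],
      (∀ D ∈ fmD Y, Module.finrank ℚ (K D) = 2 ∧ discr (K D) = -(D : ℤ)) →
      ∑ D ∈ fmD Y, (rc (K D) : ℝ) ≤ ε * Y ^ (3 / 2 : ℝ)

/-- (RSM) the class numbers of real quadratic fields are small on average. -/
def T_RSM : Prop :=
  ∃ C : ℝ, 0 < C ∧ ∀ Y : ℝ, 2 ≤ Y →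
    ∀ (K : ℤ → Type) [∀ d, Field (K d)] [∀ d, NumberField (K d)],
      (∀ d ∈ FZ Y, Module.finrank ℚ (K d) = 2 ∧ discr (K d) = d) →
      ∑ d ∈ (FZ Y).filter (fun d => 0 < d), (classNumber (K d) : ℝ) ≤
        C * Y ^ (3 / 2 : ℝ) / Real.log Y

/-! ### Part A (helper91): local means, second moment, assembly -/

/-- (SMf) the second moment over the enlarged family, with local weights. -/
def T_SMf : Prop :=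
  ∀ (G : ℝ → ℝ) (η : ℝ), 0 < η → ContDiff ℝ (⊤ : ℕ∞) G → (∀ u, u ∉ Icc η 1 → G u = 0) →
  ∀ (P : Polynomial ℝ) (N f : ℕ) (θ ε : ℝ) (lam : ℕ → ℤ → ℝ), Polynomial.X ^ 5 ∣ P → 1 ≤ N →
    2 ∣ N → Squarefree N → 0 < f → (∀ p, p.Prime → p ∣ f → p ∣ N) → 0 < θ → θ < 1 / 4 → 0 < ε →
    ∃ Y₀ : ℝ, ∀ Y : ℝ, Y₀ ≤ Y →
      |(∑' D : ℕ, open Classical in if gdN N D then G (D / Y) * (Lam N lam D *
          SDn P (Y ^ θ) N f D) else 0) -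
        Y * (∫ u in Ioi (0 : ℝ), G u) * ((∏ p ∈ N.primeFactors, (1 - 1 / (p : ℝ)) ^ 3 *
          ∑ τ ∈ ({-1, 0, 1} : Finset ℤ), lam p τ * pit f p τ * del p τ) *
          Sg N * Mt P (1 / (2 * θ)))| ≤ ε * Y

/-- (FCf) the number of the fundamental discriminants, with local weights. -/
def T_FCf : Prop :=
  ∀ (G : ℝ → ℝ) (η : ℝ), 0 < η → ContDiff ℝ (⊤ : ℕ∞) G → (∀ u, u ∉ Icc η 1 → G u = 0) →
  ∀ (N : ℕ) (lam : ℕ → ℤ → ℝ) (ε : ℝ), 1 ≤ N → 2 ∣ N → Squarefree N → 0 < ε →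
    ∃ Y₀ : ℝ, ∀ Y : ℝ, Y₀ ≤ Y →
      |(∑ D ∈ fmD Y, G (D / Y) * Lam N lam D) -
        Y * (∫ u in Ioi (0 : ℝ), G u) * ((∏ p ∈ N.primeFactors,
          ∑ τ ∈ ({-1, 0, 1} : Finset ℤ), lam p τ * del p τ) *
          ∏' p : Nat.Primes, if (p : ℕ) ∣ N then 1 else 1 - 1 / ((p : ℕ) : ℝ) ^ 2)| ≤ ε * Y

/-- (AF) the proportion for fixed conductor. -/
def T_AF : Prop :=
  ∀ (f : ℕ) (ε : ℝ), 0 < f → 0 < ε → ∃ Y₀ : ℝ, ∀ Y : ℝ, Y₀ ≤ Y →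
    ∀ (K : ℕ → Type) [∀ D, Field (K D)] [∀ D, NumberField (K D)],
      (∀ D ∈ fmD Y, Module.finrank ℚ (K D) = 2 ∧ discr (K D) = -(D : ℤ)) →
      19 / 27 * ∑ D ∈ fmD Y, (nn (K D) f : ℝ) - ε * Y ^ (3 / 2 : ℝ) ≤
        ∑ D ∈ fmD Y, (ww (K D) f : ℝ)

/-- the final theorem -/
def T_FIN2 : Prop :=
  ∀ ε : ℝ, 0 < ε → ∃ X₀ : ℝ, ∀ X : ℝ, X₀ ≤ X →
    ∀ (K : ℤ → Type) [∀ d, Field (K d)] [∀ d, NumberField (K d)],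
      (∀ d ∈ FZ X, Module.finrank ℚ (K d) = 2 ∧ discr (K d) = d) →
      (∀ d ∈ FZ X, (OX (K d) X).Finite) ∧
      (19 / 27 - ε) * ∑ d ∈ FZ X, ((OX (K d) X).ncard : ℝ) ≤
        ∑ d ∈ FZ X, ({χ : RCC (K d) | χ ∈ OX (K d) X ∧ NVc χ}.ncard : ℝ)

end Pool.Agent.H91.CF
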