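import Pool.Agent.H91.CF.TA
import Pool.Agent.H22.CN.CRR
import Pool.Agent.H31.CN.SMO

/-!
# (AF) the proportion for fixed conductor: bounds for the local weights
-/

set_option autoImplicit false

open MeasureTheory Set Filter NumberField
open scoped Real nonZeroDivisors

namespace Pool.Agent.H91.CF

open Pool.Agent.H31.CN Pool.Agent.H28.RC

theorem ch_mem (hTPR : T_TPR) {p : ℕ} (hp : p.Prime) (D : ℤ) :
    ch p D = -1 ∨ ch p D = 0 ∨ ch p D = 1 := by
  have h := (hTPR p D D hp (by rw [sub_self]; exact dvd_zero _)).2.2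
  simpa using h

theorem npt_pos {f p : ℕ} (hp : p.Prime) {τ : ℤ} (hτ : τ = -1 ∨ τ = 0 ∨ τ = 1) :
    1 ≤ npt f p τ := by
  have h2 : (2 : ℤ) ≤ p := by exact_mod_cast hp.two_le
  unfold npt
  split_ifs
  · omega
  · rcases hτ with h | h | h <;> rw [h] <;> omega

theorem pit_mem {f p : ℕ} (hp : p.Prime) {τ : ℤ} (hτ : τ = -1 ∨ τ = 0 ∨ τ = 1) :
    0 ≤ pit f p τ ∧ pit f p τ ≤ 1 := by
  unfold pit
  split_ifs
  · have h1 : (1 : ℝ) ≤ (npt f p τ : ℝ) := by exact_mod_cast npt_pos hp hτ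
    have h2 : 1 / (npt f p τ : ℝ) ≤ 1 := by
      rw [div_le_one (by linarith)]
      exact h1
    have h3 : 0 ≤ 1 / (npt f p τ : ℝ) := by positivity
    constructor <;> linarith
  · exact ⟨zero_le_one, le_rfl⟩

theorem one_sub_mem {p : ℕ} (hp : p.Prime) {τ : ℤ} (hτ : τ = -1 ∨ τ = 0 ∨ τ = 1) :
    1 / 2 ≤ 1 - (τ : ℝ) / p ∧ 1 - (τ : ℝ) / p ≤ 2 := by
  have h2 : (2 : ℝ) ≤ p := by exact_mod_cast hp.two_le
  have h3 : 1 / (p : ℝ) ≤ 1 / 2 := one_div_le_one_div_of_le (by norm_num) h2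
  have h4 : 0 < 1 / (p : ℝ) := by positivity
  have h5 : (τ : ℝ) / p = τ * (1 / p) := by ring
  rw [h5]
  rcases hτ with h | h | h <;> rw [h] <;> push_cast <;> constructor <;> linarith

theorem inv_mem {p : ℕ} (hp : p.Prime) {τ : ℤ} (hτ : τ = -1 ∨ τ = 0 ∨ τ = 1) :
    0 < (1 - (τ : ℝ) / p)⁻¹ ∧ (1 - (τ : ℝ) / p)⁻¹ ≤ 2 := by
  obtain ⟨h1, -⟩ := one_sub_mem hp hτ
  refine ⟨by positivity, ?_⟩
  rw [inv_le_comm₀ (by linarith) (by norm_num)]
  norm_num at h1 ⊢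
  exact h1

theorem xit_mem {f p : ℕ} (hp : p.Prime) {τ : ℤ} (hτ : τ = -1 ∨ τ = 0 ∨ τ = 1) :
    0 < xit f p τ ∧ xit f p τ ≤ (p : ℝ) ^ (f.factorization p) * 2 := by
  obtain ⟨h1, h2⟩ := one_sub_mem hp hτ
  have h3 : (1 : ℝ) ≤ (p : ℝ) ^ (f.factorization p) :=
    one_le_pow₀ (by exact_mod_cast hp.one_lt.le)
  unfold xit
  split_ifs
  · refine ⟨by positivity, ?_⟩
    exact mul_le_mul_of_nonneg_left h2 (by positivity)
  · exact ⟨one_pos, by linarith⟩

/-- an upper bound for the index factor -/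
noncomputable def Xi (f : ℕ) : ℝ := ∏ p ∈ f.primeFactors, (p : ℝ) ^ (f.factorization p) * 2

theorem Xi_pos (f : ℕ) : 0 < Xi f := by
  unfold Xi
  refine Finset.prod_pos fun p hp => ?_
  have : (0 : ℝ) < p := by exact_mod_cast (Nat.prime_of_mem_primeFactors hp).pos
  positivity

theorem xiD_mem (hTPR : T_TPR) (f : ℕ) (D : ℤ) : 0 < xiD f D ∧ xiD f D ≤ Xi f := by
  unfold xiD Xi
  constructor
  · exact Finset.prod_pos fun p hp =>
      (xit_mem (Nat.prime_of_mem_primeFactors hp) (ch_mem hTPR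
        (Nat.prime_of_mem_primeFactors hp) D)).1
  · refine Finset.prod_le_prod (fun p hp => ?_) fun p hp => ?_
    · exact (xit_mem (Nat.prime_of_mem_primeFactors hp) (ch_mem hTPR
        (Nat.prime_of_mem_primeFactors hp) D)).1.le
    · exact (xit_mem (Nat.prime_of_mem_primeFactors hp) (ch_mem hTPR
        (Nat.prime_of_mem_primeFactors hp) D)).2

theorem piD_mem (hTPR : T_TPR) (f : ℕ) (D : ℤ) : 0 ≤ piD f D ∧ piD f D ≤ 1 := by
  unfold piD
  constructor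
  · exact Finset.prod_nonneg fun p hp =>
      (pit_mem (Nat.prime_of_mem_primeFactors hp) (ch_mem hTPR
        (Nat.prime_of_mem_primeFactors hp) D)).1
  · refine Finset.prod_le_one (fun p hp => ?_) fun p hp => ?_
    · exact (pit_mem (Nat.prime_of_mem_primeFactors hp) (ch_mem hTPR
        (Nat.prime_of_mem_primeFactors hp) D)).1
    · exact (pit_mem (Nat.prime_of_mem_primeFactors hp) (ch_mem hTPR
        (Nat.prime_of_mem_primeFactors hp) D)).2

theorem LR_mem (hTPR : T_TPR) (R : ℕ) (D : ℤ) :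
    0 < LR R D ∧ LR R D ≤ 2 ^ (primorial R).primeFactors.card := by
  unfold LR
  constructor
  · exact Finset.prod_pos fun p hp =>
      (inv_mem (Nat.prime_of_mem_primeFactors hp) (ch_mem hTPR
        (Nat.prime_of_mem_primeFactors hp) D)).1
  · rw [← Finset.prod_const]
    refine Finset.prod_le_prod (fun p hp => ?_) fun p hp => ?_
    · exact (inv_mem (Nat.prime_of_mem_primeFactors hp) (ch_mem hTPR
        (Nat.prime_of_mem_primeFactors hp) D)).1.le
    · exact (inv_mem (Nat.prime_of_mem_primeFactors hp) (ch_mem hTPR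
        (Nat.prime_of_mem_primeFactors hp) D)).2

theorem mem_prim {R p : ℕ} : p ∈ (primorial R).primeFactors ↔ p.Prime ∧ p ≤ R := by
  rw [Nat.mem_primeFactors]
  constructor
  · rintro ⟨h1, h2, -⟩
    exact ⟨h1, h1.dvd_primorial_iff.1 h2⟩
  · rintro ⟨h1, h2⟩
    exact ⟨h1, h1.dvd_primorial_iff.2 h2, (primorial_pos R).ne'⟩

/-- the local weight for the class number and the index -/
noncomputable def lamA (R f p : ℕ) (τ : ℤ) : ℝ :=
  (if p ≤ R then (1 - (τ : ℝ) / p)⁻¹ else 1) * xit f p τ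

theorem lamA_pos {R f p : ℕ} (hp : p.Prime) {τ : ℤ} (hτ : τ = -1 ∨ τ = 0 ∨ τ = 1) :
    0 < lamA R f p τ := by
  unfold lamA
  refine mul_pos ?_ (xit_mem hp hτ).1
  split_ifs
  · exact (inv_mem hp hτ).1
  · exact one_pos

theorem prod_xit {N f : ℕ} (hN : N ≠ 0) (hfN : ∀ p, p.Prime → p ∣ f → p ∣ N) (hf : 0 < f)
    (F : ℕ → ℝ) (hF : ∀ p, p.Prime → ¬ p ∣ f → F p = 1) :
    ∏ p ∈ N.primeFactors, F p = ∏ p ∈ f.primeFactors, F p := by
  symm
  refine Finset.prod_subset (fun p hp => ?_) fun p hp hpf => ?_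
  · rw [Nat.mem_primeFactors] at hp ⊢
    exact ⟨hp.1, hfN p hp.1 hp.2.1, hN⟩
  · have hpp := Nat.prime_of_mem_primeFactors hp
    refine hF p hpp fun h => hpf ?_
    rw [Nat.mem_primeFactors]
    exact ⟨hpp, h, hf.ne'⟩

theorem Lam_eq {R R' f : ℕ} (hR : R ≤ R') (hf : 0 < f) (hfR : f ≤ R') (D : ℤ) :
    Lam (primorial R') (lamA R f) D = LR R D * xiD f D ∧
    Lam (primorial R') (fun p τ => lamA R f p τ * pit f p τ) D = LR R D * xiD f D * piD f D := by
  have hN : primorial R' ≠ 0 := (primorial_pos R').ne'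
  have hfN : ∀ p, p.Prime → p ∣ f → p ∣ primorial R' := fun p hp h =>
    hp.dvd_primorial_iff.2 ((Nat.le_of_dvd hf h).trans hfR)
  have h1 : ∏ p ∈ (primorial R').primeFactors, (if p ≤ R then (1 - (ch p D : ℝ) / p)⁻¹ else 1) =
      LR R D := by
    unfold LR
    rw [← Finset.prod_filter]
    refine Finset.prod_congr ?_ fun _ _ => rfl
    ext p
    rw [Finset.mem_filter, mem_prim, mem_prim]
    constructor
    · rintro ⟨⟨h1, -⟩, h2⟩
      exact ⟨h1, h2⟩
    · rintro ⟨h1, h2⟩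
      exact ⟨⟨h1, h2.trans hR⟩, h2⟩
  have h2 : ∏ p ∈ (primorial R').primeFactors, xit f p (ch p D) = xiD f D :=
    prod_xit hN hfN hf (fun p => xit f p (ch p D)) fun p _ h => by
      unfold xit
      rw [if_neg h]
  have h3 : ∏ p ∈ (primorial R').primeFactors, pit f p (ch p D) = piD f D :=
    prod_xit hN hfN hf (fun p => pit f p (ch p D)) fun p _ h => by
      unfold pit
      rw [if_neg h]
  constructor
  · unfold Lam lamA
    rw [Finset.prod_mul_distrib, h1, h2]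
  · unfold Lam lamA
    rw [Finset.prod_mul_distrib, Finset.prod_mul_distrib, h1, h2, h3]

/-- the tail of the product over the primes is close to one -/
theorem tail_near (ε : ℝ) (hε : 0 < ε) : ∃ R₀ : ℕ, ∀ R : ℕ, R₀ ≤ R →
    |(∏' p : Nat.Primes, if (p : ℕ) ∣ primorial R then (1 : ℝ) else
      1 - 1 / ((p : ℕ) : ℝ) ^ 2) - 1| ≤ ε := by
  obtain ⟨R₀, hR₀⟩ := exists_nat_gt (2 / Real.log (1 + ε))
  have hl : 0 < Real.log (1 + ε) := Real.log_pos (by linarith)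
  refine ⟨R₀, fun R hR => ?_⟩
  have h := Pool.Agent.H22.CN.tail_bound (f := fun p : Nat.Primes =>
    if (p : ℕ) ∣ primorial R then (1 : ℝ) else 1 - 1 / ((p : ℕ) : ℝ) ^ 2) (C := 1) zero_le_one R
    (fun p hp => if_pos (p.2.dvd_primorial_iff.2 hp)) (fun p hp => by
      have : ¬ (p : ℕ) ∣ primorial R := fun h => absurd (p.2.dvd_primorial_iff.1 h) (by omega)
      simp only [if_neg this]
      rw [sub_sub_cancel_left, abs_neg, one_mul, abs_of_nonneg (by positivity), one_div])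
  refine h.trans ?_
  have h1 : 1 * (2 / ((R : ℝ) + 1)) ≤ Real.log (1 + ε) := by
    rw [one_mul, div_le_iff₀ (by positivity)]
    have h2 : 2 / Real.log (1 + ε) ≤ R + 1 := by
      have : (R₀ : ℝ) ≤ R := by exact_mod_cast hR
      linarith
    rw [div_le_iff₀ hl] at h2
    linarith
  have h3 := Real.exp_le_exp.2 h1
  rw [Real.exp_log (by linarith)] at h3
  linarith

/-- the numerical core -/
theorem core_num {z T W X A S δ σ ρ κ ε₀ : ℝ} (hT : 0 < T) (hW : 0 ≤ W) (hX : 0 ≤ X)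
    (hA : |A - z * W| ≤ δ) (hS0 : 0 ≤ S) (hS : S ≤ ρ * T * W + σ) (hCS : A ^ 2 ≤ X * S)
    (hρ : ρ ≤ 1 + κ) (hκ : 0 ≤ κ) (hκ1 : κ ≤ 1) (hz : (19 / 27 - ε₀) * T ≤ z ^ 2)
    (hε₀ : 0 ≤ ε₀) (hε₀' : ε₀ ≤ 1 / 2) :
    19 / 27 * W - (ε₀ + κ) * W - 2 * (|z| / T) * δ - (z / T) ^ 2 * σ ≤ X := by
  have h1 : 2 * (z / T) * A ≤ X + (z / T) ^ 2 * S := by
    have h2 : (2 * (z / T) * A) ^ 2 ≤ (X + (z / T) ^ 2 * S) ^ 2 := by
      have h3 : (z / T) ^ 2 * A ^ 2 ≤ (z / T) ^ 2 * (X * S) :=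
        mul_le_mul_of_nonneg_left hCS (sq_nonneg _)
      nlinarith [sq_nonneg (X - (z / T) ^ 2 * S)]
    have h4 : 0 ≤ X + (z / T) ^ 2 * S := by positivity
    exact (abs_le_of_sq_le_sq' h2 h4).2
  have h2 : 2 * (z / T) * (z * W) - 2 * (|z| / T) * δ ≤ 2 * (z / T) * A := by
    have h3 : |2 * (z / T) * (A - z * W)| ≤ 2 * (|z| / T) * δ := by
      rw [abs_mul, abs_mul, abs_two, abs_div, abs_of_pos hT]
      exact mul_le_mul_of_nonneg_left hA (by positivity)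
    have h4 := (abs_le.1 h3).1
    have h5 : 2 * (z / T) * (A - z * W) = 2 * (z / T) * A - 2 * (z / T) * (z * W) := by ring
    linarith
  have h3 : (z / T) ^ 2 * S ≤ (z / T) ^ 2 * ((1 + κ) * T * W + σ) := by
    refine mul_le_mul_of_nonneg_left (hS.trans ?_) (sq_nonneg _)
    have : ρ * T * W ≤ (1 + κ) * T * W :=
      mul_le_mul_of_nonneg_right (mul_le_mul_of_nonneg_right hρ hT.le) hW
    linarith
  have h4 : (z / T) ^ 2 * ((1 + κ) * T * W + σ) = (1 + κ) * (z ^ 2 / T) * W +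
      (z / T) ^ 2 * σ := by
    field_simp
  have h5 : 2 * (z / T) * (z * W) = 2 * (z ^ 2 / T) * W := by
    field_simp
  have h6 : 19 / 27 - ε₀ ≤ z ^ 2 / T := by
    rw [le_div_iff₀ hT]
    exact hz
  have h7 : (19 / 27 - ε₀) * ((1 - κ) * W) ≤ z ^ 2 / T * ((1 - κ) * W) :=
    mul_le_mul_of_nonneg_right h6 (mul_nonneg (by linarith) hW)
  have h8 : 19 / 27 * W - (ε₀ + κ) * W ≤ (19 / 27 - ε₀) * ((1 - κ) * W) := by
    have h9 : 0 ≤ κ * W := mul_nonneg hκ hW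
    have h10 : 0 ≤ ε₀ * (κ * W) := mul_nonneg hε₀ h9
    nlinarith
  rw [h4] at h3
  rw [h5] at h2
  nlinarith

end Pool.Agent.H91.CF
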