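import Pool.Agent.H91.CF.AFa
import Pool.Agent.H31.CN.SM2

/-!
# (AF) the proportion for fixed conductor: smooth weights
-/

set_option autoImplicit false

open MeasureTheory Set Filter NumberField
open scoped Real nonZeroDivisors

namespace Pool.Agent.H91.CF

open Pool.Agent.H31.CN Pool.Agent.H28.RC

/-- sums of absolute values and mean squares -/
theorem sum_abs_le {s : Finset ℕ} {a : ℕ → ℝ} {Y e : ℝ} (hY : 0 < Y) (he : 0 ≤ e)
    (hc : (s.card : ℝ) ≤ Y) (h : ∑ D ∈ s, a D ^ 2 ≤ e ^ 2 * Y) :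
    ∑ D ∈ s, |a D| ≤ e * Y := by
  have h1 : (∑ D ∈ s, |a D|) ^ 2 ≤ (e * Y) ^ 2 := by
    calc (∑ D ∈ s, |a D|) ^ 2 ≤ s.card * ∑ D ∈ s, |a D| ^ 2 := sq_sum_le_card_mul_sum_sq
      _ = s.card * ∑ D ∈ s, a D ^ 2 := by simp only [sq_abs]
      _ ≤ Y * (e ^ 2 * Y) := mul_le_mul hc h (Finset.sum_nonneg fun D _ => sq_nonneg _) hY.le
      _ = (e * Y) ^ 2 := by ring
  exact (abs_le_of_sq_le_sq' h1 (by positivity)).2

theorem fmD_card (Y : ℝ) (hY : 0 ≤ Y) : ((fmD Y).card : ℝ) ≤ Y := by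
  classical
  unfold fmD
  refine (Nat.cast_le.2 (Finset.card_filter_le _ _)).trans ?_
  rw [Nat.card_Icc, Nat.add_sub_cancel]
  exact Nat.floor_le hY

theorem mem_fmD {Y : ℝ} {D : ℕ} (hD : D ∈ fmD Y) : 4 < D ∧ Fu D ∧ (D : ℝ) ≤ Y := by
  classical
  unfold fmD at hD
  rw [Finset.mem_filter, Finset.mem_Icc] at hD
  refine ⟨hD.2.1, hD.2.2, ?_⟩
  by_contra h
  rw [not_le] at h
  rcases le_or_gt 0 Y with h0 | h0
  · have := Nat.lt_of_floor_lt (lt_of_le_of_lt le_rfl ((Nat.floor_lt h0).2 h))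
    have h2 := (Nat.floor_lt h0).2 h
    omega
  · have : ⌊Y⌋₊ = 0 := Nat.floor_of_nonpos h0.le
    omega

theorem gdN_mod {N : ℕ} (hN1 : 1 ≤ N) (hN2 : 2 ∣ N) {D : ℕ} (h : gdN N D) :
    D % 4 = 0 ∨ D % 4 = 3 := by
  have := h 2 (Nat.mem_primeFactors.2 ⟨Nat.prime_two, hN2, by omega⟩)
  unfold gdp at this
  rw [if_pos rfl] at this
  omega

/-- the second moment is not negative -/
theorem SDn_nonneg (hUNF : T_UNFf) (P : Polynomial ℝ) (M : ℝ) {N f D : ℕ} (hf : 0 < f)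
    (hN1 : 1 ≤ N) (hN2 : 2 ∣ N) (hD : 0 < D) (h : gdN N D) : 0 ≤ SDn P M N f D := by
  classical
  have h1 := hUNF f D hf hD (gdN_mod hN1 hN2 h) (SDf M N f) (CDf P M N f D) (fun m hm => by
    unfold SDf at hm
    rw [Finset.mem_filter] at hm
    exact ⟨hm.2.1, hm.2.2.2⟩) Empty (fun i => i.elim) (fun i => i.elim) (fun i => i.elim)
  rw [Finset.univ_eq_empty, Finset.sum_empty] at h1
  exact h1

/-- the proportion for one field -/
noncomputable def xD (K : Type) [Field K] [NumberField K] (f D : ℕ) : ℝ :=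
  (ww K f : ℝ) / (classNumber K * xiD f D)

theorem xD_nonneg (hTPR : T_TPR) (K : Type) [Field K] [NumberField K] (f D : ℕ) :
    0 ≤ xD K f D := by
  unfold xD
  have := (xiD_mem hTPR f D).1
  positivity

open Classical in
theorem smooth (hPRO : T_PROf) (hUNF : T_UNFf) (hSM : T_SMf) (hFC : T_FCf) (hFM : T_FMf)
    (hOPT : T_OPT) (hCRR : T_CRR) (hCSF : T_CSF) (hTPR : T_TPR) (hFSQ : T_FSQ)
    (G : ℝ → ℝ) (η : ℝ) (hη : 0 < η) (hG : ContDiff ℝ (⊤ : ℕ∞) G)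
    (h : ∀ u, u ∉ Icc η 1 → G u = 0) (hG0 : ∀ u, 0 ≤ G u) (hG1 : ∀ u, G u ≤ 1) (R₁ f : ℕ)
    (hf : 0 < f) (ε : ℝ) (hε : 0 < ε) : ∃ Y₀ : ℝ, ∀ Y : ℝ, Y₀ ≤ Y →
    ∀ (K : ℕ → Type) [∀ D, Field (K D)] [∀ D, NumberField (K D)],
      (∀ D ∈ fmD Y, Module.finrank ℚ (K D) = 2 ∧ discr (K D) = -(D : ℤ)) →
      19 / 27 * (∑ D ∈ fmD Y, G (D / Y) * (LR R₁ D * xiD f D) * piD f D) - ε * Y ≤
        ∑ D ∈ fmD Y, G (D / Y) * (LR R₁ D * xiD f D) * xD (K D) f D := by
  set Λ : ℝ := 2 ^ (primorial R₁).primeFactors.card * Xi f with hΛ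
  have hΛ0 : 0 < Λ := mul_pos (by positivity) (Xi_pos f)
  have hLx : ∀ D : ℕ, 0 < LR R₁ D * xiD f D ∧ LR R₁ D * xiD f D ≤ Λ := fun D =>
    ⟨mul_pos (LR_mem hTPR R₁ D).1 (xiD_mem hTPR f D).1,
      mul_le_mul (LR_mem hTPR R₁ D).2 (xiD_mem hTPR f D).2 (xiD_mem hTPR f D).1.le
        (by positivity)⟩
  set κ : ℝ := min 1 (ε / (8 * (Λ + 1))) with hκ
  have hκ0 : 0 < κ := by positivity
  have hκ1 : κ ≤ 1 := min_le_left _ _
  set ε₀ : ℝ := min (1 / 2) (ε / (8 * (Λ + 1))) with hε₀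
  have hε₀0 : 0 < ε₀ := by positivity
  have hε₀1 : ε₀ ≤ 1 / 2 := min_le_left _ _
  obtain ⟨P, θ, hP, hθ, hθ', hT, hz⟩ := hOPT ε₀ hε₀0
  set T : ℝ := Mt P (1 / (2 * θ)) with hTdef
  set z : ℝ := zP P θ with hzdef
  have hz' : (19 / 27 - ε₀) * T ≤ z ^ 2 := hz
  set δ : ℝ := ε / (16 * (|z| / T + 1)) with hδ
  have hzT : 0 ≤ |z| / T := div_nonneg (abs_nonneg _) hT.le
  have hδ0 : 0 < δ := by positivity
  set σ : ℝ := ε / (8 * ((z / T) ^ 2 + 1)) with hσ
  have hσ0 : 0 < σ := by positivity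
  set ε₃ : ℝ := σ / (2 * T + 1) with hε₃
  have hε₃0 : 0 < ε₃ := by positivity
  set e₂ : ℝ := δ / Λ with he₂
  have he₂0 : 0 < e₂ := by positivity
  obtain ⟨Ra, hRa⟩ := hCRR (κ / 4) (by positivity)
  obtain ⟨Rb, hRb⟩ := tail_near (κ / 4) (by positivity)
  obtain ⟨Rc, hRc⟩ := hFM P θ η (e₂ ^ 2) f hP hθ hθ' hη (by positivity) hf
  set R : ℕ := max (max (max Ra Rb) (max Rc R₁)) (max f 2) with hR
  have hR1 : Ra ≤ R := ((le_max_left _ _).trans (le_max_left _ _)).trans (le_max_left _ _)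
  have hR2 : Rb ≤ R := ((le_max_right _ _).trans (le_max_left _ _)).trans (le_max_left _ _)
  have hR3 : Rc ≤ R := ((le_max_left _ _).trans (le_max_right _ _)).trans (le_max_left _ _)
  have hR4 : R₁ ≤ R := ((le_max_right _ _).trans (le_max_right _ _)).trans (le_max_left _ _)
  have hR5 : f ≤ R := (le_max_left _ _).trans (le_max_right _ _)
  have hR6 : 2 ≤ R := (le_max_right _ _).trans (le_max_right _ _)
  set N : ℕ := primorial R with hN
  have hN1 : 1 ≤ N := primorial_pos _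
  have hN2 : 2 ∣ N := prim_two hR6
  have hNs : Squarefree N := prim_sq _
  have hfN : ∀ p, p.Prime → p ∣ f → p ∣ N := fun p hp hpf =>
    hp.dvd_primorial_iff.2 ((Nat.le_of_dvd hf hpf).trans hR5)
  set U : ℝ := (∏ p ∈ N.primeFactors, (1 - 1 / (p : ℝ)) ^ 3) * Sg N with hU
  have hU1 : |U - 1| ≤ κ / 4 := (hRa R hR1).1
  set cN : ℝ := ∏' p : Nat.Primes, if (p : ℕ) ∣ N then (1 : ℝ) else
    1 - 1 / ((p : ℕ) : ℝ) ^ 2 with hcN
  have hcN1 : |cN - 1| ≤ κ / 4 := hRb R hR2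
  obtain ⟨Ya, hYa⟩ := hRc R hR3
  obtain ⟨Yb, hYb⟩ := hSM G η hη hG h P N f θ ε₃ (lamA R₁ f) hP hN1 hN2 hNs hf hfN hθ hθ' hε₃0
  obtain ⟨Yc, hYc⟩ := hFC G η hη hG h N (fun p τ => lamA R₁ f p τ * pit f p τ) ε₃ hN1 hN2 hNs
    hε₃0
  refine ⟨max (max 1 Ya) (max Yb Yc), fun Y hY K _ _ hK => ?_⟩
  have hY1 : 1 ≤ Y := ((le_max_left _ _).trans (le_max_left _ _)).trans hY
  have hY2 : Ya ≤ Y := ((le_max_right _ _).trans (le_max_left _ _)).trans hY
  have hY3 : Yb ≤ Y := ((le_max_left _ _).trans (le_max_right _ _)).trans hY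
  have hY4 : Yc ≤ Y := ((le_max_right _ _).trans (le_max_right _ _)).trans hY
  have hY0 : 0 < Y := by linarith
  set I : ℝ := ∫ u in Ioi (0 : ℝ), G u with hI
  have hI0 : 0 ≤ I := integral_nonneg fun u => hG0 u
  set Mμ : ℝ := ∏ p ∈ N.primeFactors,
    ∑ τ ∈ ({-1, 0, 1} : Finset ℤ), lamA R₁ f p τ * pit f p τ * del p τ with hMμ
  have hMμ0 : 0 ≤ Mμ := by
    refine Finset.prod_nonneg fun p hp => Finset.sum_nonneg fun τ hτ => ?_
    have hpp := Nat.prime_of_mem_primeFactors hp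
    have hτ' : τ = -1 ∨ τ = 0 ∨ τ = 1 := by simpa using hτ
    have hp1 : (1 : ℝ) ≤ p := by exact_mod_cast hpp.one_lt.le
    refine mul_nonneg (mul_nonneg (lamA_pos hpp hτ').le (pit_mem hpp hτ').1) ?_
    unfold del
    split_ifs
    · norm_num
    · exact div_nonneg (by linarith) (by positivity)
    · exact div_nonneg (by linarith) (by positivity)
  set M : ℝ := Y ^ θ with hM
  set w : ℕ → ℝ := fun D => G (D / Y) * (LR R₁ D * xiD f D) with hw
  have hw0 : ∀ D, 0 ≤ w D := fun D => mul_nonneg (hG0 _) (hLx D).1.le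
  have hwΛ : ∀ D, w D ≤ Λ := fun D => by
    calc w D ≤ 1 * Λ := mul_le_mul (hG1 _) (hLx D).2 (hLx D).1.le zero_le_one
      _ = Λ := one_mul _
  set Z : ℕ → ℝ := fun D => ZDn P M N f D with hZ
  set T' : ℕ → ℝ := fun D => SDn P M N f D with hT'
  set x : ℕ → ℝ := fun D => xD (K D) f D with hx
  have hfg : ∀ D ∈ fmD Y, gdN N D := fun D hD =>
    ((hFSQ N D hN1 hN2 (by have := (mem_fmD hD).1; omega)).1 (mem_fmD hD).2.1).1
  have hT'0 : ∀ D : ℕ, 0 < D → gdN N D → 0 ≤ T' D := fun D hD hg =>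
    SDn_nonneg hUNF P M hf hN1 hN2 hD hg
  have hx0 : ∀ D, 0 ≤ x D := fun D => xD_nonneg hTPR (K D) f D
  have hZx : ∀ D ∈ fmD Y, Z D ^ 2 ≤ x D * T' D := by
    intro D hD
    obtain ⟨h4, hFu, -⟩ := mem_fmD hD
    obtain ⟨-, -, hpro⟩ := hPRO D f (K D) h4 hFu hf (hK D hD).1 (hK D hD).2
    have h1 := hpro (SDf M N f) (CDf P M N f D) (fun m hm => by
      unfold SDf at hm
      rw [Finset.mem_filter] at hm
      exact ⟨hm.2.1, hm.2.2.2⟩)
    have h2 : (0 : ℝ) < classNumber (K D) * xiD f D := by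
      refine mul_pos ?_ (xiD_mem hTPR f D).1
      have : 0 < classNumber (K D) := by
        unfold NumberField.classNumber
        exact Fintype.card_pos
      exact_mod_cast this
    show Z D ^ 2 ≤ (ww (K D) f : ℝ) / (classNumber (K D) * xiD f D) * T' D
    rw [div_mul_eq_mul_div, le_div_iff₀ h2, mul_comm]
    exact h1
  have hcs := hCSF (fmD Y) w x Z T' (fun D _ => hw0 D) (fun D _ => hx0 D)
    (fun D hD => hT'0 D (by have := (mem_fmD hD).1; omega) (hfg D hD)) hZx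
  -- the second moment
  set S₂ := ∑' D : ℕ, if gdN N D then G (D / Y) * (Lam N (lamA R₁ f) D * T' D) else 0 with hS₂
  have hLam : ∀ D : ℕ, Lam N (lamA R₁ f) D = LR R₁ D * xiD f D := fun D =>
    (Lam_eq hR4 hf hR5 D).1
  have hterm : ∀ D : ℕ, 0 ≤ if gdN N D then G (D / Y) * (Lam N (lamA R₁ f) D * T' D) else 0 := by
    intro D
    split_ifs with hg
    · rw [hLam]
      refine mul_nonneg (hG0 _) (mul_nonneg (hLx D).1.le (hT'0 D ?_ hg))
      rcases Nat.eq_zero_or_pos D with h0 | h0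
      · subst h0
        have := hg 2 (Nat.mem_primeFactors.2 ⟨Nat.prime_two, hN2, by omega⟩)
        unfold gdp at this
        simp at this
      · exact h0
    · exact le_rfl
  have hle : ∑ D ∈ fmD Y, w D * T' D ≤ S₂ := by
    have hsum : Summable (fun D : ℕ => if gdN N D then
        G (D / Y) * (Lam N (lamA R₁ f) D * T' D) else 0) := by
      refine summable_of_ne_finset_zero (s := Finset.range (⌊Y⌋₊ + 1)) fun D hD => ?_
      have : G ((D : ℕ) / Y) = 0 := by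
        apply h
        rw [mem_Icc, not_and, not_le]
        intro _
        rw [lt_div_iff₀ hY0, one_mul]
        rw [Finset.mem_range, not_lt] at hD
        exact (Nat.lt_floor_add_one Y).trans_le (by exact_mod_cast hD)
      rw [this, zero_mul, ite_self]
    refine (le_of_eq ?_).trans (hsum.sum_le_tsum (fmD Y) (fun D _ => hterm D))
    refine Finset.sum_congr rfl fun D hD => ?_
    rw [if_pos (hfg D hD), hLam D]
    simp only [hw]
    ring
  have hS₂0 : 0 ≤ S₂ := tsum_nonneg hterm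
  -- the three averages
  set W : ℝ := (∑ D ∈ fmD Y, w D * piD f D) / Y with hW
  set A : ℝ := (∑ D ∈ fmD Y, w D * Z D) / Y with hA
  set X : ℝ := (∑ D ∈ fmD Y, w D * x D) / Y with hX
  have hW0 : 0 ≤ W := div_nonneg (Finset.sum_nonneg fun D _ =>
    mul_nonneg (hw0 D) (piD_mem hTPR f D).1) hY0.le
  have hX0 : 0 ≤ X := div_nonneg (Finset.sum_nonneg fun D _ => mul_nonneg (hw0 D) (hx0 D)) hY0.le
  have hWΛ : W ≤ Λ := by
    rw [hW, div_le_iff₀ hY0]
    calc ∑ D ∈ fmD Y, w D * piD f D ≤ ∑ D ∈ fmD Y, Λ := by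
          refine Finset.sum_le_sum fun D _ => ?_
          calc w D * piD f D ≤ Λ * 1 := mul_le_mul (hwΛ D) (piD_mem hTPR f D).2
                (piD_mem hTPR f D).1 hΛ0.le
            _ = Λ := mul_one _
      _ = (fmD Y).card * Λ := by rw [Finset.sum_const, nsmul_eq_mul]
      _ ≤ Y * Λ := mul_le_mul_of_nonneg_right (fmD_card Y hY0.le) hΛ0.le
      _ = Λ * Y := mul_comm _ _
  have hWI : I * (Mμ * cN) ≤ W + ε₃ := by
    have h1 := hYc Y hY4
    have h2 : ∑ D ∈ fmD Y, G (D / Y) * Lam N (fun p τ => lamA R₁ f p τ * pit f p τ) D =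
        W * Y := by
      rw [hW, div_mul_cancel₀ _ hY0.ne']
      refine Finset.sum_congr rfl fun D _ => ?_
      rw [(Lam_eq hR4 hf hR5 D).2]
      simp only [hw]
      ring
    rw [h2] at h1
    have h3 := (abs_le.1 h1).1
    have h4 : Y * I * (Mμ * cN) ≤ (W + ε₃) * Y := by
      have : Y * I * ((∏ p ∈ N.primeFactors, ∑ τ ∈ ({-1, 0, 1} : Finset ℤ),
          lamA R₁ f p τ * pit f p τ * del p τ) * cN) = Y * I * (Mμ * cN) := rfl
      linarith
    have h5 : Y * I * (Mμ * cN) = I * (Mμ * cN) * Y := by ring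
    rw [h5] at h4
    exact le_of_mul_le_mul_right h4 hY0
  set ρ : ℝ := (1 + κ / 4) / cN with hρ
  have hcN2 : 1 - κ / 4 ≤ cN := by linarith [(abs_le.1 hcN1).1]
  have hcN0 : 0 < cN := by linarith
  have hρ0 : 0 ≤ ρ := by positivity
  have hρ1 : ρ ≤ 1 + κ := by
    rw [hρ, div_le_iff₀ hcN0]
    calc 1 + κ / 4 ≤ (1 + κ) * (1 - κ / 4) := by nlinarith
      _ ≤ (1 + κ) * cN := mul_le_mul_of_nonneg_left hcN2 (by linarith)
  have hSle : S₂ / Y ≤ ρ * T * W + σ := by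
    have h1 := (abs_le.1 (hYb Y hY3)).2
    have h2 : (∏ p ∈ N.primeFactors, (1 - 1 / (p : ℝ)) ^ 3 *
          ∑ τ ∈ ({-1, 0, 1} : Finset ℤ), lamA R₁ f p τ * pit f p τ * del p τ) *
          Sg N * Mt P (1 / (2 * θ)) = U * Mμ * T := by
      rw [Finset.prod_mul_distrib]
      simp only [hU, hMμ, hTdef]
      ring
    have h3 : S₂ ≤ Y * I * (U * Mμ * T) + ε₃ * Y := by
      rw [← h2]
      have h9 : S₂ - Y * I * ((∏ p ∈ N.primeFactors, (1 - 1 / (p : ℝ)) ^ 3 *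
          ∑ τ ∈ ({-1, 0, 1} : Finset ℤ), lamA R₁ f p τ * pit f p τ * del p τ) *
          Sg N * Mt P (1 / (2 * θ))) ≤ ε₃ * Y := h1
      linarith
    rw [div_le_iff₀ hY0]
    have hU2 : U ≤ 1 + κ / 4 := by linarith [(abs_le.1 hU1).2]
    have hIM : 0 ≤ I * Mμ := mul_nonneg hI0 hMμ0
    have h4 : I * Mμ ≤ (W + ε₃) / cN := by
      rw [le_div_iff₀ hcN0]
      linarith
    have h5 : I * Mμ * U ≤ (W + ε₃) * ρ := by
      calc I * Mμ * U ≤ I * Mμ * (1 + κ / 4) := mul_le_mul_of_nonneg_left hU2 hIM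
        _ ≤ (W + ε₃) / cN * (1 + κ / 4) := mul_le_mul_of_nonneg_right h4 (by positivity)
        _ = (W + ε₃) * ρ := by rw [hρ]; ring
    have h6 : I * Mμ * U * T ≤ (W + ε₃) * ρ * T := mul_le_mul_of_nonneg_right h5 hT.le
    have h7 : ρ * T * ε₃ + ε₃ ≤ σ := by
      have h8 : ρ * T * ε₃ ≤ 2 * T * ε₃ := by
        have : ρ ≤ 2 := by linarith
        exact mul_le_mul_of_nonneg_right (mul_le_mul_of_nonneg_right this hT.le) hε₃0.le
      have h9 : (2 * T + 1) * ε₃ = σ := by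
        rw [hε₃]
        field_simp
      linarith
    have h8 : I * (U * Mμ * T) + ε₃ ≤ ρ * T * W + σ := by
      calc I * (U * Mμ * T) + ε₃ = I * Mμ * U * T + ε₃ := by ring
        _ ≤ (W + ε₃) * ρ * T + ε₃ := by linarith
        _ = ρ * T * W + (ρ * T * ε₃ + ε₃) := by ring
        _ ≤ ρ * T * W + σ := by linarith
    calc S₂ ≤ Y * I * (U * Mμ * T) + ε₃ * Y := h3
      _ = (I * (U * Mμ * T) + ε₃) * Y := by ring
      _ ≤ (ρ * T * W + σ) * Y := mul_le_mul_of_nonneg_right h8 hY0.le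
  -- the first moment
  have hAW : |A - z * W| ≤ δ := by
    have h1 := hYa Y hY2
    have hsub : ∀ D ∈ fmD Y, D ∉ (fmD Y).filter (fun D : ℕ => η * Y ≤ (D : ℝ)) → w D = 0 := by
      intro D hD hD'
      have : G (D / Y) = 0 := by
        by_contra hh
        exact hD' (Finset.mem_filter.2 ⟨hD, (G_supp h hY0 hh).1⟩)
      simp only [hw, this, zero_mul]
    have h2 : A - z * W = (∑ D ∈ (fmD Y).filter (fun D : ℕ => η * Y ≤ (D : ℝ)),
        w D * (Z D - piD f D * z)) / Y := by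
      have h3 : ∑ D ∈ (fmD Y).filter (fun D : ℕ => η * Y ≤ (D : ℝ)),
          w D * (Z D - piD f D * z) = ∑ D ∈ fmD Y, w D * (Z D - piD f D * z) :=
        Finset.sum_subset (Finset.filter_subset _ _) (fun D hD hD' => by
          rw [hsub D hD hD', zero_mul])
      rw [h3, hA, hW, ← mul_div_assoc, ← sub_div, Finset.mul_sum, ← Finset.sum_sub_distrib]
      congr 1
      refine Finset.sum_congr rfl fun D _ => ?_
      ring
    rw [h2, abs_div, abs_of_pos hY0, div_le_iff₀ hY0]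
    have hcard : (((fmD Y).filter (fun D : ℕ => η * Y ≤ (D : ℝ))).card : ℝ) ≤ Y :=
      (Nat.cast_le.2 (Finset.card_filter_le _ _)).trans (fmD_card Y hY0.le)
    have h4 := sum_abs_le hY0 he₂0.le hcard h1
    calc |∑ D ∈ (fmD Y).filter (fun D : ℕ => η * Y ≤ (D : ℝ)), w D * (Z D - piD f D * z)|
        ≤ ∑ D ∈ (fmD Y).filter (fun D : ℕ => η * Y ≤ (D : ℝ)), Λ * |Z D - piD f D * z| := by
          refine (Finset.abs_sum_le_sum_abs _ _).trans (Finset.sum_le_sum fun D _ => ?_)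
          rw [abs_mul, abs_of_nonneg (hw0 D)]
          exact mul_le_mul_of_nonneg_right (hwΛ D) (abs_nonneg _)
      _ = Λ * ∑ D ∈ (fmD Y).filter (fun D : ℕ => η * Y ≤ (D : ℝ)), |Z D - piD f D * z| := by
          rw [← Finset.mul_sum]
      _ ≤ Λ * (e₂ * Y) := mul_le_mul_of_nonneg_left h4 hΛ0.le
      _ = δ * Y := by
          rw [he₂]
          field_simp
  have hCS : A ^ 2 ≤ X * (S₂ / Y) := by
    rw [hA, hX, div_pow, div_mul_div_comm, ← pow_two]
    refine div_le_div_of_nonneg_right ?_ (by positivity)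
    refine hcs.trans (mul_le_mul_of_nonneg_left hle ?_)
    exact Finset.sum_nonneg fun D _ => mul_nonneg (hw0 D) (hx0 D)
  have hfin := core_num hT hW0 hX0 hAW (div_nonneg hS₂0 hY0.le) hSle hCS hρ1 hκ0.le hκ1 hz'
    hε₀0.le hε₀1
  have hb1 : (ε₀ + κ) * W ≤ ε / 4 := by
    have h1 : ε₀ + κ ≤ ε / (8 * (Λ + 1)) + ε / (8 * (Λ + 1)) :=
      add_le_add (min_le_right _ _) (min_le_right _ _)
    calc (ε₀ + κ) * W ≤ (ε / (8 * (Λ + 1)) + ε / (8 * (Λ + 1))) * (Λ + 1) :=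
          mul_le_mul h1 (by linarith) hW0 (by positivity)
      _ = ε / 4 := by
          field_simp
          ring
  have hb2 : 2 * (|z| / T) * δ ≤ ε / 8 := by
    have e : 2 * (|z| / T) * δ = ε / 8 * ((|z| / T) / (|z| / T + 1)) := by
      rw [hδ]
      field_simp
      ring
    rw [e]
    refine mul_le_of_le_one_right (by positivity) ?_
    rw [div_le_one (by positivity)]
    linarith
  have hb3 : (z / T) ^ 2 * σ ≤ ε / 8 := by
    have e : (z / T) ^ 2 * σ = ε / 8 * ((z / T) ^ 2 / ((z / T) ^ 2 + 1)) := by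
      rw [hσ]
      field_simp
    rw [e]
    refine mul_le_of_le_one_right (by positivity) ?_
    rw [div_le_one (by positivity)]
    linarith
  have hX' : 19 / 27 * W - ε ≤ X := by linarith
  have e1 : ∑ D ∈ fmD Y, w D * piD f D = W * Y := by
    rw [hW, div_mul_cancel₀ _ hY0.ne']
  have e2 : ∑ D ∈ fmD Y, w D * x D = X * Y := by
    rw [hX, div_mul_cancel₀ _ hY0.ne']
  show 19 / 27 * (∑ D ∈ fmD Y, w D * piD f D) - ε * Y ≤ ∑ D ∈ fmD Y, w D * x D
  rw [e1, e2]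
  have := mul_le_mul_of_nonneg_right hX' hY0.le
  linarith

end Pool.Agent.H91.CF
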