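import Pool.Agent.H91.CF.AFb

/-!
# (AF) the proportion for fixed conductor
-/

set_option autoImplicit false

open MeasureTheory Set Filter NumberField
open scoped Real nonZeroDivisors

namespace Pool.Agent.H91.CF

open Pool.Agent.H31.CN Pool.Agent.H28.RC

theorem mem_fmD_iff {Y : ℝ} (_hY : 0 ≤ Y) {D : ℕ} :
    D ∈ fmD Y ↔ 4 < D ∧ Fu D ∧ (D : ℝ) ≤ Y := by
  classical
  refine ⟨fun h => mem_fmD h, fun h => ?_⟩
  unfold fmD
  rw [Finset.mem_filter, Finset.mem_Icc]
  exact ⟨⟨by omega, Nat.le_floor h.2.2⟩, h.1, h.2.1⟩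

theorem classNumber_pos' (K : Type) [Field K] [NumberField K] : (0 : ℝ) < classNumber K := by
  have : 0 < classNumber K := by
    unfold NumberField.classNumber
    exact Fintype.card_pos
  exact_mod_cast this

/-- the discriminants near the ends of the interval -/
theorem ends (hHSU : T_HSU) : ∃ C : ℝ, 0 < C ∧ ∀ η : ℝ, 0 < η → η < 1 / 4 →
    ∃ Y₀ : ℝ, ∀ Y : ℝ, Y₀ ≤ Y →
    ∀ (K : ℕ → Type) [∀ D, Field (K D)] [∀ D, NumberField (K D)],
      (∀ D ∈ fmD Y, Module.finrank ℚ (K D) = 2 ∧ discr (K D) = -(D : ℤ)) →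
      ∑ D ∈ (fmD Y).filter (fun D : ℕ => (D : ℝ) < 2 * η * Y ∨ (1 - η) * Y < (D : ℝ)),
        (classNumber (K D) : ℝ) ≤ C * Real.sqrt η * Y ^ (3 / 2 : ℝ) := by
  classical
  obtain ⟨C, c, Y₁, hC, hc, hh⟩ := hHSU
  refine ⟨4 * C + 2 * Real.sqrt C, by positivity, fun η hη hη' => ⟨max 1 (1 / η), fun Y hY K _ _ hK => ?_⟩⟩
  have hY1 : 1 ≤ Y := (le_max_left _ _).trans hY
  have hY2 : 1 / η ≤ Y := (le_max_right _ _).trans hY
  have hY0 : 0 < Y := by linarith
  have hηY : 1 ≤ η * Y := by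
    rw [div_le_iff₀ hη] at hY2
    linarith
  have hsub : (fmD Y).filter (fun D : ℕ => (D : ℝ) < 2 * η * Y ∨ (1 - η) * Y < (D : ℝ)) ⊆
      fmD (2 * η * Y) ∪ (fmD Y).filter (fun D : ℕ => (1 - η) * Y < (D : ℝ)) := by
    intro D hD
    rw [Finset.mem_filter] at hD
    rw [Finset.mem_union, Finset.mem_filter]
    rcases hD.2 with h1 | h1
    · left
      rw [mem_fmD_iff (by positivity)]
      exact ⟨(mem_fmD hD.1).1, (mem_fmD hD.1).2.1, h1.le⟩
    · right
      exact ⟨hD.1, h1⟩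
  have hsm : fmD (2 * η * Y) ⊆ fmD Y := by
    intro D hD
    have h1 := mem_fmD hD
    rw [mem_fmD_iff hY0.le]
    refine ⟨h1.1, h1.2.1, h1.2.2.trans ?_⟩
    nlinarith
  have h1 : ∑ D ∈ fmD (2 * η * Y), (classNumber (K D) : ℝ) ≤ C * (2 * η * Y) ^ (3 / 2 : ℝ) :=
    (hh (2 * η * Y) (by linarith) K (fun D hD => hK D (hsm hD))).1
  have h2 : ∑ D ∈ (fmD Y).filter (fun D : ℕ => (1 - η) * Y < (D : ℝ)),
      (classNumber (K D) : ℝ) ≤ Real.sqrt (2 * η * Y) * Real.sqrt (C * Y ^ 2) := by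
    set s := (fmD Y).filter (fun D : ℕ => (1 - η) * Y < (D : ℝ)) with hs
    have hcard : (s.card : ℝ) ≤ 2 * η * Y := by
      have h3 : s ⊆ Finset.Ioc (⌊(1 - η) * Y⌋₊) ⌊Y⌋₊ := by
        intro D hD
        rw [hs, Finset.mem_filter] at hD
        rw [Finset.mem_Ioc]
        refine ⟨(Nat.floor_lt ?_).2 hD.2, Nat.le_floor (mem_fmD hD.1).2.2⟩
        exact mul_nonneg (by linarith) hY0.le
      have h4 : (s.card : ℝ) ≤ ((⌊Y⌋₊ - ⌊(1 - η) * Y⌋₊ : ℕ) : ℝ) := by
        refine Nat.cast_le.2 ((Finset.card_le_card h3).trans ?_)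
        rw [Nat.card_Ioc]
      have h5 : ⌊(1 - η) * Y⌋₊ ≤ ⌊Y⌋₊ := Nat.floor_le_floor (by nlinarith)
      rw [Nat.cast_sub h5] at h4
      have h6 : (⌊Y⌋₊ : ℝ) ≤ Y := Nat.floor_le hY0.le
      have h7 : (1 - η) * Y < ⌊(1 - η) * Y⌋₊ + 1 := Nat.lt_floor_add_one _
      linarith
    have h3 : (∑ D ∈ s, (classNumber (K D) : ℝ)) ^ 2 ≤
        (Real.sqrt (2 * η * Y) * Real.sqrt (C * Y ^ 2)) ^ 2 := by
      rw [mul_pow, Real.sq_sqrt (by positivity), Real.sq_sqrt (by positivity)]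
      calc (∑ D ∈ s, (classNumber (K D) : ℝ)) ^ 2
          ≤ s.card * ∑ D ∈ s, (classNumber (K D) : ℝ) ^ 2 := sq_sum_le_card_mul_sum_sq
        _ ≤ (2 * η * Y) * (C * Y ^ 2) := by
          refine mul_le_mul hcard ?_ (Finset.sum_nonneg fun D _ => sq_nonneg _) (by positivity)
          refine le_trans ?_ (hh Y hY1 K hK).2.1
          exact Finset.sum_le_sum_of_subset_of_nonneg (Finset.filter_subset _ _)
            (fun D _ _ => sq_nonneg _)
    exact (abs_le_of_sq_le_sq' h3 (by positivity)).2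
  have hYr : Y ^ (3 / 2 : ℝ) = Y * Real.sqrt Y := by
    rw [Real.sqrt_eq_rpow, ← Real.rpow_one_add' hY0.le (by norm_num)]
    norm_num
  have hr : ∀ x : ℝ, 0 < x → x ^ (3 / 2 : ℝ) = x * Real.sqrt x := by
    intro x hx
    rw [Real.sqrt_eq_rpow, ← Real.rpow_one_add' hx.le (by norm_num)]
    norm_num
  have hsη : Real.sqrt η ≤ 1 := by
    rw [Real.sqrt_le_one]
    linarith
  have hsη0 : 0 ≤ Real.sqrt η := Real.sqrt_nonneg _
  have hs2 : Real.sqrt (2 * η) ≤ 2 * Real.sqrt η := by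
    rw [Real.sqrt_mul (by norm_num)]
    refine mul_le_mul_of_nonneg_right ?_ hsη0
    rw [Real.sqrt_le_left (by norm_num)]
    norm_num
  have e1 : (2 * η * Y) ^ (3 / 2 : ℝ) ≤ 4 * Real.sqrt η * Y ^ (3 / 2 : ℝ) := by
    rw [hr (2 * η * Y) (by positivity), hYr, Real.sqrt_mul (by positivity)]
    have h3 : 2 * η * (Real.sqrt (2 * η)) ≤ 4 * Real.sqrt η := by
      have : 2 * η ≤ 1 := by linarith
      calc 2 * η * Real.sqrt (2 * η) ≤ 1 * (2 * Real.sqrt η) :=
            mul_le_mul this hs2 (Real.sqrt_nonneg _) zero_le_one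
        _ ≤ 4 * Real.sqrt η := by linarith
    calc 2 * η * Y * (Real.sqrt (2 * η) * Real.sqrt Y)
        = 2 * η * Real.sqrt (2 * η) * (Y * Real.sqrt Y) := by ring
      _ ≤ 4 * Real.sqrt η * (Y * Real.sqrt Y) :=
          mul_le_mul_of_nonneg_right h3 (by positivity)
  have e2 : Real.sqrt (2 * η * Y) * Real.sqrt (C * Y ^ 2) ≤
      2 * Real.sqrt C * Real.sqrt η * Y ^ (3 / 2 : ℝ) := by
    rw [hYr, Real.sqrt_mul (by positivity : (0 : ℝ) ≤ 2 * η), Real.sqrt_mul hC.le,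
      Real.sqrt_sq hY0.le]
    calc Real.sqrt (2 * η) * Real.sqrt Y * (Real.sqrt C * Y)
        = Real.sqrt (2 * η) * (Real.sqrt C * (Y * Real.sqrt Y)) := by ring
      _ ≤ 2 * Real.sqrt η * (Real.sqrt C * (Y * Real.sqrt Y)) :=
          mul_le_mul_of_nonneg_right hs2 (by positivity)
      _ = _ := by ring
  calc ∑ D ∈ (fmD Y).filter (fun D : ℕ => (D : ℝ) < 2 * η * Y ∨ (1 - η) * Y < (D : ℝ)),
        (classNumber (K D) : ℝ)
      ≤ ∑ D ∈ fmD (2 * η * Y) ∪ (fmD Y).filter (fun D : ℕ => (1 - η) * Y < (D : ℝ)),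
        (classNumber (K D) : ℝ) :=
        Finset.sum_le_sum_of_subset_of_nonneg hsub (fun D _ _ => Nat.cast_nonneg _)
    _ ≤ ∑ D ∈ fmD (2 * η * Y), (classNumber (K D) : ℝ) +
        ∑ D ∈ (fmD Y).filter (fun D : ℕ => (1 - η) * Y < (D : ℝ)),
          (classNumber (K D) : ℝ) := by
        rw [← Finset.sum_union_inter]
        exact le_add_of_nonneg_right (Finset.sum_nonneg fun D _ => Nat.cast_nonneg _)
    _ ≤ C * (2 * η * Y) ^ (3 / 2 : ℝ) + Real.sqrt (2 * η * Y) * Real.sqrt (C * Y ^ 2) :=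
        add_le_add h1 h2
    _ ≤ C * (4 * Real.sqrt η * Y ^ (3 / 2 : ℝ)) +
        2 * Real.sqrt C * Real.sqrt η * Y ^ (3 / 2 : ℝ) :=
        add_le_add (mul_le_mul_of_nonneg_left e1 hC.le) e2
    _ = (4 * C + 2 * Real.sqrt C) * Real.sqrt η * Y ^ (3 / 2 : ℝ) := by ring

theorem pf_AF (hPRO : T_PROf) (hUNF : T_UNFf) (hSM : T_SMf) (hFC : T_FCf) (hFM : T_FMf)
    (hHLR : T_HLR) (hHSU : T_HSU) (hOPT : T_OPT) (hCRR : T_CRR) (hCSF : T_CSF) (hGSM : T_GSM)
    (hTPR : T_TPR) (hFSQ : T_FSQ) : T_AF := by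
  classical
  intro f ε hf hε
  obtain ⟨C, hC, hends⟩ := ends hHSU
  have hXi := Xi_pos f
  -- the choice of the parameters
  set s : ℝ := min (1 / 4) (ε / (4 * (C * Xi f + 1))) with hs
  have hs0 : 0 < s := by positivity
  set η : ℝ := s ^ 2 with hη
  have hη0 : 0 < η := by positivity
  have hη1 : η < 1 / 4 := by
    have : s ≤ 1 / 4 := min_le_left _ _
    rw [hη]
    nlinarith
  have hsη : Real.sqrt η = s := Real.sqrt_sq hs0.le
  obtain ⟨G, hG, hGs, hG0, hGle, hGeq⟩ := hGSM η hη0 hη1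
  have hG1 : ∀ u, G u ≤ 1 := by
    intro u
    by_cases hu : u ∈ Icc η 1
    · refine (hGle u (by linarith [hu.1])).trans ?_
      rw [Real.sqrt_le_one]
      exact hu.2
    · rw [hGs u hu]
      exact zero_le_one
  set e₁ : ℝ := ε / (8 * (Xi f + 1)) with he₁
  have he₁0 : 0 < e₁ := by positivity
  obtain ⟨R₁, hR₁⟩ := hHLR η (e₁ ^ 2) hη0 (by positivity)
  obtain ⟨Ya, hYa⟩ := hR₁ R₁ le_rfl
  obtain ⟨Yb, hYb⟩ := smooth hPRO hUNF hSM hFC hFM hOPT hCRR hCSF hTPR hFSQ G η hη0 hG hGs hG0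
    hG1 R₁ f hf (ε / 4) (by positivity)
  obtain ⟨Yc, hYc⟩ := hends η hη0 hη1
  refine ⟨max (max 1 Ya) (max Yb Yc), fun Y hY K _ _ hK => ?_⟩
  have hY1 : 1 ≤ Y := ((le_max_left _ _).trans (le_max_left _ _)).trans hY
  have hY2 : Ya ≤ Y := ((le_max_right _ _).trans (le_max_left _ _)).trans hY
  have hY3 : Yb ≤ Y := ((le_max_left _ _).trans (le_max_right _ _)).trans hY
  have hY4 : Yc ≤ Y := ((le_max_right _ _).trans (le_max_right _ _)).trans hY
  have hY0 : 0 < Y := by linarith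
  have hsY : 0 < Real.sqrt Y := Real.sqrt_pos.2 hY0
  have hYr : Y ^ (3 / 2 : ℝ) = Real.sqrt Y * Y := by
    rw [Real.sqrt_eq_rpow, ← Real.rpow_add_one' hY0.le (by norm_num)]
    norm_num
  -- notation
  set h : ℕ → ℝ := fun D => (classNumber (K D) : ℝ) with hh
  have hh0 : ∀ D, 0 < h D := fun D => classNumber_pos' (K D)
  have hxi := fun D : ℕ => xiD_mem hTPR f D
  have hpi := fun D : ℕ => piD_mem hTPR f D
  have hpro : ∀ D ∈ fmD Y, (nn (K D) f : ℝ) = h D * xiD f D * piD f D ∧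
      (ww (K D) f : ℝ) ≤ nn (K D) f := by
    intro D hD
    obtain ⟨h4, hFu, -⟩ := mem_fmD hD
    obtain ⟨hfin, hnn, -⟩ := hPRO D f (K D) h4 hFu hf (hK D hD).1 (hK D hD).2
    refine ⟨hnn, Nat.cast_le.2 ?_⟩
    unfold ww nn
    exact Set.ncard_le_ncard (fun χ hχ => hχ.1) hfin
  have hwx : ∀ D ∈ fmD Y, (ww (K D) f : ℝ) = h D * xiD f D * xD (K D) f D := by
    intro D _
    unfold xD
    have : h D * xiD f D ≠ 0 := (mul_pos (hh0 D) (hxi D).1).ne'
    show (ww (K D) f : ℝ) = h D * xiD f D * ((ww (K D) f : ℝ) / (h D * xiD f D))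
    rw [← mul_div_assoc, mul_div_cancel_left₀ _ this]
  have hx1 : ∀ D ∈ fmD Y, xD (K D) f D ≤ 1 := by
    intro D hD
    have h1 := (hpro D hD).2
    rw [(hpro D hD).1, hwx D hD] at h1
    have h2 : 0 < h D * xiD f D := mul_pos (hh0 D) (hxi D).1
    have h3 := le_of_mul_le_mul_left h1 h2
    exact h3.trans (hpi D).2
  -- comparison with the Euler product
  have hcmp : ∀ y : ℕ → ℝ, (∀ D ∈ fmD Y, 0 ≤ y D ∧ y D ≤ 1) →
      |Real.sqrt Y * ∑ D ∈ fmD Y, G (D / Y) * (h D / Real.sqrt D) * xiD f D * y D -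
        Real.sqrt Y * ((1 / π) * ∑ D ∈ fmD Y, G (D / Y) * (LR R₁ D * xiD f D) * y D)| ≤
        ε / 8 * Y ^ (3 / 2 : ℝ) := by
    intro y hy
    have h1 := hYa Y hY2 K hK
    have hcard : (((fmD Y).filter (fun D : ℕ => η * Y ≤ (D : ℝ))).card : ℝ) ≤ Y :=
      (Nat.cast_le.2 (Finset.card_filter_le _ _)).trans (fmD_card Y hY0.le)
    have h2 := sum_abs_le hY0 he₁0.le hcard h1
    rw [← mul_sub, abs_mul, abs_of_pos hsY]
    have h3 : |∑ D ∈ fmD Y, G (D / Y) * (h D / Real.sqrt D) * xiD f D * y D -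
        (1 / π) * ∑ D ∈ fmD Y, G (D / Y) * (LR R₁ D * xiD f D) * y D| ≤ Xi f * (e₁ * Y) := by
      rw [Finset.mul_sum, ← Finset.sum_sub_distrib]
      calc |∑ D ∈ fmD Y, (G (D / Y) * (h D / Real.sqrt D) * xiD f D * y D -
            1 / π * (G (D / Y) * (LR R₁ D * xiD f D) * y D))|
          = |∑ D ∈ (fmD Y).filter (fun D : ℕ => η * Y ≤ (D : ℝ)),
              (G (D / Y) * (h D / Real.sqrt D) * xiD f D * y D -
            1 / π * (G (D / Y) * (LR R₁ D * xiD f D) * y D))| := by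
            congr 1
            symm
            refine Finset.sum_subset (Finset.filter_subset _ _) (fun D hD hD' => ?_)
            have : G (D / Y) = 0 := by
              by_contra hne
              exact hD' (Finset.mem_filter.2 ⟨hD, (G_supp hGs hY0 hne).1⟩)
            rw [this]
            ring
        _ ≤ ∑ D ∈ (fmD Y).filter (fun D : ℕ => η * Y ≤ (D : ℝ)),
              Xi f * |h D / Real.sqrt D - LR R₁ D / π| := by
            refine (Finset.abs_sum_le_sum_abs _ _).trans (Finset.sum_le_sum fun D hD => ?_)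
            have hD' := (Finset.mem_filter.1 hD).1
            have e : G (D / Y) * (h D / Real.sqrt D) * xiD f D * y D -
                1 / π * (G (D / Y) * (LR R₁ D * xiD f D) * y D) =
                (G (D / Y) * xiD f D * y D) * (h D / Real.sqrt D - LR R₁ D / π) := by ring
            rw [e, abs_mul]
            refine mul_le_mul_of_nonneg_right ?_ (abs_nonneg _)
            rw [abs_of_nonneg (mul_nonneg (mul_nonneg (hG0 _) (hxi D).1.le) (hy D hD').1)]
            calc G (D / Y) * xiD f D * y D ≤ 1 * Xi f * 1 :=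
                  mul_le_mul (mul_le_mul (hG1 _) (hxi D).2 (hxi D).1.le zero_le_one)
                    (hy D hD').2 (hy D hD').1 (by positivity)
              _ = Xi f := by ring
        _ = Xi f * ∑ D ∈ (fmD Y).filter (fun D : ℕ => η * Y ≤ (D : ℝ)),
              |h D / Real.sqrt D - LR R₁ D / π| := by rw [Finset.mul_sum]
        _ ≤ Xi f * (e₁ * Y) := mul_le_mul_of_nonneg_left h2 hXi.le
    have h4 : Xi f * e₁ ≤ ε / 8 := by
      have e : Xi f * e₁ = ε / 8 * (Xi f / (Xi f + 1)) := by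
        rw [he₁]
        field_simp
      rw [e]
      refine mul_le_of_le_one_right (by positivity) ?_
      rw [div_le_one (by positivity)]
      linarith
    calc _ ≤ Real.sqrt Y * (Xi f * (e₁ * Y)) := mul_le_mul_of_nonneg_left h3 hsY.le
      _ = (Xi f * e₁) * (Real.sqrt Y * Y) := by ring
      _ ≤ ε / 8 * (Real.sqrt Y * Y) := mul_le_mul_of_nonneg_right h4 (by positivity)
      _ = ε / 8 * Y ^ (3 / 2 : ℝ) := by rw [hYr]
  -- the smooth weight and the square root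
  have hroot : ∀ D ∈ fmD Y, Real.sqrt Y * (G (D / Y) * (h D / Real.sqrt D)) =
      G (D / Y) / Real.sqrt (D / Y) * h D := by
    intro D hD
    have hD0 : (0 : ℝ) < D := by
      have := (mem_fmD hD).1
      exact_mod_cast (by omega : 0 < D)
    have h1 : Real.sqrt (D / Y) = Real.sqrt D / Real.sqrt Y := Real.sqrt_div' _ hY0.le
    have h2 : 0 < Real.sqrt D := Real.sqrt_pos.2 hD0
    rw [h1]
    field_simp
  have hle1 : ∀ D ∈ fmD Y, G (D / Y) / Real.sqrt (D / Y) ≤ 1 := by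
    intro D hD
    have hD0 : (0 : ℝ) < D := by
      have := (mem_fmD hD).1
      exact_mod_cast (by omega : 0 < D)
    have h1 : 0 < Real.sqrt (D / Y) := Real.sqrt_pos.2 (by positivity)
    rw [div_le_one h1]
    exact hGle _ (by positivity)
  -- the lower bound
  have hlow : Real.sqrt Y * ∑ D ∈ fmD Y, G (D / Y) * (h D / Real.sqrt D) * xiD f D *
      xD (K D) f D ≤ ∑ D ∈ fmD Y, (ww (K D) f : ℝ) := by
    rw [Finset.mul_sum]
    refine Finset.sum_le_sum fun D hD => ?_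
    rw [hwx D hD]
    have e : Real.sqrt Y * (G (D / Y) * (h D / Real.sqrt D) * xiD f D * xD (K D) f D) =
        Real.sqrt Y * (G (D / Y) * (h D / Real.sqrt D)) * (xiD f D * xD (K D) f D) := by ring
    rw [e, hroot D hD]
    have h1 : 0 ≤ h D * (xiD f D * xD (K D) f D) :=
      mul_nonneg (hh0 D).le (mul_nonneg (hxi D).1.le (xD_nonneg hTPR (K D) f D))
    calc G (D / Y) / Real.sqrt (D / Y) * h D * (xiD f D * xD (K D) f D)
        = G (D / Y) / Real.sqrt (D / Y) * (h D * (xiD f D * xD (K D) f D)) := by ring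
      _ ≤ 1 * (h D * (xiD f D * xD (K D) f D)) := mul_le_mul_of_nonneg_right (hle1 D hD) h1
      _ = _ := by ring
  -- the upper bound
  have hup : ∑ D ∈ fmD Y, (nn (K D) f : ℝ) ≤
      Real.sqrt Y * ∑ D ∈ fmD Y, G (D / Y) * (h D / Real.sqrt D) * xiD f D * piD f D +
        ε / 4 * Y ^ (3 / 2 : ℝ) := by
    have h1 : ∀ D ∈ fmD Y, (nn (K D) f : ℝ) ≤
        Real.sqrt Y * (G (D / Y) * (h D / Real.sqrt D) * xiD f D * piD f D) +
        if (D : ℝ) < 2 * η * Y ∨ (1 - η) * Y < (D : ℝ) then Xi f * h D else 0 := by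
      intro D hD
      rw [(hpro D hD).1]
      have e : Real.sqrt Y * (G (D / Y) * (h D / Real.sqrt D) * xiD f D * piD f D) =
          Real.sqrt Y * (G (D / Y) * (h D / Real.sqrt D)) * (xiD f D * piD f D) := by ring
      rw [e, hroot D hD]
      have hD0 : (0 : ℝ) < D := by
        have := (mem_fmD hD).1
        exact_mod_cast (by omega : 0 < D)
      have hxp : 0 ≤ xiD f D * piD f D := mul_nonneg (hxi D).1.le (hpi D).1
      by_cases hc : (D : ℝ) < 2 * η * Y ∨ (1 - η) * Y < (D : ℝ)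
      · rw [if_pos hc]
        have h2 : 0 ≤ G (D / Y) / Real.sqrt (D / Y) * h D * (xiD f D * piD f D) :=
          mul_nonneg (mul_nonneg (div_nonneg (hG0 _) (Real.sqrt_nonneg _)) (hh0 D).le) hxp
        have h3 : h D * xiD f D * piD f D ≤ Xi f * h D := by
          calc h D * xiD f D * piD f D ≤ h D * Xi f * 1 :=
                mul_le_mul (mul_le_mul_of_nonneg_left (hxi D).2 (hh0 D).le) (hpi D).2 (hpi D).1
                  (mul_nonneg (hh0 D).le hXi.le)
            _ = Xi f * h D := by ring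
        linarith
      · rw [if_neg hc, add_zero]
        rw [not_or, not_lt, not_lt] at hc
        have h2 : G (D / Y) = Real.sqrt (D / Y) := by
          refine hGeq _ ?_ ?_
          · rw [le_div_iff₀ hY0]
            exact hc.1
          · rw [div_le_iff₀ hY0]
            exact hc.2
        have h3 : 0 < Real.sqrt (D / Y) := Real.sqrt_pos.2 (by positivity)
        rw [h2, div_self h3.ne', one_mul]
        exact le_of_eq (by ring)
    refine (Finset.sum_le_sum h1).trans ?_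
    rw [Finset.sum_add_distrib, ← Finset.mul_sum, ← Finset.sum_filter, ← Finset.mul_sum]
    refine add_le_add le_rfl ?_
    have h2 := hYc Y hY4 K hK
    rw [hsη] at h2
    calc Xi f * ∑ D ∈ (fmD Y).filter (fun D : ℕ => (D : ℝ) < 2 * η * Y ∨
          (1 - η) * Y < (D : ℝ)), h D ≤ Xi f * (C * s * Y ^ (3 / 2 : ℝ)) :=
          mul_le_mul_of_nonneg_left h2 hXi.le
      _ = C * Xi f * s * Y ^ (3 / 2 : ℝ) := by ring
      _ ≤ ε / 4 * Y ^ (3 / 2 : ℝ) := by
          refine mul_le_mul_of_nonneg_right ?_ (by positivity)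
          have h3 : s ≤ ε / (4 * (C * Xi f + 1)) := min_le_right _ _
          calc C * Xi f * s ≤ C * Xi f * (ε / (4 * (C * Xi f + 1))) :=
                mul_le_mul_of_nonneg_left h3 (by positivity)
            _ = ε / 4 * (C * Xi f / (C * Xi f + 1)) := by field_simp
            _ ≤ ε / 4 := by
                refine mul_le_of_le_one_right (by positivity) ?_
                rw [div_le_one (by positivity)]
                linarith
  have hsm := hYb Y hY3 K hK
  have hc1 := hcmp (fun D => piD f D) (fun D _ => hpi D)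
  have hc2 := hcmp (fun D => xD (K D) f D) (fun D hD => ⟨xD_nonneg hTPR (K D) f D, hx1 D hD⟩)
  set W := ∑ D ∈ fmD Y, G (D / Y) * (LR R₁ D * xiD f D) * piD f D with hW
  set X := ∑ D ∈ fmD Y, G (D / Y) * (LR R₁ D * xiD f D) * xD (K D) f D with hX
  have h5 : Real.sqrt Y * (1 / π * (19 / 27 * W)) - ε / 4 * Y ^ (3 / 2 : ℝ) ≤
      Real.sqrt Y * (1 / π * X) := by
    have h6 : Real.sqrt Y * (1 / π * (19 / 27 * W - ε / 4 * Y)) ≤
        Real.sqrt Y * (1 / π * X) :=
      mul_le_mul_of_nonneg_left (mul_le_mul_of_nonneg_left hsm (by positivity)) hsY.le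
    have h7 : Real.sqrt Y * (1 / π * (ε / 4 * Y)) ≤ ε / 4 * Y ^ (3 / 2 : ℝ) := by
      rw [hYr]
      have h8 : 1 / π ≤ 1 := by
        rw [div_le_one Real.pi_pos]
        linarith [Real.pi_gt_three]
      calc Real.sqrt Y * (1 / π * (ε / 4 * Y)) = 1 / π * (ε / 4 * (Real.sqrt Y * Y)) := by ring
        _ ≤ 1 * (ε / 4 * (Real.sqrt Y * Y)) :=
            mul_le_mul_of_nonneg_right h8 (by positivity)
        _ = _ := one_mul _
    have h8 : Real.sqrt Y * (1 / π * (19 / 27 * W - ε / 4 * Y)) =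
        Real.sqrt Y * (1 / π * (19 / 27 * W)) - Real.sqrt Y * (1 / π * (ε / 4 * Y)) := by ring
    linarith
  have h9 := (abs_le.1 hc1).2
  have h10 := (abs_le.1 hc2).1
  have h11 : Real.sqrt Y * (1 / π * (19 / 27 * W)) = 19 / 27 * (Real.sqrt Y * (1 / π * W)) := by
    ring
  have hYp : 0 ≤ Y ^ (3 / 2 : ℝ) := by positivity
  nlinarith

end Pool.Agent.H91.CF
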