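import Pool.Agent.H91.CF.AFa
import Pool.Agent.H65.CF.Asm7

/-!
# Bridge to the class number results
-/

set_option autoImplicit false

open MeasureTheory Set Filter NumberField
open scoped Real nonZeroDivisors

namespace Pool.Agent.H91.CF

open Pool.Agent.H31.CN

theorem ch_br (p D : ℕ) : Pool.Agent.H65.CF.ch p D = ch p (D : ℤ) := by
  unfold Pool.Agent.H65.CF.ch ch
  by_cases h : p = 2
  · rw [if_pos h, if_pos h]
    by_cases h1 : D % 8 = 7
    · rw [if_pos h1, if_pos (by omega)]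
    · rw [if_neg h1, if_neg (show ¬ ((D : ℤ) % 8 = 7) by omega)]
      by_cases h2 : D % 8 = 3
      · rw [if_pos h2, if_pos (by omega)]
      · rw [if_neg h2, if_neg (by omega)]
  · rw [if_neg h, if_neg h]

theorem Fd_br (D : ℕ) : Pool.Agent.H65.CF.Fd D ↔ Fu D := by
  unfold Pool.Agent.H65.CF.Fd Fu
  constructor
  · rintro (h | ⟨m, rfl, h1, h2⟩)
    · exact Or.inl h
    · right
      have e : 4 * m / 4 = m := by omega
      rw [e]
      exact ⟨Dvd.intro _ rfl, h1, h2⟩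
  · rintro (h | ⟨⟨m, rfl⟩, h1, h2⟩)
    · exact Or.inl h
    · right
      have e : 4 * m / 4 = m := by omega
      rw [e] at h1 h2
      exact ⟨m, rfl, h1, h2⟩

theorem fd_br (Y : ℝ) : Pool.Agent.H65.CF.fd Y = fmD Y := by
  classical
  unfold Pool.Agent.H65.CF.fd fmD
  ext D
  simp only [Finset.mem_filter, Finset.mem_Icc, Fd_br]
  constructor
  · rintro ⟨⟨h1, h2⟩, h3⟩
    exact ⟨⟨by omega, h2⟩, by omega, h3⟩
  · rintro ⟨⟨h1, h2⟩, h3, h4⟩
    exact ⟨⟨by omega, h2⟩, h4⟩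

theorem LR_br (R D : ℕ) : Pool.Agent.H65.CF.LR R D = LR R (D : ℤ) := by
  unfold Pool.Agent.H65.CF.LR LR
  refine Finset.prod_congr ?_ fun p _ => by rw [ch_br]
  ext p
  rw [mem_prim, Finset.mem_filter, Finset.mem_Icc]
  constructor
  · rintro ⟨⟨-, h1⟩, h2⟩
    exact ⟨h2, h1⟩
  · rintro ⟨h1, h2⟩
    exact ⟨⟨h1.one_lt.le, h2⟩, h1⟩

theorem b_HLR : T_HLR := by
  intro η ε _ hε
  obtain ⟨R₀, h⟩ := Pool.Agent.H65.CF.Asm.b_HLR ε hε
  refine ⟨R₀, fun R hR => ?_⟩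
  obtain ⟨Y₀, h1⟩ := h R hR
  refine ⟨Y₀, fun Y hY K _ _ hK => ?_⟩
  have h2 := h1 Y hY K (by rw [fd_br]; exact hK)
  rw [fd_br] at h2
  refine le_trans ?_ h2
  simp only [LR_br]
  exact Finset.sum_le_sum_of_subset_of_nonneg (Finset.filter_subset _ _)
    (fun D _ _ => sq_nonneg _)

theorem b_HSU : T_HSU := by
  obtain ⟨C, hC, h1⟩ := Pool.Agent.H65.CF.Asm.b_HUP
  obtain ⟨c, Y₀, hc, h2⟩ := Pool.Agent.H65.CF.Asm.b_HLO
  refine ⟨C, c, Y₀, hC, hc, fun Y hY K _ _ hK => ?_⟩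
  have h3 := h1 Y hY K (by rw [fd_br]; exact hK)
  rw [fd_br] at h3
  refine ⟨h3.2, h3.1, fun hY0 => ?_⟩
  have h4 := h2 Y hY0 K (by rw [fd_br]; exact hK)
  rw [fd_br] at h4
  exact h4

end Pool.Agent.H91.CF
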