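import Pool.Agent.H31.CN.T6
import Pool.Agent.H28.RC.Defs

/-!
# All orthogonal characters of degree two: shared definitions
-/

set_option autoImplicit false

open MeasureTheory Set Filter NumberField
open scoped Real nonZeroDivisors

namespace Pool.Agent.H91.CF

open Pool.Agent.H31.CN Pool.Agent.H28.RC

/-! ### Discriminants and types -/

/-- `-D` is a fundamental discriminant -/
def Fu (D : ℕ) : Prop :=
  (D % 4 = 3 ∧ Squarefree D) ∨ (4 ∣ D ∧ Squarefree (D / 4) ∧ ((D / 4) % 4 = 1 ∨ (D / 4) % 4 = 2))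

/-- `d` is a fundamental discriminant (of either sign) -/
def FuZ (d : ℤ) : Prop :=
  (d % 4 = 1 ∧ Squarefree d ∧ d ≠ 1) ∨
    (4 ∣ d ∧ Squarefree (d / 4) ∧ ((d / 4) % 4 = 2 ∨ (d / 4) % 4 = 3))

open Classical in
/-- the fundamental discriminants `-D` with `4 < D ≤ X` -/
noncomputable def fmD (X : ℝ) : Finset ℕ := (Finset.Icc 1 ⌊X⌋₊).filter (fun D => 4 < D ∧ Fu D)

/-- the type of `p`: `1`, `-1` or `0` according as `p` splits, is inert or ramified in the field of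
discriminant `-Δ` -/
def ch (p : ℕ) (Δ : ℤ) : ℤ :=
  if p = 2 then (if Δ % 8 = 7 then 1 else if Δ % 8 = 3 then -1 else 0)
    else (nrt p 1 0 Δ : ℤ) - 1

/-- the local condition of the enlarged family -/
def gdp (p : ℕ) (Δ : ℤ) : Prop :=
  if p = 2 then (Δ % 4 = 3 ∨ Δ % 16 = 4 ∨ Δ % 16 = 8) else ¬ ((p : ℤ) ^ 2 ∣ Δ)

/-- the enlarged family -/
def gdN (N : ℕ) (Δ : ℤ) : Prop := ∀ p ∈ N.primeFactors, gdp p Δ

/-- the density of the type `τ` at `p` -/
noncomputable def del (p : ℕ) (τ : ℤ) : ℝ :=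
  if p = 2 then 1 / 8 else if τ = 0 then ((p : ℝ) - 1) / (p : ℝ) ^ 2 else
    ((p : ℝ) - 1) / (2 * p)

/-! ### The conductor -/

/-- the squarefree kernel of `f` -/
def rd (f : ℕ) : ℕ := ∏ p ∈ f.primeFactors, p

/-- `f` divided by its squarefree kernel -/
def f1 (f : ℕ) : ℕ := f / rd f

/-- the order of the kernel at `p`, as a function of the type `τ` of `p` -/
def npt (f p : ℕ) (τ : ℤ) : ℤ := if p ^ 2 ∣ f then p else p - τ

/-- the order of the kernel at `p ∣ f` -/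
def npD (f p : ℕ) (D : ℤ) : ℤ := npt f p (ch p D)

/-- the number of unit lines modulo `p ∥ f` for a form -/
def npQ (f p : ℕ) (Q : QF) : ℤ := if p ^ 2 ∣ f then p else p + 1 - prt p Q

/-- the local proportion of the primitive characters at type `τ` -/
noncomputable def pit (f p : ℕ) (τ : ℤ) : ℝ := if p ∣ f then 1 - 1 / (npt f p τ : ℝ) else 1

/-- the proportion of the primitive characters -/
noncomputable def piD (f : ℕ) (D : ℤ) : ℝ := ∏ p ∈ f.primeFactors, pit f p (ch p D)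

/-- the index factor at type `τ` -/
noncomputable def xit (f p : ℕ) (τ : ℤ) : ℝ :=
  if p ∣ f then (p : ℝ) ^ (f.factorization p) * (1 - (τ : ℝ) / p) else 1

/-- the class number of conductor `f` is `xiD f D` times the class number -/
noncomputable def xiD (f : ℕ) (D : ℤ) : ℝ := ∏ p ∈ f.primeFactors, xit f p (ch p D)

/-- a local weight function of the types at the primes dividing `N` -/
noncomputable def Lam (N : ℕ) (lam : ℕ → ℤ → ℝ) (D : ℤ) : ℝ :=
  ∏ p ∈ N.primeFactors, lam p (ch p D)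

/-- the Euler product of the residue over the primes up to `R` -/
noncomputable def LR (R : ℕ) (D : ℤ) : ℝ :=
  ∏ p ∈ (primorial R).primeFactors, (1 - (ch p D : ℝ) / p)⁻¹

/-! ### The kernel -/

/-- the determinant of two vectors -/
def dtm (v v' : ℤ × ℤ) : ℤ := v.1 * v'.2 - v.2 * v'.1

open Classical in
/-- the local kernel at `p ∣ f` -/
noncomputable def kp (f p : ℕ) (Q : QF) (v v' : ℤ × ℤ) : ℝ :=
  if (p : ℤ) ∣ val Q v ∨ (p : ℤ) ∣ val Q v' then 0 else
    (if (p : ℤ) ^ (f.factorization p) ∣ dtm v v' then 1 else 0) -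
      (if (p : ℤ) ^ (f.factorization p - 1) ∣ dtm v v' then 1 else 0) / (npQ f p Q : ℝ)

/-- the kernel of the projection to the primitive characters of conductor `f` -/
noncomputable def kern (f : ℕ) (Q : QF) (v v' : ℤ × ℤ) : ℝ :=
  ∏ p ∈ f.primeFactors, kp f p Q v v'

/-- the mollified weight of a vector, conductor `f` -/
noncomputable def om (S : Finset ℕ) (c : ℕ → ℝ) (f : ℕ) (Q : QF) (v : ℤ × ℤ) : ℝ :=
  (∑ m ∈ S, c m * Vk (val Q v / (m * f * Real.sqrt (dsc Q))) * nu m Q v) / Real.sqrt (val Q v)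

/-- the mollified central value of the form, projected to the primitive characters -/
noncomputable def Zk (f : ℕ) (S : Finset ℕ) (c : ℕ → ℝ) (Q : QF) : ℝ :=
  ∑' v : ℤ × ℤ, om S c f Q v * kern f Q (1, 0) v

/-- the contribution of a form to the second moment -/
noncomputable def SQ (f : ℕ) (S : Finset ℕ) (c : ℕ → ℝ) (Q : QF) : ℝ :=
  ∑' x : (ℤ × ℤ) × (ℤ × ℤ), om S c f Q x.1 * om S c f Q x.2 * kern f Q x.1 x.2

/-- the principal form of discriminant `-D` -/
def Q1 (D : ℕ) : QF := if D % 4 = 3 then (1, 1, ((D : ℤ) + 1) / 4) else (1, 0, (D : ℤ) / 4)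

/-! ### The unfolded second moment -/

open Classical in
/-- central values of the forms of level `g`, for a divisor `d` of `g` -/
noncomputable def Fgd (g d : ℕ) (Δ : ℝ) (Q : QF) : ℝ :=
  ∑ j ∈ (Finset.range d).filter (fun j : ℕ => IsCoprime (val Q ((j : ℤ), 1)) (d : ℤ)),
    zf ((d : ℝ) ^ 2 * Q.1) ((d : ℝ) * ((g / d : ℕ) : ℝ) * (Q.2.1 + 2 * Q.1 * j))
      ((g : ℝ) ^ 2 * Δ)

/-- the unfolded sum for a weight, at level `Δ` -/
noncomputable def USg (g d n m₁ m₂ : ℕ) (w : ℕ → ℕ → ℤ → ℤ → ℝ) (Δ : ℕ) : ℝ :=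
  US Δ (fun Q e => Vk ((e : ℝ) ^ 2 * Q.1 / ((n : ℝ) * m₁ * m₂ * Real.sqrt Δ)) /
    Real.sqrt ((e : ℝ) ^ 2 * Q.1) * w e Q.1.toNat Q.2.1 Q.2.2 *
      Nw m₁ m₂ Q.1.toNat Q.2.1 Q.2.2 e) (Fgd g d Δ)

/-- the coefficient of the divisor `d` of `rd f` -/
noncomputable def cfd (f d : ℕ) (D : ℤ) : ℝ :=
  (∏ p ∈ d.primeFactors, -(1 / (npD f p D : ℝ))) *
    ∏ p ∈ (rd f / d).primeFactors, (1 - 1 / (npD f p D : ℝ))

open Classical in
/-- the unfolded second moment, conductor `f`, discriminant `-D` -/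
noncomputable def Uff (m₁ m₂ f D : ℕ) : ℝ :=
  ∑ d ∈ (rd f).divisors, cfd f d D *
    USg (rd f) d (rd f) m₁ m₂ (fun e A _ _ => if Nat.Coprime (e * A) f then 1 else 0)
      (f1 f ^ 2 * D)

/-! ### The mollifier -/

/-- the part of `N` prime to `f` -/
def nf (N f : ℕ) : ℕ := N / rd f

/-- the mollifier coefficients at the small primes -/
noncomputable def anf (N f n : ℕ) (D : ℤ) : ℝ :=
  ∏ p ∈ (nf N f).primeFactors, if p ∣ n then -1 else 1 + (ch p D : ℝ) / p

/-- the mollifier coefficients -/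
noncomputable def CDf (P : Polynomial ℝ) (M : ℝ) (N f : ℕ) (D : ℤ) (m : ℕ) : ℝ :=
  anf N f (Nat.gcd m N) D * cm P M N (m / Nat.gcd m N)

open Classical in
/-- the support of the mollifier -/
noncomputable def SDf (M : ℝ) (N f : ℕ) : Finset ℕ :=
  (Finset.Icc 1 (N * ⌊M⌋₊)).filter
    (fun m => Squarefree m ∧ ((m / Nat.gcd m N : ℕ) : ℝ) ≤ M ∧ Nat.Coprime m f)

/-- the second moment, unfolded -/
noncomputable def SDn (P : Polynomial ℝ) (M : ℝ) (N f D : ℕ) : ℝ :=
  2 * ∑ m₁ ∈ SDf M N f, ∑ m₂ ∈ SDf M N f, CDf P M N f D m₁ * CDf P M N f D m₂ * Uff m₁ m₂ f D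

/-- the first moment -/
noncomputable def ZDn (P : Polynomial ℝ) (M : ℝ) (N f D : ℕ) : ℝ :=
  Zk f (SDf M N f) (CDf P M N f D) (Q1 D)

/-- the value of the first moment -/
noncomputable def zP (P : Polynomial ℝ) (θ : ℝ) : ℝ :=
  P.eval 1 + 1 / (2 * θ) * P.derivative.eval 1

/-! ### Characters -/

section
variable {K : Type} [Field K] [NumberField K]

/-- the character is trivial on the rational numbers -/
def TrQ (χ : RCC K) : Prop :=
  ∀ n : ℕ, 1 ≤ n → Ideal.span {(n : 𝓞 K)} ⊔ χ.f = ⊤ → χ.ψ (Ideal.span {(n : 𝓞 K)}) = 1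

/-- the character is not real -/
def NRe (χ : RCC K) : Prop := ∃ I : Ideal (𝓞 K), χ.ψ I ^ 2 ≠ 0 ∧ χ.ψ I ^ 2 ≠ 1

/-- the `L`-function has an entire continuation which does not vanish at `1/2` -/
def NVc (χ : RCC K) : Prop :=
  ∃ Λ : ℂ → ℂ, Differentiable ℂ Λ ∧ (∀ s : ℂ, 1 < s.re → Λ s = Lc χ s) ∧ Λ (1 / 2) ≠ 0

end

/-- the orthogonal and real characters of conductor `f` -/
def RQ (K : Type) [Field K] [NumberField K] (f : ℕ) : Set (RCC K) :=
  {χ | TrQ χ ∧ χ.f = Ideal.span {(f : 𝓞 K)}}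

/-- their number -/
noncomputable def nn (K : Type) [Field K] [NumberField K] (f : ℕ) : ℕ := (RQ K f).ncard

/-- the number of the real ones -/
noncomputable def rr (K : Type) [Field K] [NumberField K] (f : ℕ) : ℕ :=
  {χ : RCC K | χ ∈ RQ K f ∧ ¬ NRe χ}.ncard

/-- the number of those which do not vanish at `1/2` or are real -/
noncomputable def ww (K : Type) [Field K] [NumberField K] (f : ℕ) : ℕ :=
  {χ : RCC K | χ ∈ RQ K f ∧ (NVc χ ∨ ¬ NRe χ)}.ncard

/-- the orthogonal characters with conductor at most `X` -/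
def OX (K : Type) [Field K] [NumberField K] (X : ℝ) : Set (RCC K) :=
  {χ | TrQ χ ∧ NRe χ ∧ |(discr K : ℝ)| * Ideal.absNorm χ.f ≤ X}

open Classical in
/-- the fundamental discriminants `d` with `|d| ≤ X` -/
noncomputable def FZ (X : ℝ) : Finset ℤ := (Finset.Icc (-⌊X⌋) ⌊X⌋).filter FuZ

end Pool.Agent.H91.CF
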