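import Pool.Agent.H91.CF.TA

/-!
# (FCf) the number of the fundamental discriminants, with local weights
-/

set_option autoImplicit false

open MeasureTheory Set Filter
open scoped Real

namespace Pool.Agent.H91.CF

open Pool.Agent.H31.CN

open Classical in
theorem sharp (hFSQ : T_FSQ) (hFAP : T_FAP) (hFMO : T_FMO) (N : ℕ) (lam : ℕ → ℤ → ℝ)
    (hN1 : 1 ≤ N) (hN2 : 2 ∣ N) (hN : Squarefree N) (ε : ℝ) (hε : 0 < ε) :
    ∃ Y₀ : ℝ, ∀ Y : ℝ, Y₀ ≤ Y →
      |(∑ D ∈ Finset.Icc 1 ⌊Y⌋₊, if 4 < D ∧ Fu D then Lam N lam D else 0) -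
        ((∏ p ∈ N.primeFactors, ∑ τ ∈ ({-1, 0, 1} : Finset ℤ), lam p τ * del p τ) *
          ∏' p : Nat.Primes, if (p : ℕ) ∣ N then 1 else 1 - 1 / ((p : ℕ) : ℝ) ^ 2) * Y| ≤
        ε * Y := by
  obtain ⟨q, hq1, hq2, hq3, hq4⟩ := hFMO N lam hN1 hN2 hN
  set Pr : ℝ := ∏' p : Nat.Primes, if (p : ℕ) ∣ N then 1 else 1 - 1 / ((p : ℕ) : ℝ) ^ 2 with hPr
  set L : ℕ → ℝ := fun a => if gdN N a then Lam N lam a else 0 with hL
  set B : ℝ := ∑ a ∈ Finset.range q, |L a| with hB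
  have hB0 : 0 ≤ B := Finset.sum_nonneg fun a _ => abs_nonneg _
  set ε₁ : ℝ := ε / (2 * (B + 1)) with hε₁
  have hε₁' : 0 < ε₁ := by positivity
  have hex : ∀ a : ℕ, ∃ Y₀ : ℝ, ∀ Y : ℝ, Y₀ ≤ Y →
      |(((Finset.Icc 1 ⌊Y⌋₊).filter (fun D => D % q = a % q ∧
          ∀ p : ℕ, p.Prime → ¬ p ∣ N → ¬ p ^ 2 ∣ D)).card : ℝ) - Y / q * Pr| ≤ ε₁ * Y :=
    fun a => hFAP N q a ε₁ hN1 hq1 hq2 hε₁'
  choose Y₁ hY₁ using hex
  set S4 : ℝ := ∑ D ∈ Finset.Icc 1 4, |L D| with hS4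
  have hS40 : 0 ≤ S4 := Finset.sum_nonneg fun a _ => abs_nonneg _
  refine ⟨max (max 1 (2 * S4 / ε)) (∑ a ∈ Finset.range q, |Y₁ a|), fun Y hY => ?_⟩
  have hYa : 1 ≤ Y := ((le_max_left _ _).trans (le_max_left _ _)).trans hY
  have hYb : 2 * S4 / ε ≤ Y := ((le_max_right _ _).trans (le_max_left _ _)).trans hY
  have hYc : ∑ a ∈ Finset.range q, |Y₁ a| ≤ Y := (le_max_right _ _).trans hY
  have hY0 : 0 < Y := by linarith
  -- periodicity
  have hper : ∀ D : ℕ, L D = L (D % q) := by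
    intro D
    have h1 : (q : ℤ) ∣ (D : ℤ) - ((D % q : ℕ) : ℤ) := by
      have := Nat.mod_add_div D q
      refine ⟨(D / q : ℕ), ?_⟩
      have h2 : ((D % q + q * (D / q) : ℕ) : ℤ) = D := by rw [this]
      push_cast at h2 ⊢
      linarith
    obtain ⟨h2, h3⟩ := hq3 D ((D % q : ℕ) : ℤ) h1
    simp only [hL]
    by_cases hg : gdN N (D : ℤ)
    · rw [if_pos hg, if_pos (h2.1 hg), h3]
    · rw [if_neg hg, if_neg (fun h => hg (h2.2 h))]
  -- the full sum over the fundamental discriminants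
  have hfull : ∑ D ∈ Finset.Icc 1 ⌊Y⌋₊, (if Fu D then Lam N lam D else 0) =
      ∑ a ∈ Finset.range q, L a * (((Finset.Icc 1 ⌊Y⌋₊).filter (fun D => D % q = a % q ∧
          ∀ p : ℕ, p.Prime → ¬ p ∣ N → ¬ p ^ 2 ∣ D)).card : ℝ) := by
    have h1 : ∀ D ∈ Finset.Icc 1 ⌊Y⌋₊, (if Fu D then Lam N lam D else 0) =
        if (∀ p : ℕ, p.Prime → ¬ p ∣ N → ¬ p ^ 2 ∣ D) then L (D % q) else 0 := by
      intro D hD
      rw [Finset.mem_Icc] at hD
      rw [← hper D]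
      have h2 := hFSQ N D hN1 hN2 (by omega)
      by_cases hs : ∀ p : ℕ, p.Prime → ¬ p ∣ N → ¬ p ^ 2 ∣ D
      · rw [if_pos hs]
        simp only [hL]
        by_cases hg : gdN N (D : ℤ)
        · rw [if_pos (h2.2 ⟨hg, hs⟩), if_pos hg]
        · rw [if_neg (fun h => hg (h2.1 h).1), if_neg hg]
      · rw [if_neg hs, if_neg (fun h => hs (h2.1 h).2)]
    rw [Finset.sum_congr rfl h1, ← Finset.sum_filter]
    rw [← Finset.sum_fiberwise_of_maps_to (s := (Finset.Icc 1 ⌊Y⌋₊).filter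
      (fun D => ∀ p : ℕ, p.Prime → ¬ p ∣ N → ¬ p ^ 2 ∣ D)) (t := Finset.range q)
      (g := fun D => D % q) (fun D _ => Finset.mem_range.2 (Nat.mod_lt _ (by omega)))]
    refine Finset.sum_congr rfl fun a ha => ?_
    rw [Finset.mem_range] at ha
    rw [Finset.sum_congr rfl (g := fun _ => L a) (fun D hD => by
      rw [(Finset.mem_filter.1 hD).2]), Finset.sum_const, nsmul_eq_mul, mul_comm]
    congr 2
    rw [Finset.filter_filter]
    congr 1
    ext D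
    simp only [Finset.mem_filter, Nat.mod_eq_of_lt ha, and_comm]
  have hmean : ∑ a ∈ Finset.range q, L a * (Y / q * Pr) =
      ((∏ p ∈ N.primeFactors, ∑ τ ∈ ({-1, 0, 1} : Finset ℤ), lam p τ * del p τ) * Pr) * Y := by
    rw [← hq4, ← Finset.sum_mul]
    simp only [hL]
    ring
  have hmain : |(∑ D ∈ Finset.Icc 1 ⌊Y⌋₊, (if Fu D then Lam N lam D else 0)) -
      ((∏ p ∈ N.primeFactors, ∑ τ ∈ ({-1, 0, 1} : Finset ℤ), lam p τ * del p τ) * Pr) * Y| ≤
      ε / 2 * Y := by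
    rw [hfull, ← hmean, ← Finset.sum_sub_distrib]
    calc |∑ a ∈ Finset.range q, (L a * (((Finset.Icc 1 ⌊Y⌋₊).filter (fun D => D % q = a % q ∧
          ∀ p : ℕ, p.Prime → ¬ p ∣ N → ¬ p ^ 2 ∣ D)).card : ℝ) - L a * (Y / q * Pr))|
        ≤ ∑ a ∈ Finset.range q, |L a| * (ε₁ * Y) := by
          refine (Finset.abs_sum_le_sum_abs _ _).trans (Finset.sum_le_sum fun a ha => ?_)
          rw [← mul_sub, abs_mul]
          refine mul_le_mul_of_nonneg_left (hY₁ a Y ?_) (abs_nonneg _)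
          exact (le_abs_self _).trans ((Finset.single_le_sum (f := fun a => |Y₁ a|)
            (fun _ _ => abs_nonneg _) ha).trans hYc)
      _ = B * (ε₁ * Y) := by rw [← Finset.sum_mul]
      _ = ε / 2 * Y * (B / (B + 1)) := by
          rw [hε₁]
          field_simp
      _ ≤ ε / 2 * Y := by
          refine mul_le_of_le_one_right (by positivity) ?_
          rw [div_le_one (by linarith)]
          linarith
  -- the small discriminants
  have hsmall : |(∑ D ∈ Finset.Icc 1 ⌊Y⌋₊, if 4 < D ∧ Fu D then Lam N lam D else 0) -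
      ∑ D ∈ Finset.Icc 1 ⌊Y⌋₊, (if Fu D then Lam N lam D else 0)| ≤ S4 := by
    rw [← Finset.sum_sub_distrib]
    have h1 : ∀ D ∈ Finset.Icc 1 ⌊Y⌋₊, |(if 4 < D ∧ Fu D then Lam N lam D else 0) -
        (if Fu D then Lam N lam D else 0)| ≤ if D ≤ 4 then |L D| else 0 := by
      intro D hD
      rw [Finset.mem_Icc] at hD
      by_cases h4 : 4 < D
      · rw [if_neg (show ¬ D ≤ 4 by omega)]
        by_cases hF : Fu D
        · rw [if_pos (show 4 < D ∧ Fu D from ⟨h4, hF⟩), if_pos hF, sub_self, abs_zero]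
        · rw [if_neg (show ¬ (4 < D ∧ Fu D) from fun h => hF h.2), if_neg hF, sub_self, abs_zero]
      · rw [if_neg (show ¬ (4 < D ∧ Fu D) from fun h => h4 h.1), if_pos (show D ≤ 4 by omega),
          zero_sub, abs_neg]
        by_cases hF : Fu D
        · rw [if_pos hF]
          simp only [hL]
          rw [if_pos ((hFSQ N D hN1 hN2 (by omega)).1 hF).1]
        · rw [if_neg hF, abs_zero]
          exact abs_nonneg _
    refine (Finset.abs_sum_le_sum_abs _ _).trans ((Finset.sum_le_sum h1).trans ?_)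
    rw [← Finset.sum_filter, hS4]
    refine Finset.sum_le_sum_of_subset_of_nonneg (fun D hD => ?_) (fun D _ _ => abs_nonneg _)
    rw [Finset.mem_filter, Finset.mem_Icc] at hD
    exact Finset.mem_Icc.2 ⟨hD.1.1, hD.2⟩
  have hS : S4 ≤ ε / 2 * Y := by
    rw [div_le_iff₀ hε] at hYb
    linarith
  calc _ ≤ _ + _ := abs_sub_le _ (∑ D ∈ Finset.Icc 1 ⌊Y⌋₊, (if Fu D then Lam N lam D else 0)) _
    _ ≤ S4 + ε / 2 * Y := add_le_add hsmall hmain
    _ ≤ ε / 2 * Y + ε / 2 * Y := add_le_add hS le_rfl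
    _ = ε * Y := by ring

theorem pf_FCf (hFSQ : T_FSQ) (hFAP : T_FAP) (hFMO : T_FMO) (hABL : T_ABL) : T_FCf := by
  classical
  intro G η hη hG h N lam ε hN1 hN2 hN hε
  obtain ⟨Y₀, hY₀⟩ := hABL G η hη hG h (fun D => if 4 < D ∧ Fu D then Lam N lam D else 0)
    ((∏ p ∈ N.primeFactors, ∑ τ ∈ ({-1, 0, 1} : Finset ℤ), lam p τ * del p τ) *
          ∏' p : Nat.Primes, if (p : ℕ) ∣ N then 1 else 1 - 1 / ((p : ℕ) : ℝ) ^ 2)
    (fun ε' hε' => sharp hFSQ hFAP hFMO N lam hN1 hN2 hN ε' hε') ε hε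
  refine ⟨Y₀, fun Y hY => ?_⟩
  have h1 := hY₀ Y hY
  have h2 : ∑ D ∈ fmD Y, G (D / Y) * Lam N lam D = ∑ D ∈ Finset.Icc 1 ⌊Y⌋₊,
      G (D / Y) * (if 4 < D ∧ Fu D then Lam N lam D else 0) := by
    unfold fmD
    rw [Finset.sum_filter]
    refine Finset.sum_congr rfl fun D _ => ?_
    by_cases h3 : 4 < D ∧ Fu D
    · rw [if_pos h3, if_pos h3]
    · rw [if_neg h3, if_neg h3, mul_zero]
  rw [h2]
  exact h1

end Pool.Agent.H91.CF
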