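import Pool.Agent.H91.CF.AFc
import Pool.Agent.H56.CF.Targets

/-!
# The final theorem
-/

set_option autoImplicit false

open MeasureTheory Set Filter NumberField
open scoped Real nonZeroDivisors

namespace Pool.Agent.H91.CF

open Pool.Agent.H31.CN Pool.Agent.H28.RC
open Pool.Agent.H56.CF (Fam T_CNT T_TLS T_REA T_D34)

theorem sqf_int {n : ℕ} : Squarefree (-(n : ℤ)) ↔ Squarefree n := by
  rw [← Int.squarefree_natAbs, Int.natAbs_neg, Int.natAbs_natCast]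

theorem FuZ_neg {D : ℕ} (hD : 0 < D) : FuZ (-(D : ℤ)) ↔ Fu D := by
  unfold FuZ Fu
  by_cases h4 : 4 ∣ D
  · obtain ⟨m, rfl⟩ := h4
    have e1 : -(((4 * m : ℕ)) : ℤ) / 4 = -(m : ℤ) := by
      push_cast
      omega
    have e2 : 4 * m / 4 = m := by omega
    rw [e1, e2, sqf_int, sqf_int]
    constructor
    · rintro (⟨h, -, -⟩ | ⟨-, h, h'⟩)
      · push_cast at h
        omega
      · right
        refine ⟨Dvd.intro _ rfl, h, ?_⟩
        omega
    · rintro (⟨h, -⟩ | ⟨-, h, h'⟩)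
      · omega
      · right
        refine ⟨⟨-(m : ℤ), by push_cast; ring⟩, h, ?_⟩
        omega
  · constructor
    · rintro (⟨h, h', -⟩ | ⟨h, -⟩)
      · left
        refine ⟨by omega, sqf_int.1 h'⟩
      · exfalso
        apply h4
        omega
    · rintro (⟨h, h'⟩ | ⟨h, -⟩)
      · left
        refine ⟨by omega, sqf_int.2 h', by omega⟩
      · exact absurd h h4

theorem span_inj {K : Type} [Field K] [NumberField K] (hK : Module.finrank ℚ K = 2) {f f' : ℕ}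
    (h : Ideal.span {(f : 𝓞 K)} = Ideal.span {(f' : 𝓞 K)}) : f = f' := by
  have h1 : ∀ n : ℕ, Ideal.absNorm (Ideal.span {(n : 𝓞 K)}) = n ^ 2 := by
    intro n
    have h2 := Ideal.absNorm_span_natCast (S := 𝓞 K) n
    rw [h2, NumberField.RingOfIntegers.rank, hK]
  have h3 : f ^ 2 = f' ^ 2 := by rw [← h1 f, ← h1 f', h]
  exact Nat.pow_left_injective (by norm_num : (2 : ℕ) ≠ 0) h3

theorem norm_span {K : Type} [Field K] [NumberField K] (hK : Module.finrank ℚ K = 2) (n : ℕ) :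
    Ideal.absNorm (Ideal.span {(n : 𝓞 K)}) = n ^ 2 := by
  have h2 := Ideal.absNorm_span_natCast (S := 𝓞 K) n
  rw [h2, NumberField.RingOfIntegers.rank, hK]

/-- the characters with `L(1/2) ≠ 0`, by conductor -/
theorem nv_lower {K : Type} [Field K] [NumberField K] (hK : Module.finrank ℚ K = 2) {X : ℝ}
    (hfin : ∀ f : ℕ, 0 < f → (RQ K f).Finite) (hOX : (OX K X).Finite) (s : Finset ℕ)
    (hs : ∀ f ∈ s, 0 < f ∧ |(discr K : ℝ)| * (f : ℝ) ^ 2 ≤ X) :
    ∑ f ∈ s, ((ww K f : ℝ) - rr K f) ≤ ({χ : RCC K | χ ∈ OX K X ∧ NVc χ}.ncard : ℝ) := by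
  classical
  set A : ℕ → Set (RCC K) := fun f => {χ | χ ∈ RQ K f ∧ (NVc χ ∧ NRe χ)} with hA
  have hAf : ∀ f ∈ s, (A f).Finite := fun f hf => (hfin f (hs f hf).1).subset fun χ hχ => hχ.1
  have h1 : ∀ f ∈ s, (ww K f : ℝ) - rr K f ≤ ((A f).ncard : ℝ) := by
    intro f hf
    have h2 : {χ : RCC K | χ ∈ RQ K f ∧ (NVc χ ∨ ¬ NRe χ)} ⊆
        A f ∪ {χ : RCC K | χ ∈ RQ K f ∧ ¬ NRe χ} := by
      intro χ hχ
      by_cases hr : NRe χ
      · left
        refine ⟨hχ.1, ?_, hr⟩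
        rcases hχ.2 with h3 | h3
        · exact h3
        · exact absurd hr h3
      · right
        exact ⟨hχ.1, hr⟩
    have h3 : (A f ∪ {χ : RCC K | χ ∈ RQ K f ∧ ¬ NRe χ}).Finite :=
      (hAf f hf).union ((hfin f (hs f hf).1).subset fun χ hχ => hχ.1)
    have h4 := (Set.ncard_le_ncard h2 h3).trans (Set.ncard_union_le _ _)
    have h5 : ww K f ≤ (A f).ncard + rr K f := h4
    have h6 : (ww K f : ℝ) ≤ (A f).ncard + rr K f := by exact_mod_cast h5
    linarith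
  refine (Finset.sum_le_sum h1).trans ?_
  have hdis : ∀ f ∈ s, ∀ f' ∈ s, f ≠ f' → Disjoint (A f) (A f') := by
    intro f _ f' _ hne
    rw [Set.disjoint_left]
    intro χ h2 h3
    exact hne (span_inj hK (h2.1.2.symm.trans h3.1.2))
  have h7 : ∑ f ∈ s, (A f).ncard = (⋃ f ∈ s, A f).ncard := by
    have hU : (⋃ f ∈ s, A f).Finite := by
      have := Set.Finite.biUnion s.finite_toSet hAf
      simpa using this
    rw [Set.ncard_eq_toFinset_card _ hU]
    have h8 : hU.toFinset = s.attach.biUnion (fun f => (hAf f.1 f.2).toFinset) := by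
      ext χ
      simp
    rw [h8, Finset.card_biUnion]
    · rw [← Finset.sum_attach]
      refine Finset.sum_congr rfl fun f _ => ?_
      exact Set.ncard_eq_toFinset_card _ (hAf f.1 f.2)
    · intro f _ f' _ hne
      show Disjoint ((hAf f.1 f.2).toFinset) ((hAf f'.1 f'.2).toFinset)
      rw [Finset.disjoint_left]
      intro χ h2 h3
      rw [Set.Finite.mem_toFinset] at h2 h3
      exact (Set.disjoint_left.1 (hdis f.1 f.2 f'.1 f'.2 (fun hh => hne (Subtype.ext hh)))) h2 h3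
  have h9 : (⋃ f ∈ s, A f) ⊆ {χ : RCC K | χ ∈ OX K X ∧ NVc χ} := by
    intro χ hχ
    simp only [Set.mem_iUnion] at hχ
    obtain ⟨f, hf, h2⟩ := hχ
    refine ⟨⟨h2.1.1, h2.2.2, ?_⟩, h2.2.1⟩
    rw [h2.1.2, norm_span hK]
    push_cast
    exact (hs f hf).2
  have h10 := Set.ncard_le_ncard h9 (hOX.subset fun χ hχ => hχ.1)
  calc ∑ f ∈ s, ((A f).ncard : ℝ) = ((∑ f ∈ s, (A f).ncard : ℕ) : ℝ) := by push_cast; rfl
    _ ≤ _ := by
      rw [h7]
      exact_mod_cast h10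

theorem fmD_sub {Y X : ℝ} (hY : 0 ≤ Y) (h : Y ≤ X) : fmD Y ⊆ fmD X := by
  intro D hD
  have h1 := mem_fmD hD
  rw [mem_fmD_iff (hY.trans h)]
  exact ⟨h1.1, h1.2.1, h1.2.2.trans h⟩

/-- exchange of the sums over the discriminants and over the conductors -/
theorem sum_swap {X : ℝ} (hX : 0 ≤ X) (F : ℕ) (a : ℕ → ℕ → ℝ) :
    ∑ D ∈ fmD X, ∑ f ∈ (Finset.Icc 1 F).filter (fun f : ℕ => (D : ℝ) * (f : ℝ) ^ 2 ≤ X), a D f =
      ∑ f ∈ Finset.Icc 1 F, ∑ D ∈ fmD (X / (f : ℝ) ^ 2), a D f := by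
  classical
  rw [Finset.sum_comm' (t' := Finset.Icc 1 F) (s' := fun f => fmD (X / (f : ℝ) ^ 2))]
  intro D f
  constructor
  · rintro ⟨h1, h2⟩
    rw [Finset.mem_filter, Finset.mem_Icc] at h2
    have hf : (0 : ℝ) < f := by exact_mod_cast h2.1.1
    refine ⟨?_, Finset.mem_Icc.2 h2.1⟩
    rw [mem_fmD_iff (by positivity)]
    refine ⟨(mem_fmD h1).1, (mem_fmD h1).2.1, ?_⟩
    rw [le_div_iff₀ (by positivity)]
    exact h2.2
  · rintro ⟨h1, h2⟩
    rw [Finset.mem_Icc] at h2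
    have hf : (1 : ℝ) ≤ f := by exact_mod_cast h2.1
    have h3 := mem_fmD h1
    rw [le_div_iff₀ (by positivity)] at h3
    refine ⟨?_, Finset.mem_filter.2 ⟨Finset.mem_Icc.2 h2, h3.2.2⟩⟩
    rw [mem_fmD_iff hX]
    refine ⟨h3.1, h3.2.1, ?_⟩
    have h4 : (D : ℝ) * 1 ≤ (D : ℝ) * (f : ℝ) ^ 2 :=
      mul_le_mul_of_nonneg_left (one_le_pow₀ hf) (Nat.cast_nonneg _)
    linarith [h3.2.2]

end Pool.Agent.H91.CF
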