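import Pool.Agent.H91.CF.FIN

/-!
# The final theorem, part B
-/

set_option autoImplicit false

open MeasureTheory Set Filter NumberField
open scoped Real nonZeroDivisors

namespace Pool.Agent.H91.CF

open Pool.Agent.H31.CN Pool.Agent.H28.RC
open Pool.Agent.H56.CF (Fam T_CNT T_TLS T_REA T_D34)

theorem mem_FZ {X : ℝ} {d : ℤ} : d ∈ FZ X → FuZ d ∧ |(d : ℝ)| ≤ X := by
  classical
  intro h
  unfold FZ at h
  rw [Finset.mem_filter, Finset.mem_Icc] at h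
  refine ⟨h.2, abs_le.2 ⟨?_, ?_⟩⟩
  · have h1 : -(⌊X⌋ : ℝ) ≤ (d : ℝ) := by exact_mod_cast h.1.1
    have h2 := Int.floor_le X
    linarith
  · have h1 : (d : ℝ) ≤ (⌊X⌋ : ℝ) := by exact_mod_cast h.1.2
    have h2 := Int.floor_le X
    linarith

theorem FZ_mem {X : ℝ} {d : ℤ} (h1 : FuZ d) (h2 : |(d : ℝ)| ≤ X) : d ∈ FZ X := by
  classical
  unfold FZ
  rw [Finset.mem_filter, Finset.mem_Icc]
  have h3 := abs_le.1 h2
  refine ⟨⟨?_, Int.le_floor.2 h3.2⟩, h1⟩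
  have h4 : -d ≤ ⌊X⌋ := Int.le_floor.2 (by push_cast; linarith)
  linarith

theorem fmD_FZ {X : ℝ} {D : ℕ} (h : D ∈ fmD X) : -(D : ℤ) ∈ FZ X := by
  have h1 := mem_fmD h
  refine FZ_mem ((FuZ_neg (by omega)).2 h1.2.1) ?_
  push_cast
  rw [abs_neg, abs_of_nonneg (Nat.cast_nonneg _)]
  exact h1.2.2

/-- the sum over the negative discriminants -/
theorem neg_sum {X : ℝ} (hX : 0 ≤ X) (a : ℤ → ℝ) :
    ∑ d ∈ (FZ X).filter (fun d => d < -4), a d = ∑ D ∈ fmD X, a (-(D : ℤ)) := by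
  classical
  symm
  refine Finset.sum_bij (fun D _ => -(D : ℤ)) ?_ ?_ ?_ ?_
  · intro D hD
    rw [Finset.mem_filter]
    refine ⟨fmD_FZ hD, ?_⟩
    have := (mem_fmD hD).1
    omega
  · intro D _ D' _ h
    omega
  · intro d hd
    rw [Finset.mem_filter] at hd
    have h1 := mem_FZ hd.1
    refine ⟨d.natAbs, ?_, by omega⟩
    have h2 : d = -((d.natAbs : ℕ) : ℤ) := by omega
    rw [mem_fmD_iff hX]
    refine ⟨by omega, ?_, ?_⟩
    · rw [← FuZ_neg (by omega), ← h2]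
      exact h1.1
    · have h3 : ((d.natAbs : ℕ) : ℝ) = |(d : ℝ)| := by
        rw [Nat.cast_natAbs, Int.cast_abs]
      rw [h3]
      exact h1.2
  · intro D _
    rfl

theorem rpow_scale {X g : ℝ} (hX : 0 < X) (hg : 1 ≤ g) :
    (X / g) ^ (3 / 2 : ℝ) ≤ X ^ (3 / 2 : ℝ) :=
  Real.rpow_le_rpow (by positivity) (div_le_self hX.le hg) (by norm_num)

theorem nn_one (hPRO : T_PROf) {D : ℕ} (K : Type) [Field K] [NumberField K] (h4 : 4 < D)
    (hFu : Fu D) (h1 : Module.finrank ℚ K = 2) (h2 : discr K = -(D : ℤ)) :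
    (nn K 1 : ℝ) = classNumber K := by
  obtain ⟨-, h3, -⟩ := hPRO D 1 K h4 hFu one_pos h1 h2
  rw [h3]
  unfold xiD piD
  simp

end Pool.Agent.H91.CF
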