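import Pool.Agent.H91.CF.FINB

/-!
# The final theorem, part C
-/

set_option autoImplicit false

open MeasureTheory Set Filter NumberField
open scoped Real nonZeroDivisors

namespace Pool.Agent.H91.CF

open Pool.Agent.H31.CN Pool.Agent.H28.RC
open Pool.Agent.H56.CF (Fam T_CNT T_TLS T_REA T_D34)

theorem num_fin {ε c T V A Z E : ℝ} (hε : 0 < ε) (hZ : 0 ≤ Z) (hTV : V ≤ T)
    (hV0 : 0 ≤ V) (hV : 19 / 27 * A - E * Z ≤ V) (hT : T ≤ A + E * Z) (hA : c * Z ≤ A)
    (hE : 2 * E + ε * E ≤ ε * c / 2) :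
    (19 / 27 - ε) * T ≤ V := by
  by_cases h1 : 19 / 27 ≤ ε
  · have hT0 : 0 ≤ T := hV0.trans hTV
    have : (19 / 27 - ε) * T ≤ 0 := mul_nonpos_of_nonpos_of_nonneg (by linarith) hT0
    linarith
  · rw [not_le] at h1
    have h2 : 19 / 27 * c * Z - E * Z ≤ T := by nlinarith
    have h3 : ε * (19 / 27 * c * Z - E * Z) ≤ ε * T := mul_le_mul_of_nonneg_left h2 hε.le
    have h4 : (2 * E + ε * E) * Z ≤ ε * c / 2 * Z := mul_le_mul_of_nonneg_right hE hZ
    have h5 : (19 / 27 - ε) * T = 19 / 27 * T - ε * T := by ring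
    have h6 : 19 / 27 * T ≤ 19 / 27 * A + 19 / 27 * (E * Z) := by nlinarith
    by_cases hEs : 0 ≤ E * Z
    · by_cases hc : 0 ≤ c * Z
      · nlinarith [mul_nonneg hε.le hc]
      · nlinarith
    · nlinarith

theorem pf_FIN2 (hAF : T_AF) (hPRO : T_PROf) (hHSU : T_HSU) (hNRF : T_NRF) (hRRL : T_RRL)
    (hCNT : T_CNT) (hTLS : T_TLS) (hREA : T_REA) (hD34 : T_D34) : T_FIN2 := by
  classical
  intro ε hε
  obtain ⟨_, c, Yh, -, hc, hhs⟩ := hHSU
  obtain ⟨Ct, hCt, htl⟩ := hTLS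
  obtain ⟨Cd, hCd, hd34⟩ := hD34
  -- parameters
  set E : ℝ := min (ε * c / (2 * (2 + ε))) 1 with hE
  have hE0 : 0 < E := by positivity
  have hE1 : 2 * E + ε * E ≤ ε * c / 2 := by
    have h1 : E ≤ ε * c / (2 * (2 + ε)) := min_le_left _ _
    have h2 : (2 + ε) * E ≤ (2 + ε) * (ε * c / (2 * (2 + ε))) :=
      mul_le_mul_of_nonneg_left h1 (by positivity)
    have h3 : (2 + ε) * (ε * c / (2 * (2 + ε))) = ε * c / 2 := by
      field_simp
    linarith
  obtain ⟨F, hF⟩ := exists_nat_gt (max 1 ((4 * Ct / E) ^ 2))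
  have hF1 : (1 : ℝ) < F := (le_max_left _ _).trans_lt hF
  have hF1' : 1 ≤ F := by exact_mod_cast hF1.le
  have hFt : Ct / Real.sqrt F ≤ E / 4 := by
    have h1 : 4 * Ct / E ≤ Real.sqrt F := by
      refine Real.le_sqrt_of_sq_le ?_
      exact ((le_max_right _ _).trans_lt hF).le
    have h2 : 0 < Real.sqrt F := Real.sqrt_pos.2 (by linarith)
    rw [div_le_iff₀ h2]
    rw [div_le_iff₀ hE0] at h1
    linarith
  set ε₂ : ℝ := E / (4 * F) with hε₂
  have hε₂0 : 0 < ε₂ := by positivity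
  set ε₃ : ℝ := E / (4 * (8 * (F : ℝ) ^ 3)) with hε₃
  have hε₃0 : 0 < ε₃ := by positivity
  obtain ⟨Yr, hYr⟩ := hRRL ε₃ hε₃0
  obtain ⟨Xr, hXr⟩ := hREA (E / 4) (by positivity)
  have haf : ∀ f : ℕ, ∃ Y₀ : ℝ, 0 < f → ∀ Y : ℝ, Y₀ ≤ Y →
      ∀ (K : ℕ → Type) [∀ D, Field (K D)] [∀ D, NumberField (K D)],
      (∀ D ∈ fmD Y, Module.finrank ℚ (K D) = 2 ∧ discr (K D) = -(D : ℤ)) →
      19 / 27 * ∑ D ∈ fmD Y, (nn (K D) f : ℝ) - ε₂ * Y ^ (3 / 2 : ℝ) ≤
        ∑ D ∈ fmD Y, (ww (K D) f : ℝ) := by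
    intro f
    by_cases hf : 0 < f
    · obtain ⟨Y₀, h⟩ := hAF f ε₂ hf hε₂0
      exact ⟨Y₀, fun _ => h⟩
    · exact ⟨0, fun h => absurd h hf⟩
  choose Yf hYf using haf
  set B : ℝ := ∑ f ∈ Finset.Icc 1 F, |Yf f| with hB
  have hB0 : 0 ≤ B := Finset.sum_nonneg fun _ _ => abs_nonneg _
  set X₁ : ℝ := (F : ℝ) ^ 2 * (B + |Yr| + 1) with hX₁
  set X₂ : ℝ := (8 * Cd / E) ^ 4 with hX₂
  refine ⟨max (max 1 X₁) (max (max X₂ Xr) Yh), fun X hX K _ _ hK => ?_⟩
  have hXa : 1 ≤ X := ((le_max_left _ _).trans (le_max_left _ _)).trans hX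
  have hXb : X₁ ≤ X := ((le_max_right _ _).trans (le_max_left _ _)).trans hX
  have hXc : X₂ ≤ X := ((le_max_left _ _).trans ((le_max_left _ _).trans
    (le_max_right _ _))).trans hX
  have hXd : Xr ≤ X := ((le_max_right _ _).trans ((le_max_left _ _).trans
    (le_max_right _ _))).trans hX
  have hXe : Yh ≤ X := ((le_max_right _ _).trans (le_max_right _ _)).trans hX
  have hX0 : 0 < X := by linarith
  have hfin : ∀ d ∈ FZ X, (OX (K d) X).Finite := fun d hd => (hCNT (K d) X (hK d hd).1 hX0.le).1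
  refine ⟨hfin, ?_⟩
  set Z : ℝ := X ^ (3 / 2 : ℝ) with hZ
  have hZ0 : 0 ≤ Z := by positivity
  set t : ℤ → ℝ := fun d => ((OX (K d) X).ncard : ℝ) with ht
  set v : ℤ → ℝ := fun d => ({χ : RCC (K d) | χ ∈ OX (K d) X ∧ NVc χ}.ncard : ℝ) with hv
  have ht0 : ∀ d, 0 ≤ t d := fun d => Nat.cast_nonneg _
  have hv0 : ∀ d, 0 ≤ v d := fun d => Nat.cast_nonneg _
  set K' : ℕ → Type := fun D => K (-(D : ℤ)) with hK'
  let _ : ∀ D, Field (K' D) := fun D => inferInstanceAs (Field (K (-(D : ℤ))))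
  have _ : ∀ D, NumberField (K' D) := fun D => inferInstanceAs (NumberField (K (-(D : ℤ))))
  have hKD : ∀ Y : ℝ, 0 ≤ Y → Y ≤ X → ∀ D ∈ fmD Y, Module.finrank ℚ (K' D) = 2 ∧
      discr (K' D) = -(D : ℤ) := fun Y hY hYX D hD => hK _ (fmD_FZ (fmD_sub hY hYX hD))
  have hTV : ∑ d ∈ FZ X, v d ≤ ∑ d ∈ FZ X, t d := by
    refine Finset.sum_le_sum fun d hd => ?_
    have h1 : {χ : RCC (K d) | χ ∈ OX (K d) X ∧ NVc χ}.ncard ≤ (OX (K d) X).ncard :=
      Set.ncard_le_ncard (fun χ hχ => hχ.1) (hfin d hd)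
    exact Nat.cast_le.2 h1
  -- the main sum
  set A : ℝ := ∑ f ∈ Finset.Icc 1 F, ∑ D ∈ fmD (X / (f : ℝ) ^ 2), (nn (K' D) f : ℝ) with hA
  have hg : ∀ f ∈ Finset.Icc 1 F, (1 : ℝ) ≤ (f : ℝ) ^ 2 ∧ (f : ℝ) ^ 2 ≤ (F : ℝ) ^ 2 := by
    intro f hf
    rw [Finset.mem_Icc] at hf
    have h1 : (1 : ℝ) ≤ f := by exact_mod_cast hf.1
    have h2 : (f : ℝ) ≤ F := by exact_mod_cast hf.2
    exact ⟨one_le_pow₀ h1, pow_le_pow_left₀ (by linarith) h2 2⟩
  have hlarge : ∀ f ∈ Finset.Icc 1 F, B + |Yr| + 1 ≤ X / (f : ℝ) ^ 2 := by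
    intro f hf
    obtain ⟨h1, h2⟩ := hg f hf
    rw [le_div_iff₀ (by linarith)]
    calc (B + |Yr| + 1) * (f : ℝ) ^ 2 ≤ (B + |Yr| + 1) * (F : ℝ) ^ 2 :=
          mul_le_mul_of_nonneg_left h2 (by positivity)
      _ = X₁ := by rw [hX₁]; ring
      _ ≤ X := hXb
  have hV : 19 / 27 * A - E * Z ≤ ∑ d ∈ FZ X, v d := by
    have h1 : ∑ D ∈ fmD X, v (-(D : ℤ)) ≤ ∑ d ∈ FZ X, v d := by
      rw [← neg_sum hX0.le v]
      exact Finset.sum_le_sum_of_subset_of_nonneg (Finset.filter_subset _ _)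
        (fun d _ _ => hv0 d)
    refine le_trans ?_ h1
    have h2 : ∑ D ∈ fmD X, ∑ f ∈ (Finset.Icc 1 F).filter
        (fun f : ℕ => (D : ℝ) * (f : ℝ) ^ 2 ≤ X), ((ww (K' D) f : ℝ) - rr (K' D) f) ≤
        ∑ D ∈ fmD X, v (-(D : ℤ)) := by
      refine Finset.sum_le_sum fun D hD => ?_
      have hKd := hKD X hX0.le le_rfl D hD
      refine nv_lower (K := K' D) hKd.1 (fun f hf => (hNRF f (K' D) hf hKd.1).1)
        (hfin _ (fmD_FZ hD)) _ fun f hf => ?_
      rw [Finset.mem_filter, Finset.mem_Icc] at hf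
      refine ⟨hf.1.1, ?_⟩
      rw [hKd.2]
      push_cast
      rw [abs_neg, abs_of_nonneg (Nat.cast_nonneg _)]
      exact hf.2
    refine le_trans ?_ h2
    rw [sum_swap hX0.le F (fun D f => (ww (K' D) f : ℝ) - rr (K' D) f), hA, Finset.mul_sum]
    have h3 : ∀ f ∈ Finset.Icc 1 F, 19 / 27 * (∑ D ∈ fmD (X / (f : ℝ) ^ 2),
        (nn (K' D) f : ℝ)) - (ε₂ * Z + 8 * (F : ℝ) ^ 2 * (ε₃ * Z)) ≤
        ∑ D ∈ fmD (X / (f : ℝ) ^ 2), ((ww (K' D) f : ℝ) - rr (K' D) f) := by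
      intro f hf
      obtain ⟨g1, g2⟩ := hg f hf
      have hl := hlarge f hf
      have hf1 : 0 < f := (Finset.mem_Icc.1 hf).1
      have hY0 : 0 ≤ X / (f : ℝ) ^ 2 := by positivity
      have hYX : X / (f : ℝ) ^ 2 ≤ X := div_le_self hX0.le g1
      have hsc := rpow_scale hX0 g1
      rw [← hZ] at hsc
      have hYfl : Yf f ≤ X / (f : ℝ) ^ 2 := by
        have h4 : |Yf f| ≤ B := Finset.single_le_sum (f := fun f => |Yf f|)
          (fun _ _ => abs_nonneg _) hf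
        have h5 := le_abs_self (Yf f)
        have h6 := abs_nonneg Yr
        linarith
      have hYrl : Yr ≤ X / (f : ℝ) ^ 2 := by
        have h5 := le_abs_self Yr
        linarith
      have h4 := hYf f hf1 _ hYfl K' (hKD _ hY0 hYX)
      have h5 := hYr _ hYrl K' (hKD _ hY0 hYX)
      have h6 : ∑ D ∈ fmD (X / (f : ℝ) ^ 2), (rr (K' D) f : ℝ) ≤
          8 * (F : ℝ) ^ 2 * ∑ D ∈ fmD (X / (f : ℝ) ^ 2), (rc (K' D) : ℝ) := by
        rw [Finset.mul_sum]
        refine Finset.sum_le_sum fun D hD => ?_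
        have h7 := (hNRF f (K' D) hf1 (hKD _ hY0 hYX D hD).1).2.2
        have h8 : (f : ℝ) ^ 2 / Nat.totient f ≤ (F : ℝ) ^ 2 := by
          have h9 : (1 : ℝ) ≤ Nat.totient f := by
            exact_mod_cast Nat.totient_pos.2 hf1
          exact (div_le_self (by positivity) h9).trans g2
        calc (rr (K' D) f : ℝ) ≤ 8 * rc (K' D) * ((f : ℝ) ^ 2 / Nat.totient f) := h7
          _ ≤ 8 * rc (K' D) * (F : ℝ) ^ 2 := mul_le_mul_of_nonneg_left h8 (by positivity)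
          _ = _ := by ring
      have h7 : 8 * (F : ℝ) ^ 2 * ∑ D ∈ fmD (X / (f : ℝ) ^ 2), (rc (K' D) : ℝ) ≤
          8 * (F : ℝ) ^ 2 * (ε₃ * Z) := by
        refine mul_le_mul_of_nonneg_left (h5.trans ?_) (by positivity)
        exact mul_le_mul_of_nonneg_left hsc hε₃0.le
      have h8 : ε₂ * (X / (f : ℝ) ^ 2) ^ (3 / 2 : ℝ) ≤ ε₂ * Z :=
        mul_le_mul_of_nonneg_left hsc hε₂0.le
      rw [Finset.sum_sub_distrib]
      linarith
    refine le_trans ?_ (Finset.sum_le_sum h3)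
    rw [Finset.sum_sub_distrib, Finset.sum_const, Nat.card_Icc, Nat.add_sub_cancel, nsmul_eq_mul]
    have h4 : (F : ℝ) * (ε₂ * Z + 8 * (F : ℝ) ^ 2 * (ε₃ * Z)) = E / 2 * Z := by
      have hFn : (F : ℝ) ≠ 0 := by positivity
      rw [hε₂, hε₃]
      field_simp
      ring
    rw [h4]
    have h5 : E / 2 * Z ≤ E * Z := by nlinarith
    linarith
  have hT : ∑ d ∈ FZ X, t d ≤ A + E * Z := by
    -- positive discriminants
    have hpos : ∑ d ∈ (FZ X).filter (fun d => 0 < d), t d ≤ E / 4 * Z := by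
      refine hXr K _ X hXd (fun d hd => ?_) (fun d hd => (Finset.mem_filter.1 hd).2)
      have hd' := (Finset.mem_filter.1 hd).1
      exact ⟨(hK d hd').1, (hK d hd').2, (mem_FZ hd').2⟩
    -- the discriminants -3, -4
    have hsm : ∑ d ∈ (FZ X).filter (fun d => ¬ 0 < d ∧ ¬ d < -4), t d ≤ E / 4 * Z := by
      have h1 : (FZ X).filter (fun d => ¬ 0 < d ∧ ¬ d < -4) ⊆ ({-4, -3} : Finset ℤ) := by
        intro d hd
        rw [Finset.mem_filter] at hd
        have h2 := (mem_FZ hd.1).1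
        have h3 : d ≠ 0 := by
          rintro rfl
          rcases h2 with ⟨h, -⟩ | ⟨-, h, -⟩
          · norm_num at h
          · norm_num at h
        have h4 : d ≠ -1 := by
          rintro rfl
          rcases h2 with ⟨h, -⟩ | ⟨h, -⟩
          · norm_num at h
          · norm_num at h
        have h5 : d ≠ -2 := by
          rintro rfl
          rcases h2 with ⟨h, -⟩ | ⟨h, -⟩
          · norm_num at h
          · norm_num at h
        rw [Finset.mem_insert, Finset.mem_singleton]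
        omega
      have h2 : ∀ d ∈ (FZ X).filter (fun d => ¬ 0 < d ∧ ¬ d < -4), t d ≤ Cd * X ^ (5 / 4 : ℝ) := by
        intro d hd
        rw [Finset.mem_filter] at hd
        refine hd34 (K d) X (hK d hd.1).1 ?_ hXa
        rw [(hK d hd.1).2]
        have h3 : (-4 : ℤ) ≤ d := by omega
        have h4 : d ≤ 0 := by omega
        have h5 : (-4 : ℝ) ≤ (d : ℝ) := by exact_mod_cast h3
        have h6 : (d : ℝ) ≤ 0 := by exact_mod_cast h4
        rw [abs_le]
        constructor <;> linarith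
      have h3 : ((FZ X).filter (fun d => ¬ 0 < d ∧ ¬ d < -4)).card ≤ 2 :=
        (Finset.card_le_card h1).trans (by decide)
      have h4 : 2 * Cd * X ^ (5 / 4 : ℝ) ≤ E / 4 * Z := by
        have h5 : Z = X ^ (5 / 4 : ℝ) * X ^ (1 / 4 : ℝ) := by
          rw [hZ, ← Real.rpow_add hX0]
          norm_num
        have h6 : 8 * Cd / E ≤ X ^ (1 / 4 : ℝ) := by
          have h7 : 0 ≤ 8 * Cd / E := by positivity
          calc 8 * Cd / E = ((8 * Cd / E) ^ 4) ^ (1 / 4 : ℝ) := by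
                rw [← Real.rpow_natCast, ← Real.rpow_mul h7]
                norm_num
            _ ≤ X ^ (1 / 4 : ℝ) := Real.rpow_le_rpow (by positivity) hXc (by norm_num)
        rw [div_le_iff₀ hE0] at h6
        rw [h5]
        have h8 : 0 ≤ X ^ (5 / 4 : ℝ) := by positivity
        nlinarith [mul_le_mul_of_nonneg_right h6 h8]
      calc ∑ d ∈ (FZ X).filter (fun d => ¬ 0 < d ∧ ¬ d < -4), t d
          ≤ ∑ d ∈ (FZ X).filter (fun d => ¬ 0 < d ∧ ¬ d < -4), Cd * X ^ (5 / 4 : ℝ) :=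
            Finset.sum_le_sum h2
        _ = ((FZ X).filter (fun d => ¬ 0 < d ∧ ¬ d < -4)).card * (Cd * X ^ (5 / 4 : ℝ)) := by
            rw [Finset.sum_const, nsmul_eq_mul]
        _ ≤ 2 * (Cd * X ^ (5 / 4 : ℝ)) := by
            refine mul_le_mul_of_nonneg_right ?_ (by positivity)
            exact_mod_cast h3
        _ ≤ E / 4 * Z := by linarith
    -- the main part
    have hmain : ∑ d ∈ (FZ X).filter (fun d => d < -4), t d ≤ A + E / 4 * Z := by
      rw [neg_sum hX0.le t]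
      have h1 : ∀ D ∈ fmD X, t (-(D : ℤ)) ≤
          ∑ f ∈ (Finset.Icc 1 F).filter (fun f : ℕ => (D : ℝ) * (f : ℝ) ^ 2 ≤ X),
            (nn (K' D) f : ℝ) +
          ∑ f ∈ Finset.Ioc F ⌊√(X / |((-(D : ℤ) : ℤ) : ℝ)|)⌋₊, (nn (K (-(D : ℤ))) f : ℝ) := by
        intro D hD
        have hKd := hKD X hX0.le le_rfl D hD
        have h2 := (hCNT (K' D) X hKd.1 hX0.le).2
        have hD0 : (0 : ℝ) < D := by
          have := (mem_fmD hD).1
          exact_mod_cast (by omega : 0 < D)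
        have habs : |((-(D : ℤ) : ℤ) : ℝ)| = D := by
          push_cast
          rw [abs_neg, abs_of_nonneg (Nat.cast_nonneg _)]
        rw [hKd.2, habs] at h2
        rw [habs]
        set n := ⌊√(X / (D : ℝ))⌋₊ with hn
        have h3 : Finset.Icc 1 n ⊆ (Finset.Icc 1 F).filter
            (fun f : ℕ => (D : ℝ) * (f : ℝ) ^ 2 ≤ X) ∪ Finset.Ioc F n := by
          intro f hf
          rw [Finset.mem_Icc] at hf
          rw [Finset.mem_union, Finset.mem_filter, Finset.mem_Icc, Finset.mem_Ioc]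
          by_cases hfF : f ≤ F
          · left
            refine ⟨⟨hf.1, hfF⟩, ?_⟩
            have h4 : (f : ℝ) ≤ √(X / (D : ℝ)) :=
              (Nat.le_floor_iff (Real.sqrt_nonneg _)).1 hf.2
            have h5 : (f : ℝ) ^ 2 ≤ X / D := by
              have := pow_le_pow_left₀ (Nat.cast_nonneg f) h4 2
              rwa [Real.sq_sqrt (by positivity)] at this
            rw [le_div_iff₀ hD0] at h5
            linarith
          · right
            exact ⟨by omega, hf.2⟩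
        have h4 : ((OX (K' D) X).ncard : ℝ) ≤ ∑ f ∈ Finset.Icc 1 n, (nn (K' D) f : ℝ) := by
          exact_mod_cast h2
        calc t (-(D : ℤ)) ≤ ∑ f ∈ Finset.Icc 1 n, (nn (K' D) f : ℝ) := h4
          _ ≤ ∑ f ∈ (Finset.Icc 1 F).filter
            (fun f : ℕ => (D : ℝ) * (f : ℝ) ^ 2 ≤ X) ∪ Finset.Ioc F n, (nn (K' D) f : ℝ) :=
              Finset.sum_le_sum_of_subset_of_nonneg h3 (fun _ _ _ => Nat.cast_nonneg _)
          _ ≤ _ := by
              rw [← Finset.sum_union_inter]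
              exact le_add_of_nonneg_right (Finset.sum_nonneg fun _ _ => Nat.cast_nonneg _)
      refine (Finset.sum_le_sum h1).trans ?_
      rw [Finset.sum_add_distrib, sum_swap hX0.le F (fun D f => (nn (K' D) f : ℝ))]
      refine add_le_add le_rfl ?_
      have h2 := neg_sum hX0.le (fun d : ℤ =>
        ∑ f ∈ Finset.Ioc F ⌊√(X / |(d : ℝ)|)⌋₊, (nn (K d) f : ℝ))
      rw [← h2]
      refine (htl K _ X F (fun d hd => ?_) hXa hF1').trans ?_
      · have hd' := (Finset.mem_filter.1 hd).1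
        exact ⟨(hK d hd').1, (hK d hd').2, (mem_FZ hd').2⟩
      · rw [← hZ, mul_div_right_comm]
        exact mul_le_mul_of_nonneg_right hFt hZ0
    have hsplit : ∑ d ∈ FZ X, t d = ∑ d ∈ (FZ X).filter (fun d => 0 < d), t d +
        (∑ d ∈ (FZ X).filter (fun d => d < -4), t d +
          ∑ d ∈ (FZ X).filter (fun d => ¬ 0 < d ∧ ¬ d < -4), t d) := by
      rw [← Finset.sum_filter_add_sum_filter_not (FZ X) (fun d => 0 < d) t]
      congr 1
      rw [← Finset.sum_filter_add_sum_filter_not ((FZ X).filter (fun d => ¬ 0 < d))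
        (fun d => d < -4) t, Finset.filter_filter, Finset.filter_filter]
      congr 1
      refine Finset.sum_congr ?_ fun _ _ => rfl
      ext d
      simp only [Finset.mem_filter]
      constructor
      · rintro ⟨h1, h2, h3⟩
        exact ⟨h1, h3⟩
      · rintro ⟨h1, h2⟩
        exact ⟨h1, by omega, h2⟩
    rw [hsplit]
    have : E / 4 * Z ≤ E * Z := by nlinarith
    nlinarith
  have hAc : c * Z ≤ A := by
    have h1 : ∑ D ∈ fmD (X / ((1 : ℕ) : ℝ) ^ 2), (nn (K' D) 1 : ℝ) ≤ A := by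
      rw [hA]
      exact Finset.single_le_sum (f := fun f : ℕ => ∑ D ∈ fmD (X / (f : ℝ) ^ 2),
        (nn (K' D) f : ℝ)) (fun f _ => Finset.sum_nonneg fun D _ => Nat.cast_nonneg _)
        (Finset.mem_Icc.2 ⟨le_rfl, hF1'⟩)
    refine le_trans ?_ h1
    have h2 : X / ((1 : ℕ) : ℝ) ^ 2 = X := by norm_num
    rw [h2]
    have h3 := (hhs X hXa K' (hKD X hX0.le le_rfl)).2.2 hXe
    refine h3.trans (le_of_eq ?_)
    refine Finset.sum_congr rfl fun D hD => ?_
    have hm := mem_fmD hD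
    have hKd := hKD X hX0.le le_rfl D hD
    exact (nn_one hPRO (K' D) hm.1 hm.2.1 hKd.1 hKd.2).symm
  exact num_fin hε hZ0 hTV (Finset.sum_nonneg fun d _ => hv0 d) hV hT hAc hE1

end Pool.Agent.H91.CF
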