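import Pool.Agent.H91.CF.SMf

/-!
# (SMf) the second moment over the enlarged family, with local weights: the theorem
-/

set_option autoImplicit false

open MeasureTheory Set Filter
open scoped Real

namespace Pool.Agent.H91.CF

open Pool.Agent.H31.CN

theorem dd_eq (p : ℕ) (τ : ℤ) (hτ : τ ∈ ({-1, 0, 1} : Finset ℤ)) :
    dd p τ = (if p = 2 then 2 else 1) * del p τ := by
  unfold dd del
  by_cases hp : p = 2
  · subst hp
    simp only [Finset.mem_insert, Finset.mem_singleton] at hτ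
    rcases hτ with h | h | h <;> subst h <;> norm_num
  · rw [if_neg hp, if_neg hp, one_mul]

theorem mass_eq (N f : ℕ) (lam : ℕ → ℤ → ℝ) (hN1 : 1 ≤ N) (hN2 : 2 ∣ N) :
    (∏ p ∈ N.primeFactors, (1 - 1 / (p : ℝ)) ^ 3 *
        ∑ τ ∈ ({-1, 0, 1} : Finset ℤ), lam p τ * pit f p τ * dd p τ) =
      2 * ∏ p ∈ N.primeFactors, (1 - 1 / (p : ℝ)) ^ 3 *
        ∑ τ ∈ ({-1, 0, 1} : Finset ℤ), lam p τ * pit f p τ * del p τ := by
  have h1 : ∀ p ∈ N.primeFactors, (1 - 1 / (p : ℝ)) ^ 3 *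
        ∑ τ ∈ ({-1, 0, 1} : Finset ℤ), lam p τ * pit f p τ * dd p τ =
      (if p = 2 then (2 : ℝ) else 1) * ((1 - 1 / (p : ℝ)) ^ 3 *
        ∑ τ ∈ ({-1, 0, 1} : Finset ℤ), lam p τ * pit f p τ * del p τ) := by
    intro p _
    have : ∑ τ ∈ ({-1, 0, 1} : Finset ℤ), lam p τ * pit f p τ * dd p τ =
        (if p = 2 then (2 : ℝ) else 1) *
          ∑ τ ∈ ({-1, 0, 1} : Finset ℤ), lam p τ * pit f p τ * del p τ := by
      rw [Finset.mul_sum]
      refine Finset.sum_congr rfl fun τ hτ => ?_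
      rw [dd_eq p τ hτ]
      ring
    rw [this]
    ring
  rw [Finset.prod_congr rfl h1, Finset.prod_mul_distrib, Finset.prod_ite_eq',
    if_pos (Nat.mem_primeFactors.mpr ⟨Nat.prime_two, hN2, by omega⟩)]

theorem log_near' {η Y D u : ℝ} (hη : 0 < η) (hu : 1 ≤ u) (hY : 0 < Y)
    (h1 : η * (u ^ 2 * Y) ≤ D) (h2 : D ≤ u ^ 2 * Y) :
    |Real.log (Real.sqrt D) - 1 / 2 * Real.log Y| ≤ |Real.log η| + Real.log u := by
  have hX : 0 < u ^ 2 * Y := by positivity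
  have h3 := log_near hη hX h1 h2
  have h4 : Real.log (u ^ 2 * Y) = 2 * Real.log u + Real.log Y := by
    rw [Real.log_mul (by positivity) hY.ne', Real.log_pow]
    norm_num
  rw [h4] at h3
  have h5 : 0 ≤ Real.log u := Real.log_nonneg hu
  rw [abs_le] at h3 ⊢
  constructor <;> linarith [h3.1, h3.2]

open Classical in
theorem pf_SMf (hAVG : T_AVGf) (hMN : T_MNf) (hMAI : T_MAI) (hNL : T_NLf) (hWD : T_WDf)
    (hUC : T_UCf) (hRDF : T_RDF) (hVK : T_VK) : T_SMf := by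
  intro G η hη hG h P N f θ ε lam hP hN1 hN2 hN hf hfN hθ hθ' hε
  obtain ⟨T, F, hT, hF, hmass⟩ := hNL N f lam hf hN1 hN2 hN hfN
  obtain ⟨hr1, hr2, hr3, hr4, hr5, hr6, hr7, hr8, hr9, hr10, hr11, hr12, hr13⟩ :=
    hRDF N f hf hN hfN
  have hrd : 0 < rd f := Nat.pos_of_dvd_of_pos hr4 hN1
  have hnf : nf N f ∣ N := ⟨rd f, hr5.symm⟩
  have hu0 : 0 < f1 f := f1_pos hf
  obtain ⟨K, hK, hk⟩ := cm_bd P
  set u : ℝ := (f1 f : ℝ) with hu
  have hu1 : 1 ≤ u := by rw [hu]; exact_mod_cast hu0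
  set N₀ : GR := ∑ n₁ ∈ (nf N f).divisors, ∑ n₂ ∈ (nf N f).divisors, ∑ d ∈ (rd f).divisors,
    Nnf T F (rd f) n₁ n₂ d with hN₀
  set Gi : ℝ := ∫ u in Ioi (0 : ℝ), |G u| with hGi
  have hGi0 : 0 ≤ Gi := integral_nonneg fun u => abs_nonneg _
  set δ : ℝ := min (1 / 100) (1 / 4 - θ) with hδ
  have hδ0 : 0 < δ := lt_min (by norm_num) (by linarith)
  have hδ1 : δ ≤ 1 / 100 := min_le_left _ _
  have hδ2 : θ ≤ 1 / 4 - δ := by
    have := min_le_right (1 / 100 : ℝ) (1 / 4 - θ)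
    linarith
  -- the thresholds
  have hA : ∀ n : ℕ × ℕ × ℕ, ∃ X₀ : ℝ, n.1 ∣ nf N f → n.2.1 ∣ nf N f → n.2.2 ∣ rd f →
      ∀ X, X₀ ≤ X → ∀ (m₁ m₂ : ℕ),
      Squarefree m₁ → Squarefree m₂ → Nat.Coprime (qf N f) m₁ →
      Nat.Coprime (qf N f) m₂ → (m₁ : ℝ) ≤ X ^ (1 / 4 - δ) → (m₂ : ℝ) ≤ X ^ (1 / 4 - δ) →
      |(∑' Δ : ℕ, G (Δ / X) * USg (rd f) n.2.2 (n.1 * n.2.1 * rd f) m₁ m₂
          (wf N f lam n.1 n.2.1 n.2.2) Δ) -
        (1 / 2) * ∫ D in Ioi (0 : ℝ), G (D / X) *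
          Mng (qf N f) (n.1 * n.2.1 * rd f) (rd f) n.2.2 m₁ m₂
            (wf N f lam n.1 n.2.1 n.2.2) D| ≤ X ^ (-1 : ℝ) := by
    intro n
    by_cases hn : n.1 ∣ nf N f ∧ n.2.1 ∣ nf N f ∧ n.2.2 ∣ rd f
    · obtain ⟨hn1, hn2, hn3⟩ := hn
      have hn' : 1 ≤ n.1 * n.2.1 * rd f := Nat.mul_pos (Nat.mul_pos
        (Nat.pos_of_dvd_of_pos (hn1.trans hnf) hN1)
        (Nat.pos_of_dvd_of_pos (hn2.trans hnf) hN1)) hrd
      obtain ⟨Kw, hKw⟩ := hWD N f lam hf hN1 hN2 hN hfN n.1 n.2.1 n.2.2 hn1 hn2 hn3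
      obtain ⟨X₀, hX₀⟩ := hAVG G η hη hG h (qf N f) (n.1 * n.2.1 * rd f) (rd f) Kw δ hr12 hn'
        hr1 hr11 (Dvd.intro_left _ rfl) hδ0 hδ1
      refine ⟨X₀, fun _ _ _ X hX m₁ m₂ hs1 hs2 hc1 hc2 hm1 hm2 => hX₀ X hX n.2.2 m₁ m₂
        (wf N f lam n.1 n.2.1 n.2.2) hn3 hKw ?_ hs1 hs2 hc1 hc2 hm1 hm2⟩
      intro e A B C hc
      unfold wf
      rw [if_neg]
      rintro ⟨-, -, h3⟩
      refine hc (Nat.Coprime.coprime_dvd_right ?_ h3)
      exact ⟨f1 f, hr3.symm⟩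
    · exact ⟨0, fun h1 h2 h3 => absurd ⟨h1, h2, h3⟩ hn⟩
  choose X₁ hX₁ using hA
  obtain ⟨X₂, hX₂⟩ := hMAI N₀ P N θ (|Real.log η| + Real.log u)
    (ε / (2 * (u ^ 2 * (Gi + 1)))) hP hN1 hN2 hN hθ hθ' (by positivity)
  set c : ℝ := ((nf N f).divisors.card : ℝ) with hc
  set c' : ℝ := ((rd f).divisors.card : ℝ) with hc'
  set X₃ : ℝ := 4 * (c * (c * (c' * K ^ 2))) / ε with hX₃
  refine ⟨max (max 1 X₂) (max X₃ (∑ n ∈ (nf N f).divisors ×ˢ ((nf N f).divisors ×ˢ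
    (rd f).divisors), |X₁ n|)), fun Y hY => ?_⟩
  have hYa : 1 ≤ Y := ((le_max_left _ _).trans (le_max_left _ _)).trans hY
  have hYb : X₂ ≤ Y := ((le_max_right _ _).trans (le_max_left _ _)).trans hY
  have hYc : X₃ ≤ Y := ((le_max_left _ _).trans (le_max_right _ _)).trans hY
  have hYd : ∑ n ∈ (nf N f).divisors ×ˢ ((nf N f).divisors ×ˢ (rd f).divisors), |X₁ n| ≤ Y :=
    ((le_max_right _ _).trans (le_max_right _ _)).trans hY
  have hY0 : 0 < Y := by linarith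
  have hM1 : 1 ≤ Y ^ θ := Real.one_le_rpow hYa hθ.le
  set X : ℝ := u ^ 2 * Y with hX
  have hu2 : 1 ≤ u ^ 2 := one_le_pow₀ hu1
  have hYX : Y ≤ X := by rw [hX]; nlinarith
  have hX0 : 0 < X := lt_of_lt_of_le hY0 hYX
  have hX1 : 1 ≤ X := hYa.trans hYX
  have hfs := fsumf hη h hY0 hUC P (Y ^ θ) N f lam hf hN1 hN2 hN hfN
  rw [← hu, ← hX] at hfs
  rw [hfs]
  set M := Y ^ θ with hM
  -- the error of the average formula
  have herr : |2 * (∑ n₁ ∈ (nf N f).divisors, ∑ n₂ ∈ (nf N f).divisors, ∑ d ∈ (rd f).divisors,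
        ∑ m₁ ∈ Finset.Icc 1 ⌊M⌋₊, ∑ m₂ ∈ Finset.Icc 1 ⌊M⌋₊, cm P M N m₁ * cm P M N m₂ *
          ∑' Δ : ℕ, G (Δ / X) * USg (rd f) d (n₁ * n₂ * rd f) m₁ m₂ (wf N f lam n₁ n₂ d) Δ) -
      ∑ n₁ ∈ (nf N f).divisors, ∑ n₂ ∈ (nf N f).divisors, ∑ d ∈ (rd f).divisors,
        ∑ m₁ ∈ Finset.Icc 1 ⌊M⌋₊, ∑ m₂ ∈ Finset.Icc 1 ⌊M⌋₊, cm P M N m₁ * cm P M N m₂ *
          ∫ D in Ioi (0 : ℝ), G (D / X) *
            Mng (qf N f) (n₁ * n₂ * rd f) (rd f) d m₁ m₂ (wf N f lam n₁ n₂ d) D| ≤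
        ε / 2 * Y := by
    have hterm : ∀ n₁ ∈ (nf N f).divisors, ∀ n₂ ∈ (nf N f).divisors, ∀ d ∈ (rd f).divisors,
        ∀ m₁ ∈ Finset.Icc 1 ⌊M⌋₊,
        ∀ m₂ ∈ Finset.Icc 1 ⌊M⌋₊, |2 * (cm P M N m₁ * cm P M N m₂ *
          ∑' Δ : ℕ, G (Δ / X) * USg (rd f) d (n₁ * n₂ * rd f) m₁ m₂
            (wf N f lam n₁ n₂ d) Δ) - cm P M N m₁ * cm P M N m₂ *
          ∫ D in Ioi (0 : ℝ), G (D / X) *
            Mng (qf N f) (n₁ * n₂ * rd f) (rd f) d m₁ m₂ (wf N f lam n₁ n₂ d) D| ≤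
          2 * K ^ 2 * Y⁻¹ := by
      intro n₁ hn₁ n₂ hn₂ d hd m₁ hm₁ m₂ hm₂
      rw [Finset.mem_Icc] at hm₁ hm₂
      by_cases hcc : cm P M N m₁ * cm P M N m₂ = 0
      · rw [hcc]; simp; positivity
      · have hc1 : cm P M N m₁ ≠ 0 := fun h0 => hcc (by rw [h0, zero_mul])
        have hc2 : cm P M N m₂ ≠ 0 := fun h0 => hcc (by rw [h0, mul_zero])
        have hs1 : Squarefree m₁ := by_contra fun hh => hc1 (cm_sq P M N m₁ hh)
        have hs2 : Squarefree m₂ := by_contra fun hh => hc2 (cm_sq P M N m₂ hh)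
        have hp1 : Nat.Coprime m₁ N := by_contra fun hh => hc1 (cm_cop P M N m₁ hh)
        have hp2 : Nat.Coprime m₂ N := by_contra fun hh => hc2 (cm_cop P M N m₂ hh)
        have hle : ∀ m : ℕ, m ≤ ⌊M⌋₊ → (m : ℝ) ≤ X ^ (1 / 4 - δ) := by
          intro m hm
          calc (m : ℝ) ≤ M := (Nat.cast_le.2 hm).trans (Nat.floor_le (by linarith))
            _ ≤ Y ^ (1 / 4 - δ) := Real.rpow_le_rpow_of_exponent_le hYa hδ2
            _ ≤ X ^ (1 / 4 - δ) := Real.rpow_le_rpow hY0.le hYX (by linarith)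
        have hXn : X₁ (n₁, n₂, d) ≤ X := by
          refine (le_abs_self _).trans (((Finset.single_le_sum (f := fun n => |X₁ n|)
            (fun _ _ => abs_nonneg _) ?_).trans hYd).trans hYX)
          exact Finset.mem_product.2 ⟨hn₁, Finset.mem_product.2 ⟨hn₂, hd⟩⟩
        have hav := hX₁ (n₁, n₂, d) (Nat.dvd_of_mem_divisors hn₁) (Nat.dvd_of_mem_divisors hn₂)
          (Nat.dvd_of_mem_divisors hd) X
          hXn m₁ m₂ hs1 hs2 (hr13 _ hp1) (hr13 _ hp2) (hle _ hm₁.2) (hle _ hm₂.2)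
        rw [Real.rpow_neg_one] at hav
        simp only at hav
        have e : 2 * (cm P M N m₁ * cm P M N m₂ *
          ∑' Δ : ℕ, G (Δ / X) * USg (rd f) d (n₁ * n₂ * rd f) m₁ m₂
            (wf N f lam n₁ n₂ d) Δ) - cm P M N m₁ * cm P M N m₂ *
          ∫ D in Ioi (0 : ℝ), G (D / X) *
            Mng (qf N f) (n₁ * n₂ * rd f) (rd f) d m₁ m₂ (wf N f lam n₁ n₂ d) D =
          2 * (cm P M N m₁ * cm P M N m₂) * ((∑' Δ : ℕ, G (Δ / X) * USg (rd f) d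
            (n₁ * n₂ * rd f) m₁ m₂ (wf N f lam n₁ n₂ d) Δ) -
            (1 / 2) * ∫ D in Ioi (0 : ℝ), G (D / X) *
            Mng (qf N f) (n₁ * n₂ * rd f) (rd f) d m₁ m₂ (wf N f lam n₁ n₂ d) D) := by ring
        rw [e, abs_mul, abs_mul, abs_mul, abs_two]
        have hb1 := hk M N m₁ hM1 hm₁.1
        have hb2 := hk M N m₂ hM1 hm₂.1
        have hXY : X⁻¹ ≤ Y⁻¹ := inv_anti₀ hY0 hYX
        calc 2 * (|cm P M N m₁| * |cm P M N m₂|) * |(∑' Δ : ℕ, G (Δ / X) *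
              USg (rd f) d (n₁ * n₂ * rd f) m₁ m₂ (wf N f lam n₁ n₂ d) Δ) -
              (1 / 2) * ∫ D in Ioi (0 : ℝ), G (D / X) *
              Mng (qf N f) (n₁ * n₂ * rd f) (rd f) d m₁ m₂ (wf N f lam n₁ n₂ d) D|
            ≤ 2 * (K * K) * Y⁻¹ := by
              refine mul_le_mul ?_ (hav.trans hXY) (abs_nonneg _) (by positivity)
              refine mul_le_mul_of_nonneg_left ?_ (by norm_num)
              exact mul_le_mul hb1 hb2 (abs_nonneg _) hK.le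
          _ = 2 * K ^ 2 * Y⁻¹ := by ring
    simp only [Finset.mul_sum, ← Finset.sum_sub_distrib]
    have hcard : ((Finset.Icc 1 ⌊M⌋₊).card : ℝ) ≤ M := by
      rw [Nat.card_Icc]
      simp only [Nat.add_sub_cancel]
      exact Nat.floor_le (by linarith)
    have hMM : M * M ≤ Y := by
      rw [hM, ← Real.rpow_add hY0]
      calc Y ^ (θ + θ) ≤ Y ^ (1 : ℝ) := Real.rpow_le_rpow_of_exponent_le hYa (by linarith)
        _ = Y := Real.rpow_one Y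
    calc |∑ n₁ ∈ (nf N f).divisors, ∑ n₂ ∈ (nf N f).divisors, ∑ d ∈ (rd f).divisors,
          ∑ m₁ ∈ Finset.Icc 1 ⌊M⌋₊,
          ∑ m₂ ∈ Finset.Icc 1 ⌊M⌋₊, (2 * (cm P M N m₁ * cm P M N m₂ *
          ∑' Δ : ℕ, G (Δ / X) * USg (rd f) d (n₁ * n₂ * rd f) m₁ m₂
            (wf N f lam n₁ n₂ d) Δ) - cm P M N m₁ * cm P M N m₂ *
          ∫ D in Ioi (0 : ℝ), G (D / X) *
            Mng (qf N f) (n₁ * n₂ * rd f) (rd f) d m₁ m₂ (wf N f lam n₁ n₂ d) D)|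
        ≤ ∑ n₁ ∈ (nf N f).divisors, ∑ n₂ ∈ (nf N f).divisors, ∑ d ∈ (rd f).divisors,
          ∑ m₁ ∈ Finset.Icc 1 ⌊M⌋₊,
          ∑ m₂ ∈ Finset.Icc 1 ⌊M⌋₊, 2 * K ^ 2 * Y⁻¹ := by
          refine (Finset.abs_sum_le_sum_abs _ _).trans (Finset.sum_le_sum fun n₁ hn₁ => ?_)
          refine (Finset.abs_sum_le_sum_abs _ _).trans (Finset.sum_le_sum fun n₂ hn₂ => ?_)
          refine (Finset.abs_sum_le_sum_abs _ _).trans (Finset.sum_le_sum fun d hd => ?_)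
          refine (Finset.abs_sum_le_sum_abs _ _).trans (Finset.sum_le_sum fun m₁ hm₁ => ?_)
          refine (Finset.abs_sum_le_sum_abs _ _).trans (Finset.sum_le_sum fun m₂ hm₂ => ?_)
          exact hterm n₁ hn₁ n₂ hn₂ d hd m₁ hm₁ m₂ hm₂
      _ = c * (c * (c' * ((Finset.Icc 1 ⌊M⌋₊).card * ((Finset.Icc 1 ⌊M⌋₊).card *
            (2 * K ^ 2 * Y⁻¹))))) := by
          simp only [Finset.sum_const, nsmul_eq_mul]
          rw [← hc, ← hc']
      _ ≤ c * (c * (c' * (M * (M * (2 * K ^ 2 * Y⁻¹))))) := by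
          have hY' : 0 ≤ 2 * K ^ 2 * Y⁻¹ := by positivity
          have hc0 : 0 ≤ c := by positivity
          have hc0' : 0 ≤ c' := by positivity
          refine mul_le_mul_of_nonneg_left (mul_le_mul_of_nonneg_left
            (mul_le_mul_of_nonneg_left ?_ hc0') hc0) hc0
          refine mul_le_mul hcard (mul_le_mul_of_nonneg_right hcard hY') (by positivity)
            (by linarith)
      _ = c * (c * (c' * (2 * K ^ 2))) * (M * M * Y⁻¹) := by ring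
      _ ≤ c * (c * (c' * (2 * K ^ 2))) * 1 := by
          refine mul_le_mul_of_nonneg_left ?_ (by positivity)
          rw [← div_eq_mul_inv, div_le_one hY0]
          exact hMM
      _ = ε / 2 * X₃ := by
          have e3 : ε * X₃ = 4 * (c * (c * (c' * K ^ 2))) := by
            rw [hX₃, mul_div_assoc', mul_comm ε, mul_div_assoc, div_self hε.ne', mul_one]
          linarith
      _ ≤ ε / 2 * Y := mul_le_mul_of_nonneg_left hYc (by positivity)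
  -- the main term
  rw [sum_mainf hη hG h hX0 hVK hMN P M N f lam hN1 hrd hnf T F hT hF, ← hN₀] at herr
  set Pd : ℝ := ∏ p ∈ N.primeFactors, (1 - 1 / (p : ℝ)) ^ 3 *
        ∑ τ ∈ ({-1, 0, 1} : Finset ℤ), lam p τ * pit f p τ * del p τ with hPd
  have hmo : mo 0 0 N₀ = 2 * Pd / u ^ 2 := by
    rw [hPd, ← mass_eq N f lam hN1 hN2, hu, ← hmass, hN₀, map_sum]
    refine Finset.sum_congr rfl fun n₁ _ => ?_
    rw [map_sum]
    refine Finset.sum_congr rfl fun n₂ _ => ?_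
    rw [map_sum]
    refine Finset.sum_congr rfl fun d _ => ?_
    unfold Nnf
    rw [map_sum]
    refine Finset.sum_congr rfl fun x _ => ?_
    rw [map_smul, mo_E, pow_zero, pow_zero, mul_one, smul_eq_mul, mul_one]
  set r : GR := N₀ * ∑ m₁ ∈ Finset.Icc 1 ⌊M⌋₊, ∑ m₂ ∈ Finset.Icc 1 ⌊M⌋₊,
            (cm P M N m₁ * cm P M N m₂) • ka m₁ m₂ with hr
  set W : ℝ := mo 0 0 N₀ * Sg N * (1 / 2) * Mt P (1 / (2 * θ)) with hW
  have hW' : X * (∫ v in Ioi (0 : ℝ), G v) * W =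
      Y * (∫ v in Ioi (0 : ℝ), G v) * (Pd * Sg N * Mt P (1 / (2 * θ))) := by
    rw [hW, hmo, hX]
    have : u ^ 2 ≠ 0 := by positivity
    field_simp
  have hmain : |(∫ D in Ioi (0 : ℝ), G (D / X) * Ph (Real.log (Real.sqrt D)) r) -
      X * (∫ v in Ioi (0 : ℝ), G v) * W| ≤ ε / 2 * Y := by
    have hGX : IntegrableOn (fun D : ℝ => G (D / X)) (Ioi 0) := by
      refine Integrable.integrableOn ?_
      exact (G_int hG h).comp_div hX0.ne'
    have e : (∫ D in Ioi (0 : ℝ), G (D / X) * Ph (Real.log (Real.sqrt D)) r) -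
        X * (∫ u in Ioi (0 : ℝ), G u) * W =
        ∫ D in Ioi (0 : ℝ), G (D / X) * (Ph (Real.log (Real.sqrt D)) r - W) := by
      rw [← G_scale G hX0, ← integral_mul_const,
        ← integral_sub (GPh_int hη hG h hX0 hVK r) (hGX.mul_const W)]
      refine setIntegral_congr_fun measurableSet_Ioi fun D _ => ?_
      show G (D / X) * Ph (Real.log (Real.sqrt D)) r - G (D / X) * W = _
      ring
    rw [e, ← Real.norm_eq_abs]
    refine (norm_integral_le_of_norm_le (g := fun D => ε / (2 * (u ^ 2 * (Gi + 1))) *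
      |G (D / X)|) (hGX.abs.const_mul _) ?_).trans ?_
    · refine (ae_restrict_iff' measurableSet_Ioi).2 (Filter.Eventually.of_forall fun D hD => ?_)
      rw [norm_mul, Real.norm_eq_abs, Real.norm_eq_abs, mul_comm]
      by_cases h0 : G (D / X) = 0
      · rw [h0, abs_zero, mul_zero, mul_zero]
      · obtain ⟨hD1, hD2⟩ := G_supp h hX0 h0
        refine mul_le_mul_of_nonneg_right ?_ (abs_nonneg _)
        exact hX₂ Y (Real.log (Real.sqrt D)) hYb (log_near' hη hu1 hY0 hD1 hD2)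
    · rw [integral_const_mul]
      have h9 : ∫ D in Ioi (0 : ℝ), |G (D / X)| = X * Gi := G_scale (fun u => |G u|) hX0
      rw [h9]
      have : ε / (2 * (u ^ 2 * (Gi + 1))) * (X * Gi) = ε / 2 * Y * (Gi / (Gi + 1)) := by
        rw [hX]
        field_simp
      rw [this]
      refine mul_le_of_le_one_right (by positivity) ?_
      rw [div_le_one (by linarith)]
      linarith
  rw [← hW']
  calc _ ≤ _ + _ := abs_sub_le _ (∫ D in Ioi (0 : ℝ), G (D / X) *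
      Ph (Real.log (Real.sqrt D)) r) _
    _ ≤ ε / 2 * Y + ε / 2 * Y := add_le_add herr hmain
    _ = ε * Y := by ring

end Pool.Agent.H91.CF
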