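import Pool.Agent.H91.CF.FINC
import Pool.Agent.H91.CF.SMfB
import Pool.Agent.H91.CF.FCf
import Pool.Agent.H91.CF.Bridge
import Pool.Agent.H31.CF.All
import Pool.Agent.H37.CF.All
import Pool.Agent.H56.CF.All
import Pool.Agent.H95.CF.All
import Pool.Agent.H65.CF.Asm6
import Pool.Agent.H31.CN.FinA
import Pool.Agent.H27.CF.ALCU
import Pool.Agent.H27.CF.AWFE
import Pool.Agent.H29.CF.AGSM
import Pool.Agent.H30.CF.AFAP
import Pool.Agent.H32.CF.ALUO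
import Pool.Agent.H41.CF.ADNO
import Pool.Agent.H41.CF.ADNT
import Pool.Agent.H41.CF.ALCR
import Pool.Agent.H41.CF.ARDF
import Pool.Agent.H47.CF.AABL
import Pool.Agent.H49.CF.ADN2
import Pool.Agent.H55.CF.ALPF
import Pool.Agent.H55.CF.ATPR
import Pool.Agent.H60.CF.ALU2
import Pool.Agent.H72.CF.AFSQ
import Pool.Agent.H72.CF.ATYP
import Pool.Agent.H73.CF.ADNS
import Pool.Agent.H75.CF.AFMO
import Pool.Agent.H75.CF.AWDF
import Pool.Agent.H81.CF.ADNC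
import Pool.Agent.H85.CF.AWPR
import Pool.Agent.H86.CF.ANLF
import Pool.Agent.H92.CF.AUCF

/-!
# All orthogonal characters of degree two: the assembly
-/

set_option autoImplicit false

namespace Pool.Agent.H91.CF.Fin

open Pool.Agent.H31.CN Pool.Agent.H31.CN.Fin Pool.Agent.H91.CF

theorem a_TPR : T_TPR := Pool.Agent.H55.CF.pf_TPR

theorem a_TYP : T_TYP := Pool.Agent.H72.CF.pf_TYP

theorem a_RDF : T_RDF := Pool.Agent.H41.CF.pf_RDF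

theorem a_LCU : T_LCU := Pool.Agent.H27.CF.pf_LCU a_TPR Pool.Agent.H32.CF.pf_LUO
  Pool.Agent.H60.CF.pf_LU2 Pool.Agent.H73.CF.pf_DNS Pool.Agent.H49.CF.pf_DN2

theorem a_LCR : T_LCR := Pool.Agent.H41.CF.pf_LCR a_TPR (Pool.Agent.H41.CF.pf_DNO a_TPR)
  (Pool.Agent.H41.CF.pf_DNT a_TPR) (Pool.Agent.H81.CF.pf_DNC a_TYP a_TPR)

theorem a_WFE : T_WFE := Pool.Agent.H27.CF.pf_WFE a_TYP a_RDF

theorem a_WPR : T_WPR := Pool.Agent.H85.CF.pf_WPR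

theorem a_LPf : T_LPf := Pool.Agent.H55.CF.pf_LPf a_WFE a_WPR

theorem a_NLf : T_NLf := Pool.Agent.H86.CF.pf_NLf a_LCU a_LCR a_LPf a_RDF

theorem a_WDf : T_WDf := Pool.Agent.H75.CF.pf_WDf a_TPR a_RDF

theorem a_UCf : T_UCf := Pool.Agent.H92.CF.pf_UCf a_TYP a_RDF

theorem a_AVGf : T_AVGf := by
  intro G η hη hG h q n g K δ hq hn hg hgq hgn hδ hδ'
  obtain ⟨X₀, h1⟩ := Pool.Agent.H31.CFU.u_AVGf G η hη hG h q n g K δ hq hn hg hgn hgq hδ hδ'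
  exact ⟨X₀, fun X hX d m₁ m₂ w hd hw _ => h1 X hX d m₁ m₂ w hd hw⟩

theorem a_SMf : T_SMf :=
  pf_SMf a_AVGf Pool.Agent.H31.CFU.u_MNf c_MAI a_NLf a_WDf a_UCf a_RDF c_VK

theorem a_FSQ : T_FSQ := Pool.Agent.H72.CF.pf_FSQ

theorem a_FCf : T_FCf :=
  pf_FCf a_FSQ Pool.Agent.H30.CF.pf_FAP (Pool.Agent.H75.CF.pf_FMO a_TPR) Pool.Agent.H47.CF.pf_ABL

theorem a_PROf : T_PROf := Pool.Agent.H95.CF.p_PROf Pool.Agent.H31.CFU.u_UNFf

theorem a_AF : T_AF :=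
  pf_AF a_PROf Pool.Agent.H31.CFU.u_UNFf a_SMf a_FCf Pool.Agent.H65.CF.Asm.a_FMf b_HLR b_HSU
    c_OPT c_CRR c_CSF Pool.Agent.H29.CF.pf_GSM a_TPR a_FSQ

theorem a_CND : T_CND := Pool.Agent.H37.CF.c_CND

theorem a_FIN2 : T_FIN2 :=
  pf_FIN2 a_AF a_PROf b_HSU Pool.Agent.H56.CF.All.nrf (Pool.Agent.H37.CF.c_RRL b_HSU)
    (Pool.Agent.H56.CF.All.cnt a_CND) Pool.Agent.H56.CF.All.tls
    (Pool.Agent.H56.CF.All.rea a_CND) (Pool.Agent.H56.CF.All.d34 a_CND)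

end Pool.Agent.H91.CF.Fin
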