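import Pool.Agent.H91.CF.TA
import Pool.Agent.H31.CN.SM2

/-!
# (SMf) the second moment over the enlarged family, with local weights
-/

set_option autoImplicit false

open MeasureTheory Set Filter
open scoped Real

namespace Pool.Agent.H91.CF

open Pool.Agent.H31.CN

theorem USg_bad {N f Δ : ℕ} (lam : ℕ → ℤ → ℝ) (g d n n₁ n₂ m₁ m₂ : ℕ)
    (h : ¬ ((f1 f : ℤ) ^ 2 ∣ (Δ : ℤ) ∧ gdN N ((Δ : ℤ) / (f1 f : ℤ) ^ 2))) :
    USg g d n m₁ m₂ (wf N f lam n₁ n₂ d) Δ = 0 := by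
  unfold USg US
  refine (tsum_congr (fun p => ?_)).trans tsum_zero
  refine Finset.sum_eq_zero fun B hB => ?_
  rw [Finset.mem_filter, Finset.mem_range] at hB
  obtain ⟨hB1, hB2⟩ := hB
  have h4 : (4 * (p.2 : ℤ) * (((B ^ 2 + Δ) / (4 * p.2) : ℕ) : ℤ) - (B : ℤ) ^ 2) = Δ := by
    have := Nat.mul_div_cancel' hB2
    have h5 : ((4 * p.2 * ((B ^ 2 + Δ) / (4 * p.2)) : ℕ) : ℤ) = ((B ^ 2 + Δ : ℕ) : ℤ) := by
      rw [this]
    push_cast at h5 ⊢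
    linarith
  have : wf N f lam n₁ n₂ d p.1 ((p.2 : ℤ)).toNat (B : ℤ)
      (((B ^ 2 + Δ) / (4 * p.2) : ℕ) : ℤ) = 0 := by
    unfold wf
    rw [Int.toNat_natCast, h4, if_neg]
    intro hh
    exact h ⟨hh.1, hh.2.1⟩
  simp only [this]
  ring

/-- the sum over the levels is a sum over the discriminants -/
theorem lev_sum {N f : ℕ} (lam : ℕ → ℤ → ℝ) (g d n n₁ n₂ m₁ m₂ : ℕ) (G : ℝ → ℝ) {Y : ℝ}
    (hf : 0 < f1 f) :
    ∑' Δ : ℕ, G (Δ / ((f1 f : ℝ) ^ 2 * Y)) * USg g d n m₁ m₂ (wf N f lam n₁ n₂ d) Δ =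
      ∑' D : ℕ, G (D / Y) * USg g d n m₁ m₂ (wf N f lam n₁ n₂ d) (f1 f ^ 2 * D) := by
  have hinj : Function.Injective (fun D : ℕ => f1 f ^ 2 * D) := fun a b hab =>
    Nat.eq_of_mul_eq_mul_left (pow_pos hf 2) hab
  have hs : Function.support (fun Δ : ℕ => G (Δ / ((f1 f : ℝ) ^ 2 * Y)) *
      USg g d n m₁ m₂ (wf N f lam n₁ n₂ d) Δ) ⊆ Set.range (fun D : ℕ => f1 f ^ 2 * D) := by
    intro Δ hΔ
    rw [Function.mem_support] at hΔ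
    by_contra hr
    refine hΔ ?_
    rw [USg_bad lam g d n n₁ n₂ m₁ m₂, mul_zero]
    rintro ⟨h1, -⟩
    have h2 : f1 f ^ 2 ∣ Δ := by exact_mod_cast h1
    obtain ⟨D, hD⟩ := h2
    exact hr ⟨D, hD.symm⟩
  rw [← hinj.tsum_eq hs]
  refine tsum_congr fun D => ?_
  have hf0 : (f1 f : ℝ) ^ 2 ≠ 0 := pow_ne_zero _ (by exact_mod_cast hf.ne')
  congr 2
  push_cast
  rw [mul_div_mul_left _ _ hf0]

theorem f1_pos {f : ℕ} (hf : 0 < f) : 0 < f1 f := by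
  unfold f1 rd
  exact Nat.div_pos (Nat.le_of_dvd hf (Nat.prod_primeFactors_dvd f))
    (Finset.prod_pos fun p hp => (Nat.prime_of_mem_primeFactors hp).pos)

open Classical in
theorem fsumf {G : ℝ → ℝ} {η : ℝ} (hη : 0 < η) (h : ∀ u, u ∉ Icc η 1 → G u = 0) {Y : ℝ}
    (hY : 0 < Y) (hUC : T_UCf) (P : Polynomial ℝ) (M : ℝ) (N f : ℕ) (lam : ℕ → ℤ → ℝ)
    (hf : 0 < f) (hN1 : 1 ≤ N) (hN2 : 2 ∣ N) (hN : Squarefree N)
    (hfN : ∀ p, p.Prime → p ∣ f → p ∣ N) :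
    (∑' D : ℕ, if gdN N D then G (D / Y) * (Lam N lam D * SDn P M N f D) else 0) =
      2 * ∑ n₁ ∈ (nf N f).divisors, ∑ n₂ ∈ (nf N f).divisors, ∑ d ∈ (rd f).divisors,
        ∑ m₁ ∈ Finset.Icc 1 ⌊M⌋₊, ∑ m₂ ∈ Finset.Icc 1 ⌊M⌋₊, cm P M N m₁ * cm P M N m₂ *
          ∑' Δ : ℕ, G (Δ / ((f1 f : ℝ) ^ 2 * Y)) *
            USg (rd f) d (n₁ * n₂ * rd f) m₁ m₂ (wf N f lam n₁ n₂ d) Δ := by
  have hG0 : ∀ D : ℕ, D ∉ Finset.range (⌊Y⌋₊ + 1) → G (D / Y) = 0 := by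
    intro D hD
    by_contra hh
    have := (G_supp h hY hh).2
    rw [Finset.mem_range, not_lt] at hD
    have h2 : D ≤ ⌊Y⌋₊ := Nat.le_floor this
    omega
  rw [tsum_eq_sum (s := Finset.range (⌊Y⌋₊ + 1)) (fun D hD => by
    rw [hG0 D hD, zero_mul, ite_self])]
  have h1 : ∀ n₁ n₂ d m₁ m₂ : ℕ, ∑' Δ : ℕ, G (Δ / ((f1 f : ℝ) ^ 2 * Y)) *
            USg (rd f) d (n₁ * n₂ * rd f) m₁ m₂ (wf N f lam n₁ n₂ d) Δ =
      ∑ D ∈ Finset.range (⌊Y⌋₊ + 1), G (D / Y) *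
        USg (rd f) d (n₁ * n₂ * rd f) m₁ m₂ (wf N f lam n₁ n₂ d) (f1 f ^ 2 * D) := by
    intro n₁ n₂ d m₁ m₂
    rw [lev_sum lam (rd f) d (n₁ * n₂ * rd f) n₁ n₂ m₁ m₂ G (f1_pos hf)]
    exact tsum_eq_sum (fun D hD => by rw [hG0 D hD, zero_mul])
  have h2 : ∀ D : ℕ, (if gdN N D then G (D / Y) * (Lam N lam D * SDn P M N f D) else 0) =
      2 * ∑ n₁ ∈ (nf N f).divisors, ∑ n₂ ∈ (nf N f).divisors, ∑ d ∈ (rd f).divisors,
        ∑ m₁ ∈ Finset.Icc 1 ⌊M⌋₊, ∑ m₂ ∈ Finset.Icc 1 ⌊M⌋₊, cm P M N m₁ * cm P M N m₂ *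
          (G (D / Y) *
        USg (rd f) d (n₁ * n₂ * rd f) m₁ m₂ (wf N f lam n₁ n₂ d) (f1 f ^ 2 * D)) := by
    intro D
    by_cases hg : gdN N D
    · rw [if_pos hg]
      rcases Nat.eq_zero_or_pos D with h0 | h0
      · have : G ((D : ℕ) / Y) = 0 := by
          apply h
          rw [h0]
          simp only [Nat.cast_zero, zero_div, mem_Icc, not_and, not_le]
          intro h3
          linarith
        simp only [this, zero_mul, mul_zero, Finset.sum_const_zero]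
      · rw [hUC P M N f D lam hf hN1 hN2 hN hfN h0 hg]
        simp only [Finset.mul_sum]
        refine Finset.sum_congr rfl fun n₁ _ => Finset.sum_congr rfl fun n₂ _ =>
          Finset.sum_congr rfl fun d _ => Finset.sum_congr rfl fun m₁ _ =>
          Finset.sum_congr rfl fun m₂ _ => ?_
        ring
    · rw [if_neg hg]
      have hf0 : (f1 f : ℤ) ^ 2 ≠ 0 := pow_ne_zero _ (by exact_mod_cast (f1_pos hf).ne')
      have : ∀ n₁ n₂ d m₁ m₂ : ℕ, USg (rd f) d (n₁ * n₂ * rd f) m₁ m₂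
          (wf N f lam n₁ n₂ d) (f1 f ^ 2 * D) = 0 := by
        intro n₁ n₂ d m₁ m₂
        refine USg_bad lam (rd f) d (n₁ * n₂ * rd f) n₁ n₂ m₁ m₂ ?_
        rintro ⟨-, h3⟩
        push_cast at h3
        rw [Int.mul_ediv_cancel_left _ hf0] at h3
        exact hg h3
      simp only [this, mul_zero, Finset.sum_const_zero]
  rw [Finset.sum_congr rfl (fun D _ => h2 D), ← Finset.mul_sum]
  congr 1
  simp only [h1]
  rw [Finset.sum_comm]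
  refine Finset.sum_congr rfl fun n₁ _ => ?_
  rw [Finset.sum_comm]
  refine Finset.sum_congr rfl fun n₂ _ => ?_
  rw [Finset.sum_comm]
  refine Finset.sum_congr rfl fun d _ => ?_
  rw [Finset.sum_comm]
  refine Finset.sum_congr rfl fun m₁ _ => ?_
  rw [Finset.sum_comm]
  refine Finset.sum_congr rfl fun m₂ _ => ?_
  rw [Finset.mul_sum]

/-- the element at the small primes -/
noncomputable def Nnf (T : Finset (ℕ × ℕ)) (F : ℕ → ℕ → ℕ → ℕ × ℕ → ℝ) (g n₁ n₂ d : ℕ) : GR :=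
  ∑ x ∈ T, (F n₁ n₂ d x / ((x.1 : ℝ) * x.2)) •
    E (Real.log x.1 - Real.log ((g : ℝ) / (d : ℝ) ^ 2))
      (Real.log (x.1 * (x.2 : ℝ) ^ 2 / ((n₁ * n₂ * g : ℕ) : ℝ)))

theorem sum_mainf {G : ℝ → ℝ} {η : ℝ} (hη : 0 < η) (hG : ContDiff ℝ (⊤ : ℕ∞) G)
    (h : ∀ u, u ∉ Icc η 1 → G u = 0) {X : ℝ} (hX : 0 < X) (hVK : T_VK) (hMN : T_MNf)
    (P : Polynomial ℝ) (M : ℝ) (N f : ℕ) (lam : ℕ → ℤ → ℝ) (hN1 : 1 ≤ N) (hrd : 0 < rd f)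
    (hnf : nf N f ∣ N) (T : Finset (ℕ × ℕ))
    (F : ℕ → ℕ → ℕ → ℕ × ℕ → ℝ) (hT : ∀ x ∈ T, x.1 ∣ N ^ 2 ∧ x.2 ∣ N ^ 2)
    (hF : ∀ n₁ n₂ d e A, n₁ ∣ nf N f → n₂ ∣ nf N f → d ∣ rd f → 1 ≤ e → 1 ≤ A →
      wbd (qf N f) d (wf N f lam n₁ n₂ d) e A =
        ∑ x ∈ T, if x.1 ∣ A ∧ x.2 ∣ e then F n₁ n₂ d x else 0) :
    ∑ n₁ ∈ (nf N f).divisors, ∑ n₂ ∈ (nf N f).divisors, ∑ d ∈ (rd f).divisors,
        ∑ m₁ ∈ Finset.Icc 1 ⌊M⌋₊, ∑ m₂ ∈ Finset.Icc 1 ⌊M⌋₊, cm P M N m₁ * cm P M N m₂ *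
          ∫ D in Ioi (0 : ℝ), G (D / X) * Mng (qf N f) (n₁ * n₂ * rd f) (rd f) d m₁ m₂
            (wf N f lam n₁ n₂ d) D =
      ∫ D in Ioi (0 : ℝ), G (D / X) * Ph (Real.log (Real.sqrt D))
        ((∑ n₁ ∈ (nf N f).divisors, ∑ n₂ ∈ (nf N f).divisors, ∑ d ∈ (rd f).divisors,
          Nnf T F (rd f) n₁ n₂ d) *
          ∑ m₁ ∈ Finset.Icc 1 ⌊M⌋₊, ∑ m₂ ∈ Finset.Icc 1 ⌊M⌋₊,
            (cm P M N m₁ * cm P M N m₂) • ka m₁ m₂) := by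
  have h1 : ∀ n₁ ∈ (nf N f).divisors, ∀ n₂ ∈ (nf N f).divisors, ∀ d ∈ (rd f).divisors,
      ∀ m₁ ∈ Finset.Icc 1 ⌊M⌋₊,
      ∀ m₂ ∈ Finset.Icc 1 ⌊M⌋₊, cm P M N m₁ * cm P M N m₂ *
          ∫ D in Ioi (0 : ℝ), G (D / X) * Mng (qf N f) (n₁ * n₂ * rd f) (rd f) d m₁ m₂
            (wf N f lam n₁ n₂ d) D =
      IL hη hG h hX hVK (Nnf T F (rd f) n₁ n₂ d *
        ((cm P M N m₁ * cm P M N m₂) • ka m₁ m₂)) := by
    intro n₁ hn₁ n₂ hn₂ d hd m₁ hm₁ m₂ hm₂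
    rw [mul_smul_comm, map_smul, smul_eq_mul]
    by_cases hc : cm P M N m₁ * cm P M N m₂ = 0
    · rw [hc, zero_mul, zero_mul]
    · congr 1
      have hc1 : cm P M N m₁ ≠ 0 := fun h0 => hc (by rw [h0, zero_mul])
      have hc2 : cm P M N m₂ ≠ 0 := fun h0 => hc (by rw [h0, mul_zero])
      have hs1 : Squarefree m₁ := by_contra fun hh => hc1 (cm_sq P M N m₁ hh)
      have hs2 : Squarefree m₂ := by_contra fun hh => hc2 (cm_sq P M N m₂ hh)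
      have hp1 : Nat.Coprime m₁ N := by_contra fun hh => hc1 (cm_cop P M N m₁ hh)
      have hp2 : Nat.Coprime m₂ N := by_contra fun hh => hc2 (cm_cop P M N m₂ hh)
      have hn1 : n₁ ∣ nf N f := Nat.dvd_of_mem_divisors hn₁
      have hn2 : n₂ ∣ nf N f := Nat.dvd_of_mem_divisors hn₂
      have hdd : d ∣ rd f := Nat.dvd_of_mem_divisors hd
      have hn : 1 ≤ n₁ * n₂ * rd f := Nat.mul_pos (Nat.mul_pos
        (Nat.pos_of_dvd_of_pos (hn1.trans hnf) hN1)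
        (Nat.pos_of_dvd_of_pos (hn2.trans hnf) hN1)) hrd
      have hcop : Nat.Coprime (N ^ 2) (m₁ * m₂) :=
        Nat.Coprime.pow_left 2 (Nat.Coprime.mul_right hp1.symm hp2.symm)
      show _ = ∫ D in Ioi (0 : ℝ), G (D / X) * Ph (Real.log (Real.sqrt D))
        (Nnf T F (rd f) n₁ n₂ d * ka m₁ m₂)
      refine setIntegral_congr_fun measurableSet_Ioi fun D hD => ?_
      have hM := hMN (qf N f) (n₁ * n₂ * rd f) (rd f) d m₁ m₂ (wf N f lam n₁ n₂ d) T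
        (F n₁ n₂ d) D hn hrd (Nat.pos_of_dvd_of_pos hdd hrd) hs1 hs2
        (fun x hx => ⟨Nat.pos_of_dvd_of_pos (hT x hx).1 (by positivity),
          Nat.pos_of_dvd_of_pos (hT x hx).2 (by positivity)⟩)
        (fun x hx => ⟨Nat.Coprime.coprime_dvd_left (hT x hx).1 hcop,
          Nat.Coprime.coprime_dvd_left (hT x hx).2 hcop⟩) hD
        (fun e A he hA => hF n₁ n₂ d e A hn1 hn2 hdd he hA)
      show G (D / X) * Mng (qf N f) (n₁ * n₂ * rd f) (rd f) d m₁ m₂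
            (wf N f lam n₁ n₂ d) D = _
      rw [hM]
      rfl
  have h2 : IL hη hG h hX hVK ((∑ n₁ ∈ (nf N f).divisors, ∑ n₂ ∈ (nf N f).divisors,
      ∑ d ∈ (rd f).divisors, Nnf T F (rd f) n₁ n₂ d) *
          ∑ m₁ ∈ Finset.Icc 1 ⌊M⌋₊, ∑ m₂ ∈ Finset.Icc 1 ⌊M⌋₊,
            (cm P M N m₁ * cm P M N m₂) • ka m₁ m₂) =
      ∑ n₁ ∈ (nf N f).divisors, ∑ n₂ ∈ (nf N f).divisors, ∑ d ∈ (rd f).divisors,
        ∑ m₁ ∈ Finset.Icc 1 ⌊M⌋₊, ∑ m₂ ∈ Finset.Icc 1 ⌊M⌋₊, IL hη hG h hX hVK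
          (Nnf T F (rd f) n₁ n₂ d * ((cm P M N m₁ * cm P M N m₂) • ka m₁ m₂)) := by
    rw [Finset.sum_mul, map_sum]
    refine Finset.sum_congr rfl fun n₁ _ => ?_
    rw [Finset.sum_mul, map_sum]
    refine Finset.sum_congr rfl fun n₂ _ => ?_
    rw [Finset.sum_mul, map_sum]
    refine Finset.sum_congr rfl fun d _ => ?_
    rw [Finset.mul_sum, map_sum]
    refine Finset.sum_congr rfl fun m₁ _ => ?_
    rw [Finset.mul_sum, map_sum]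
  show _ = IL hη hG h hX hVK _
  rw [h2]
  exact Finset.sum_congr rfl fun n₁ hn₁ => Finset.sum_congr rfl fun n₂ hn₂ =>
    Finset.sum_congr rfl fun d hd => Finset.sum_congr rfl fun m₁ hm₁ =>
    Finset.sum_congr rfl fun m₂ hm₂ => h1 n₁ hn₁ n₂ hn₂ d hd m₁ hm₁ m₂ hm₂

end Pool.Agent.H91.CF
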