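import Pool.Agent.H91.CF.Main
import Pool.Agent.H96.CN.LOP

/-!
# All orthogonal characters of degree two: targets for the local means, the second moment and
the assembly
-/

set_option autoImplicit false

open MeasureTheory Set Filter NumberField
open scoped Real nonZeroDivisors

namespace Pool.Agent.H91.CF

open Pool.Agent.H31.CN Pool.Agent.H28.RC

open Pool.Agent.H96.CN (Av Per2)

/-! ### Types -/

/-- (TYP) the type does not change when the discriminant is multiplied by a square prime to `p`. -/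
def T_TYP : Prop :=
  ∀ (p : ℕ) (u Δ : ℤ), p.Prime → ¬ (p : ℤ) ∣ u →
    ch p (u ^ 2 * Δ) = ch p Δ ∧
      (gdp p (u ^ 2 * Δ) ↔ gdp p Δ)

/-- (TPR) the type is a periodic function, with values `-1`, `0`, `1`. -/
def T_TPR : Prop :=
  ∀ (p : ℕ) (Δ Δ' : ℤ), p.Prime → (p : ℤ) ^ (if p = 2 then 4 else 2) ∣ Δ - Δ' →
    ch p Δ = ch p Δ' ∧ (gdp p Δ ↔ gdp p Δ') ∧
      ch p Δ ∈ ({-1, 0, 1} : Finset ℤ)

/-- the local numbers of roots for a form of discriminant `-Δ`, as functions of the type -/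
def LUs (p A : ℕ) (B C Δ : ℤ) : Prop :=
  (¬ p ∣ A → (nrt p A B C : ℤ) = 1 + ch p Δ ∧
      (nrt (p ^ 2) A B C : ℤ) = if ch p Δ = 0 then 0 else 1 + ch p Δ) ∧
    (p ∣ A → ¬ p ^ 2 ∣ A → (ch p Δ = 1 ∧ nrt p A B C = 1 ∧
        nrt (p ^ 2) A B C = 1 ∧ nrt p ((A / p : ℕ) : ℤ) B (p * C) = 2) ∨
      (ch p Δ = 0 ∧ nrt p A B C = 0 ∧
        nrt (p ^ 2) A B C = 0 ∧ nrt p ((A / p : ℕ) : ℤ) B (p * C) = 1)) ∧
    (p ^ 2 ∣ A → ch p Δ = 1 ∧ nrt p A B C = 1 ∧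
        nrt (p ^ 2) A B C = 1 ∧ nrt p ((A / p : ℕ) : ℤ) B (p * C) = 1)

/-- (LUO) the local numbers of roots, odd `p`. -/
def T_LUO : Prop :=
  ∀ (p A : ℕ) (B C Δ : ℤ), p.Prime → p ≠ 2 → 1 ≤ A → Δ = 4 * A * C - B ^ 2 → gdp p Δ →
    LUs p A B C Δ

/-- (LU2) the local numbers of roots, `p = 2`. -/
def T_LU2 : Prop :=
  ∀ (A : ℕ) (B C Δ : ℤ), 1 ≤ A → Δ = 4 * A * C - B ^ 2 → gdp 2 Δ → LUs 2 A B C Δ

/-- the density of the type `τ` at `p`, twice the density for `p = 2` -/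
noncomputable def dd (p : ℕ) (τ : ℤ) : ℝ :=
  if τ = 0 then ((p : ℝ) - 1) / (p : ℝ) ^ 2 else ((p : ℝ) - 1) / (2 * p)

/-- the density of the type `τ` for forms with leading coefficient `A` -/
noncomputable def ddA (p A : ℕ) (τ : ℤ) : ℝ :=
  if ¬ p ∣ A then dd p τ else
    if τ = 1 then ((p : ℝ) - 1) / p else
      if τ = 0 ∧ ¬ p ^ 2 ∣ A then ((p : ℝ) - 1) / (p : ℝ) ^ 2 else 0

open Classical in
/-- (DNS) the densities of the types for forms, odd `p`. -/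
def T_DNS : Prop :=
  ∀ (p A : ℕ) (τ : ℤ), p.Prime → p ≠ 2 → 1 ≤ A → τ ∈ ({-1, 0, 1} : Finset ℤ) →
    Av (ql p) (fun B C => if gdp p (4 * A * C - B ^ 2) ∧
      ch p (4 * A * C - B ^ 2) = τ then 1 else 0) = ddA p A τ

open Classical in
/-- (DN2) the densities of the types for forms, `p = 2`. -/
def T_DN2 : Prop :=
  ∀ (A : ℕ) (τ : ℤ), 1 ≤ A → τ ∈ ({-1, 0, 1} : Finset ℤ) →
    Av (ql 2) (fun B C => if gdp 2 (4 * A * C - B ^ 2) ∧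
      ch 2 (4 * A * C - B ^ 2) = τ then 1 else 0) = ddA 2 A τ

/-! ### Local weights -/

/-- the local modulus -/
def qlp (f p : ℕ) : ℕ := if p ∣ f then p ^ (2 * f.factorization p + 5) else ql p

/-- the square of the local part of `f1 f` -/
def sqp (f p : ℕ) : ℤ := (p : ℤ) ^ (2 * (f.factorization p - 1))

open Classical in
/-- the local weight; `t` is the number of the `n₁`, `n₂` divisible by `p` if `p` does not divide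
`f`, and `t = 1` or `0` according as `p` divides `d` or not if `p` divides `f` -/
noncomputable def wlo (f p : ℕ) (lam : ℤ → ℝ) (t e A : ℕ) (B C : ℤ) : ℝ :=
  if p ∣ f then
    (if sqp f p ∣ 4 * A * C - B ^ 2 ∧ gdp p ((4 * A * C - B ^ 2) / sqp f p) ∧ ¬ p ∣ e ∧ ¬ p ∣ A ∧
        (t = 0 ∨ ¬ (p : ℤ) ∣ C) then
      lam (ch p ((4 * A * C - B ^ 2) / sqp f p)) *
        (if t = 0 then
          1 - 1 / (npt f p (ch p ((4 * A * C - B ^ 2) / sqp f p)) : ℝ)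
        else -(1 / (npt f p (ch p ((4 * A * C - B ^ 2) / sqp f p)) : ℝ)))
      else 0)
  else
    (if gdp p (4 * A * C - B ^ 2) then
      lam (ch p (4 * A * C - B ^ 2)) *
        (if t = 0 then (1 + (ch p (4 * A * C - B ^ 2) : ℝ) / p) ^ 2 else
          if t = 1 then -(1 + (ch p (4 * A * C - B ^ 2) : ℝ) / p) *
            N1 p A B C e else (N2 p A B C e : ℝ))
      else 0)

/-- (WPR) the local weight is periodic. -/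
def T_WPR : Prop :=
  ∀ (f p : ℕ) (lam : ℤ → ℝ) (t e A : ℕ), 0 < f → p.Prime → Per2 (qlp f p) (wlo f p lam t e A)

/-- the local index set -/
def Ip (p : ℕ) : Finset (ℕ × ℕ) :=
  ({1, p, p ^ 2} : Finset ℕ) ×ˢ ({1, p, p ^ 2} : Finset ℕ)

/-- (LCU) the local means at a prime which does not divide the conductor. -/
def T_LCU : Prop :=
  ∀ (f p : ℕ) (lam : ℤ → ℝ), 0 < f → p.Prime → ¬ p ∣ f → ∃ F : ℕ → ℕ × ℕ → ℝ,
    (∀ t, t ≤ 2 → ∀ e A, 1 ≤ e → 1 ≤ A → Av (qlp f p) (wlo f p lam t e A) =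
      ∑ x ∈ Ip p, if x.1 ∣ A ∧ x.2 ∣ e then F t x else 0) ∧
    ∑ x ∈ Ip p, (F 0 x + 2 * F 1 x + F 2 x) / ((x.1 : ℝ) * x.2) =
      (1 - 1 / (p : ℝ)) ^ 3 * ∑ τ ∈ ({-1, 0, 1} : Finset ℤ), lam τ * dd p τ

open Classical in
/-- (DNO) the densities of the types for forms of level divisible by `p`, odd `p`. -/
def T_DNO : Prop :=
  ∀ (f p A : ℕ) (τ : ℤ), 0 < f → p.Prime → p ≠ 2 → p ∣ f → ¬ p ∣ A →
    τ ∈ ({-1, 0, 1} : Finset ℤ) →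
    Av (qlp f p) (fun B C => if sqp f p ∣ 4 * A * C - B ^ 2 ∧
      gdp p ((4 * A * C - B ^ 2) / sqp f p) ∧
      ch p ((4 * A * C - B ^ 2) / sqp f p) = τ then 1 else 0) =
      dd p τ / (sqp f p : ℝ)

open Classical in
/-- (DNT) the densities of the types for forms of even level. -/
def T_DNT : Prop :=
  ∀ (f A : ℕ) (τ : ℤ), 0 < f → 2 ∣ f → ¬ 2 ∣ A → τ ∈ ({-1, 0, 1} : Finset ℤ) →
    Av (qlp f 2) (fun B C => if sqp f 2 ∣ 4 * A * C - B ^ 2 ∧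
      gdp 2 ((4 * A * C - B ^ 2) / sqp f 2) ∧
      ch 2 ((4 * A * C - B ^ 2) / sqp f 2) = τ then 1 else 0) =
      dd 2 τ / (sqp f 2 : ℝ)

open Classical in
/-- (DNC) the same with the last coefficient prime to `p`. -/
def T_DNC : Prop :=
  ∀ (f p A : ℕ) (τ : ℤ), 0 < f → p.Prime → p ∣ f → ¬ p ∣ A → τ ∈ ({-1, 0, 1} : Finset ℤ) →
    Av (qlp f p) (fun B C => if (sqp f p ∣ 4 * A * C - B ^ 2 ∧
      gdp p ((4 * A * C - B ^ 2) / sqp f p) ∧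
      ch p ((4 * A * C - B ^ 2) / sqp f p) = τ) ∧ ¬ (p : ℤ) ∣ C then 1 else 0) =
    (((npt f p τ : ℝ) - 1) / p) *
      Av (qlp f p) (fun B C => if sqp f p ∣ 4 * A * C - B ^ 2 ∧
        gdp p ((4 * A * C - B ^ 2) / sqp f p) ∧
        ch p ((4 * A * C - B ^ 2) / sqp f p) = τ then 1 else 0)

/-- (LCR) the local means at a prime which divides the conductor. -/
def T_LCR : Prop :=
  ∀ (f p : ℕ) (lam : ℤ → ℝ), 0 < f → p.Prime → p ∣ f → ∃ F : ℕ → ℕ × ℕ → ℝ,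
    (∀ t, t ≤ 1 → ∀ e A, 1 ≤ e → 1 ≤ A → Av (qlp f p) (wlo f p lam t e A) =
      ∑ x ∈ Ip p, if x.1 ∣ A ∧ x.2 ∣ e then F t x else 0) ∧
    ∑ x ∈ Ip p, (F 0 x + F 1 x) / ((x.1 : ℝ) * x.2) =
      (1 - 1 / (p : ℝ)) ^ 3 * (∑ τ ∈ ({-1, 0, 1} : Finset ℤ), lam τ * pit f p τ * dd p τ) /
        (sqp f p : ℝ)

/-! ### The global weight -/

/-- the modulus -/
def qf (N f : ℕ) : ℕ := ∏ p ∈ N.primeFactors, qlp f p

/-- the state at `p` -/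
def sta (f n₁ n₂ d p : ℕ) : ℕ :=
  if p ∣ f then (if p ∣ d then 1 else 0) else (if p ∣ n₁ then 1 else 0) + (if p ∣ n₂ then 1 else 0)

open Classical in
/-- the weight -/
noncomputable def wf (N f : ℕ) (lam : ℕ → ℤ → ℝ) (n₁ n₂ d e A : ℕ) (B C : ℤ) : ℝ :=
  if (f1 f : ℤ) ^ 2 ∣ 4 * A * C - B ^ 2 ∧ gdN N ((4 * A * C - B ^ 2) / (f1 f : ℤ) ^ 2) ∧
      Nat.Coprime (e * A) f then
    Lam N lam ((4 * A * C - B ^ 2) / (f1 f : ℤ) ^ 2) *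
      anf N f n₁ ((4 * A * C - B ^ 2) / (f1 f : ℤ) ^ 2) *
      anf N f n₂ ((4 * A * C - B ^ 2) / (f1 f : ℤ) ^ 2) *
      cfd f d ((4 * A * C - B ^ 2) / (f1 f : ℤ) ^ 2) * Nw n₁ n₂ A B C e
  else 0

/-- (RDF) elementary properties of the kernel of `f`. -/
def T_RDF : Prop :=
  ∀ (N f : ℕ), 0 < f → Squarefree N → (∀ p, p.Prime → p ∣ f → p ∣ N) →
    Squarefree (rd f) ∧ (rd f).primeFactors = f.primeFactors ∧ rd f * f1 f = f ∧ rd f ∣ N ∧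
      nf N f * rd f = N ∧ Nat.Coprime (nf N f) f ∧ Squarefree (nf N f) ∧
      (nf N f).primeFactors = N.primeFactors.filter (fun p => ¬ p ∣ f) ∧
      (∀ p, p.Prime → (f1 f).factorization p = f.factorization p - 1) ∧
      (∏ p ∈ f.primeFactors, sqp f p) = (f1 f : ℤ) ^ 2 ∧ rd f ∣ qf N f ∧ 1 ≤ qf N f ∧
      (∀ m, Nat.Coprime m N → Nat.Coprime (qf N f) m)

/-- (WFE) the weight is the product of the local weights. -/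
def T_WFE : Prop :=
  ∀ (N f : ℕ) (lam : ℕ → ℤ → ℝ) (n₁ n₂ d e A : ℕ) (B C : ℤ), 0 < f → 1 ≤ N → 2 ∣ N →
    Squarefree N → (∀ p, p.Prime → p ∣ f → p ∣ N) → n₁ ∣ nf N f → n₂ ∣ nf N f → d ∣ rd f →
    1 ≤ e → 1 ≤ A →
    (if IsCoprime C (d : ℤ) then wf N f lam n₁ n₂ d e A B C else 0) =
      ∏ p ∈ N.primeFactors, wlo f p (lam p) (sta f n₁ n₂ d p) e A B C

/-- (WDf) the weight is admissible. -/
def T_WDf : Prop :=
  ∀ (N f : ℕ) (lam : ℕ → ℤ → ℝ), 0 < f → 1 ≤ N → 2 ∣ N → Squarefree N →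
    (∀ p, p.Prime → p ∣ f → p ∣ N) → ∀ n₁ n₂ d : ℕ, n₁ ∣ nf N f → n₂ ∣ nf N f → d ∣ rd f →
    ∃ K : ℝ, WD (qf N f) K (wf N f lam n₁ n₂ d)

/-- (LPf) the means at all small primes together. -/
def T_LPf : Prop :=
  ∀ (N f : ℕ) (lam : ℕ → ℤ → ℝ), 0 < f → 1 ≤ N → 2 ∣ N → Squarefree N →
    (∀ p, p.Prime → p ∣ f → p ∣ N) → ∀ n₁ n₂ d : ℕ, n₁ ∣ nf N f → n₂ ∣ nf N f → d ∣ rd f →
    ∀ e A, 1 ≤ e → 1 ≤ A → wbd (qf N f) d (wf N f lam n₁ n₂ d) e A =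
      ∏ p ∈ N.primeFactors, Av (qlp f p) (wlo f p (lam p) (sta f n₁ n₂ d p) e A)

/-- (NLf) the element of the group ring at the small primes. -/
def T_NLf : Prop :=
  ∀ (N f : ℕ) (lam : ℕ → ℤ → ℝ), 0 < f → 1 ≤ N → 2 ∣ N → Squarefree N →
    (∀ p, p.Prime → p ∣ f → p ∣ N) → ∃ (T : Finset (ℕ × ℕ)) (F : ℕ → ℕ → ℕ → ℕ × ℕ → ℝ),
    (∀ x ∈ T, x.1 ∣ N ^ 2 ∧ x.2 ∣ N ^ 2) ∧
    (∀ n₁ n₂ d e A, n₁ ∣ nf N f → n₂ ∣ nf N f → d ∣ rd f → 1 ≤ e → 1 ≤ A →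
      wbd (qf N f) d (wf N f lam n₁ n₂ d) e A =
        ∑ x ∈ T, if x.1 ∣ A ∧ x.2 ∣ e then F n₁ n₂ d x else 0) ∧
    ∑ n₁ ∈ (nf N f).divisors, ∑ n₂ ∈ (nf N f).divisors, ∑ d ∈ (rd f).divisors,
      ∑ x ∈ T, F n₁ n₂ d x / ((x.1 : ℝ) * x.2) =
      (∏ p ∈ N.primeFactors, (1 - 1 / (p : ℝ)) ^ 3 *
        ∑ τ ∈ ({-1, 0, 1} : Finset ℤ), lam p τ * pit f p τ * dd p τ) / (f1 f : ℝ) ^ 2

/-- (UCf) the unfolded second moment with the mollifier coefficients. -/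
def T_UCf : Prop :=
  ∀ (P : Polynomial ℝ) (M : ℝ) (N f D : ℕ) (lam : ℕ → ℤ → ℝ), 0 < f → 1 ≤ N → 2 ∣ N →
    Squarefree N → (∀ p, p.Prime → p ∣ f → p ∣ N) → 0 < D → gdN N D →
    Lam N lam D * SDn P M N f D =
      2 * ∑ n₁ ∈ (nf N f).divisors, ∑ n₂ ∈ (nf N f).divisors, ∑ d ∈ (rd f).divisors,
        ∑ m₁ ∈ Finset.Icc 1 ⌊M⌋₊, ∑ m₂ ∈ Finset.Icc 1 ⌊M⌋₊,
          cm P M N m₁ * cm P M N m₂ *
            USg (rd f) d (n₁ * n₂ * rd f) m₁ m₂ (wf N f lam n₁ n₂ d) (f1 f ^ 2 * D)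

/-! ### Counting discriminants -/

/-- (FSQ) fundamental discriminants in terms of the local conditions. -/
def T_FSQ : Prop :=
  ∀ (N D : ℕ), 1 ≤ N → 2 ∣ N → 0 < D →
    (Fu D ↔ gdN N D ∧ ∀ p : ℕ, p.Prime → ¬ p ∣ N → ¬ p ^ 2 ∣ D)

open Classical in
/-- (FAP) numbers in an arithmetic progression without square factors prime to `N`. -/
def T_FAP : Prop :=
  ∀ (N q a : ℕ) (ε : ℝ), 1 ≤ N → 1 ≤ q → (∀ p, p.Prime → p ∣ q → p ∣ N) → 0 < ε →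
    ∃ Y₀ : ℝ, ∀ Y : ℝ, Y₀ ≤ Y →
      |(((Finset.Icc 1 ⌊Y⌋₊).filter (fun D => D % q = a % q ∧
          ∀ p : ℕ, p.Prime → ¬ p ∣ N → ¬ p ^ 2 ∣ D)).card : ℝ) -
        Y / q * ∏' p : Nat.Primes, if (p : ℕ) ∣ N then 1 else 1 - 1 / ((p : ℕ) : ℝ) ^ 2| ≤ ε * Y

open Classical in
/-- (FMO) the mean of a product of local weights over the discriminants modulo `q`. -/
def T_FMO : Prop :=
  ∀ (N : ℕ) (lam : ℕ → ℤ → ℝ), 1 ≤ N → 2 ∣ N → Squarefree N → ∃ q : ℕ, 1 ≤ q ∧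
    (∀ p, p.Prime → p ∣ q → p ∣ N) ∧
    (∀ D D' : ℤ, (q : ℤ) ∣ D - D' → (gdN N D ↔ gdN N D') ∧ Lam N lam D = Lam N lam D') ∧
    (1 / (q : ℝ)) * ∑ a ∈ Finset.range q, (if gdN N a then Lam N lam a else 0) =
      ∏ p ∈ N.primeFactors, ∑ τ ∈ ({-1, 0, 1} : Finset ℤ), lam p τ * del p τ

/-- (ABL) smooth sums from sharp sums. -/
def T_ABL : Prop :=
  ∀ (G : ℝ → ℝ) (η : ℝ), 0 < η → ContDiff ℝ (⊤ : ℕ∞) G → (∀ u, u ∉ Icc η 1 → G u = 0) →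
  ∀ (a : ℕ → ℝ) (c : ℝ), (∀ ε : ℝ, 0 < ε → ∃ Y₀ : ℝ, ∀ Y : ℝ, Y₀ ≤ Y →
      |(∑ D ∈ Finset.Icc 1 ⌊Y⌋₊, a D) - c * Y| ≤ ε * Y) →
    ∀ ε : ℝ, 0 < ε → ∃ Y₀ : ℝ, ∀ Y : ℝ, Y₀ ≤ Y →
      |(∑ D ∈ Finset.Icc 1 ⌊Y⌋₊, G (D / Y) * a D) -
        Y * (∫ u in Ioi (0 : ℝ), G u) * c| ≤ ε * Y

/-! ### Assembly -/

/-- (GSM) a smooth function just below the square root. -/
def T_GSM : Prop :=
  ∀ η : ℝ, 0 < η → η < 1 / 4 → ∃ G : ℝ → ℝ, ContDiff ℝ (⊤ : ℕ∞) G ∧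
    (∀ u, u ∉ Icc η 1 → G u = 0) ∧ (∀ u, 0 ≤ G u) ∧ (∀ u, 0 ≤ u → G u ≤ Real.sqrt u) ∧
    ∀ u, 2 * η ≤ u → u ≤ 1 - η → G u = Real.sqrt u

end Pool.Agent.H91.CF
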